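import Pool.Agent.W_3283e1_zd.ZDef

set_option autoImplicit false

/-! Removing the multiples of finitely many primes by a Dirichlet polynomial. -/

namespace W3283z

/-- One step: the factor `1 - A p^{-s} + q p^{-2s}`. -/
theorem cv_step (a : ℕ → ℝ) (D : Finset ℕ) (μ : ℕ → ℝ) (hD : ∀ d ∈ D, 0 < d) (p : ℕ) (hp : 0 < p)
    (A q : ℝ) : ∃ (D' : Finset ℕ) (μ' : ℕ → ℝ), (∀ d ∈ D', 0 < d) ∧
      ∀ n : ℕ, cv D' μ' a n = cv D μ a n - A * (if p ∣ n then cv D μ a (n / p) else 0) +
        q * (if p ^ 2 ∣ n then cv D μ a (n / p ^ 2) else 0) := by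
  classical
  obtain ⟨D1, hD1⟩ : ∃ D1, D1 = D.image (fun d => p * d) := ⟨_, rfl⟩
  obtain ⟨D2, hD2⟩ : ∃ D2, D2 = D.image (fun d => p ^ 2 * d) := ⟨_, rfl⟩
  have hp2 : 0 < p ^ 2 := by positivity
  refine ⟨D ∪ D1 ∪ D2, fun d => (if d ∈ D then μ d else 0) - A * (if d ∈ D1 then μ (d / p) else 0)
    + q * (if d ∈ D2 then μ (d / p ^ 2) else 0), ?_, ?_⟩
  · intro d hd
    rw [Finset.mem_union, Finset.mem_union, hD1, hD2, Finset.mem_image, Finset.mem_image] at hd
    rcases hd with (hd | ⟨e, he, rfl⟩) | ⟨e, he, rfl⟩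
    · exact hD d hd
    · exact Nat.mul_pos hp (hD e he)
    · exact Nat.mul_pos hp2 (hD e he)
  · intro n
    have hsh : ∀ (r : ℕ), 0 < r → (∑ d ∈ D.image (fun d => r * d),
        μ (d / r) * (if d ∣ n then a (n / d) else 0)) =
          if r ∣ n then cv D μ a (n / r) else 0 := by
      intro r hr
      rw [Finset.sum_image (fun x _ y _ h => Nat.eq_of_mul_eq_mul_left hr h)]
      by_cases hrn : r ∣ n
      · rw [if_pos hrn]
        obtain ⟨k, rfl⟩ := hrn
        rw [Nat.mul_div_cancel_left k hr]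
        unfold cv
        refine Finset.sum_congr rfl fun d _ => ?_
        rw [Nat.mul_div_cancel_left d hr, Nat.mul_div_mul_left _ _ hr]
        by_cases hd : d ∣ k
        · rw [if_pos hd, if_pos (Nat.mul_dvd_mul_left r hd)]
        · rw [if_neg hd, if_neg (fun h => hd (Nat.dvd_of_mul_dvd_mul_left hr h)), mul_zero]
      · rw [if_neg hrn]
        refine Finset.sum_eq_zero fun d _ => ?_
        rw [if_neg (fun h => hrn (dvd_trans (dvd_mul_right r d) h)), mul_zero]
    obtain ⟨F, hF⟩ : ∃ F : ℕ → ℝ, F = fun d => if d ∣ n then a (n / d) else 0 := ⟨_, rfl⟩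
    have hcv : ∀ (E : Finset ℕ) (ν : ℕ → ℝ), cv E ν a n = ∑ d ∈ E, ν d * F d := by
      intro E ν
      unfold cv
      refine Finset.sum_congr rfl fun d _ => ?_
      rw [hF]
      simp only
      split_ifs <;> simp
    have hsub : ∀ (E G : Finset ℕ) (ν : ℕ → ℝ), E ⊆ G →
        (∑ d ∈ G, (if d ∈ E then ν d else 0) * F d) = ∑ d ∈ E, ν d * F d := by
      intro E G ν hEG
      rw [← Finset.sum_subset hEG (fun x _ hx => by rw [if_neg hx, zero_mul])]
      exact Finset.sum_congr rfl fun d hd => by rw [if_pos hd]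
    rw [hcv, hcv]
    have h1 := hsub D (D ∪ D1 ∪ D2) μ
      (Finset.subset_union_left.trans Finset.subset_union_left)
    have h2 := hsub D1 (D ∪ D1 ∪ D2) (fun d => μ (d / p))
      (Finset.subset_union_right.trans Finset.subset_union_left)
    have h3 := hsub D2 (D ∪ D1 ∪ D2) (fun d => μ (d / p ^ 2)) Finset.subset_union_right
    have h4 := hsh p hp
    have h5 := hsh (p ^ 2) hp2
    rw [← hD1] at h4
    rw [← hD2] at h5
    rw [← h4, ← h5, ← h1]
    have h2' : ∑ d ∈ D1, μ (d / p) * (if d ∣ n then a (n / d) else 0) =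
        ∑ d ∈ D ∪ D1 ∪ D2, (if d ∈ D1 then μ (d / p) else 0) * F d := by
      rw [h2, hF]
    have h3' : ∑ d ∈ D2, μ (d / p ^ 2) * (if d ∣ n then a (n / d) else 0) =
        ∑ d ∈ D ∪ D1 ∪ D2, (if d ∈ D2 then μ (d / p ^ 2) else 0) * F d := by
      rw [h3, hF]
    rw [h2', h3', Finset.mul_sum, Finset.mul_sum, ← Finset.sum_sub_distrib,
      ← Finset.sum_add_distrib]
    refine Finset.sum_congr rfl fun d _ => ?_
    ring

open Classical in
/-- The coefficients supported on the numbers without prime factors in `S`. -/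
noncomputable def bR (a : ℕ → ℝ) (S : Finset ℕ) (m : ℕ) : ℝ := if ∃ p ∈ S, p ∣ m then 0 else a m

end W3283z
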