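import Pool.Agent.W_3283e1_zd.MolA
import Pool.Agent.W_3283e1_zd.MolB

set_option autoImplicit false

/-! Finite Euler products as Dirichlet polynomials. -/

namespace W3283z

/-- Removing the multiples of the primes in `S`. -/
theorem cv_sieve (a : ℕ → ℝ) (ha0 : a 0 = 0)
    (hr : ∀ p : ℕ, p.Prime → ∃ A q : ℝ, RecAt a p A q) (S : Finset ℕ)
    (hS : ∀ p ∈ S, p.Prime) : ∃ (D : Finset ℕ) (μ : ℕ → ℝ), (∀ d ∈ D, 0 < d) ∧
      ∀ n : ℕ, cv D μ a n = bR a S n := by
  classical
  induction S using Finset.induction_on with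
  | empty =>
    refine ⟨{1}, fun _ => 1, by simp, fun n => ?_⟩
    unfold cv bR
    simp
  | insert p S hpS ih =>
    obtain ⟨D, μ, hD, hcv⟩ := ih (fun r hr' => hS r (Finset.mem_insert_of_mem hr'))
    have hp : p.Prime := hS p (Finset.mem_insert_self p S)
    obtain ⟨A, q, h1, h2⟩ := hr p hp
    obtain ⟨D', μ', hD', hcv'⟩ := cv_step a D μ hD p hp.pos A q
    refine ⟨D', μ', hD', fun n => ?_⟩
    rw [hcv']
    simp only [hcv]
    have hS' : ∀ r ∈ S, r.Prime := fun r hr' => hS r (Finset.mem_insert_of_mem hr')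
    -- divisibility by the primes of `S` is not changed by factors `p`
    have hdv : ∀ m : ℕ, (∃ r ∈ S, r ∣ p * m) ↔ ∃ r ∈ S, r ∣ m := by
      intro m
      constructor
      · rintro ⟨r, hrS, hrm⟩
        refine ⟨r, hrS, ?_⟩
        rcases (Nat.Prime.dvd_mul (hS' r hrS)).1 hrm with h | h
        · exfalso
          rw [Nat.prime_dvd_prime_iff_eq (hS' r hrS) hp] at h
          exact hpS (h ▸ hrS)
        · exact h
      · rintro ⟨r, hrS, hrm⟩
        exact ⟨r, hrS, dvd_mul_of_dvd_right hrm p⟩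
    have hb0 : bR a S 0 = 0 := by
      unfold bR
      split_ifs
      · rfl
      · exact ha0
    have hbp : ∀ m : ℕ, bR a S (p * m) = if ∃ r ∈ S, r ∣ m then 0 else a (p * m) := by
      intro m
      unfold bR
      simp only [hdv]
    by_cases hpn : p ∣ n
    · have hz : bR a (insert p S) n = 0 := by
        unfold bR
        rw [if_pos ⟨p, Finset.mem_insert_self p S, hpn⟩]
      rw [hz, if_pos hpn]
      obtain ⟨k, rfl⟩ := hpn
      rw [Nat.mul_div_cancel_left k hp.pos]
      by_cases hpk : p ∣ k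
      · obtain ⟨m, rfl⟩ := hpk
        have e1 : p * (p * m) = p ^ 2 * m := by ring
        rw [if_pos (by rw [e1]; exact dvd_mul_right _ _), hbp, hbp, e1,
          Nat.mul_div_cancel_left m (pow_pos hp.pos 2), h1 m]
        have hx : (∃ r ∈ S, r ∣ p * m) ↔ ∃ r ∈ S, r ∣ m := hdv m
        unfold bR
        simp only [hx]
        split_ifs
        · ring
        · ring
      · rw [if_neg (fun h => hpk (by
          rw [pow_two] at h
          exact Nat.dvd_of_mul_dvd_mul_left hp.pos h)), hbp]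
        unfold bR
        rw [h2 k hpk]
        split_ifs
        · ring
        · ring
    · have hpn2 : ¬ p ^ 2 ∣ n := fun h => hpn (dvd_trans (dvd_pow_self p two_ne_zero) h)
      rw [if_neg hpn, if_neg hpn2]
      have hx : (∃ r ∈ insert p S, r ∣ n) ↔ ∃ r ∈ S, r ∣ n := by
        constructor
        · rintro ⟨r, hrS, hrn⟩
          rcases Finset.mem_insert.1 hrS with h | h
          · exact absurd (h ▸ hrn) hpn
          · exact ⟨r, h, hrn⟩
        · rintro ⟨r, hrS, hrn⟩
          exact ⟨r, Finset.mem_insert_of_mem hrS, hrn⟩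
      unfold bR
      simp only [hx]
      ring

/-- The mollifiers. -/
theorem mol_exists (a : ℕ → ℝ) (ha0 : a 0 = 0) (ha1 : a 1 = 1)
    (hr : ∀ p : ℕ, p.Prime → ∃ A q : ℝ, RecAt a p A q) (z : ℕ) :
    ∃ (D : Finset ℕ) (μ : ℕ → ℝ), (∀ d ∈ D, 0 < d) ∧ cv D μ a 1 = 1 ∧
      (∀ n : ℕ, 1 < n → n ≤ z → cv D μ a n = 0) ∧ ∀ n : ℕ, |cv D μ a n| ≤ |a n| := by
  obtain ⟨D, μ, hD, hcv⟩ := cv_sieve a ha0 hr ((Finset.range (z + 1)).filter Nat.Prime)
    (fun p hp => (Finset.mem_filter.1 hp).2)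
  refine ⟨D, μ, hD, ?_, ?_, ?_⟩
  · rw [hcv]
    unfold bR
    rw [if_neg, ha1]
    rintro ⟨p, hp, hp1⟩
    exact (Finset.mem_filter.1 hp).2.one_lt.ne' (Nat.dvd_one.1 hp1)
  · intro n hn hnz
    rw [hcv]
    unfold bR
    rw [if_pos]
    refine ⟨n.minFac, ?_, Nat.minFac_dvd n⟩
    rw [Finset.mem_filter, Finset.mem_range]
    refine ⟨?_, Nat.minFac_prime (by omega)⟩
    have := Nat.minFac_le (n := n) (by omega)
    omega
  · intro n
    rw [hcv]
    unfold bR
    split_ifs
    · rw [abs_zero]; exact abs_nonneg _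
    · exact le_rfl

end W3283z
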