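import Pool.Agent.W_3283e1_zd.ZDef
import Pool.Agent.W_3283e1_zd.MolC
import Pool.Agent.W_fd120a_h34.Div

set_option autoImplicit false

/-! The second moment. -/

namespace W3283z

open Complex W3283e1 W3283f

theorem card_mul (m n : ℕ) (h : Nat.Coprime m n) :
    ((prF (m * n)).card : ℂ) = (prF m).card * (prF n).card := by
  rw [← cc_card, ← cc_card, ← cc_card]
  exact cc_mul 0 m n h

theorem card_ppow (p : ℕ) (hp : p.Prime) (e : ℕ) : (prF (p ^ e)).card ≤ e + 1 := by
  have h0 : (prF (p ^ 0)).card = 1 := by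
    have : ((prF (p ^ 0)).card : ℂ) = 1 := by rw [← cc_card, pow_zero, cc_one]
    exact_mod_cast this
  by_cases hp2 : p = 2
  · subst hp2
    rcases Nat.eq_zero_or_pos e with he | he
    · subst he; rw [h0]
    · have : ((prF (2 ^ e)).card : ℂ) = 0 := by
        rw [← cc_card]
        exact cc_even 0 _ (by
          obtain ⟨k, rfl⟩ := Nat.exists_eq_succ_of_ne_zero he.ne'
          exact ⟨2 ^ k, by rw [pow_succ]; ring⟩)
      have h1 : (prF (2 ^ e)).card = 0 := by exact_mod_cast this
      omega
  · have hodd : p % 2 = 1 := hp.eq_two_or_odd.resolve_left hp2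
    have h4 : p % 4 = 1 ∨ p % 4 = 3 := by omega
    rcases h4 with h4 | h4
    · have h1 : (prF (p ^ 1)).card = 2 := by
        have : ((prF (p ^ 1)).card : ℂ) = 2 := by
          rw [← cc_card, pow_one, cc_p1 0 p hp h4 (zp p) (zp_mem p hp h4)]
          norm_num
        exact_mod_cast this
      have hrec : ∀ e : ℕ, ((prF (p ^ (e + 2))).card : ℂ) =
          2 * (prF (p ^ (e + 1))).card - (prF (p ^ e)).card := by
        intro e
        rw [← cc_card, ← cc_card, ← cc_card, cc_p1_rec 0 p e hp h4 (zp p) (zp_mem p hp h4)]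
        norm_num
      have key : ∀ e : ℕ, (prF (p ^ e)).card = e + 1 ∧ (prF (p ^ (e + 1))).card = e + 2 := by
        intro e
        induction e with
        | zero => exact ⟨h0, h1⟩
        | succ e ih =>
          refine ⟨ih.2, ?_⟩
          have h := hrec e
          rw [ih.1, ih.2] at h
          have h' : ((prF (p ^ (e + 2))).card : ℂ) = ((e + 3 : ℕ) : ℂ) := by
            rw [h]; push_cast; ring
          have h'' : (prF (p ^ (e + 2))).card = e + 3 := by exact_mod_cast h'
          rw [show e + 1 + 1 = e + 2 by ring, h'']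
      exact (key e).1.le
    · have h1 : (prF (p ^ 1)).card = 0 := by
        have : ((prF (p ^ 1)).card : ℂ) = 0 := by
          rw [← cc_card, pow_one, cc_p3 0 p hp h4]
        exact_mod_cast this
      have hrec : ∀ e : ℕ, (prF (p ^ (e + 2))).card = (prF (p ^ e)).card := by
        intro e
        have : ((prF (p ^ (e + 2))).card : ℂ) = (prF (p ^ e)).card := by
          rw [← cc_card, ← cc_card, cc_p3_rec 0 p e hp h4]
          norm_num
        exact_mod_cast this
      have key : ∀ e : ℕ, (prF (p ^ e)).card ≤ 1 ∧ (prF (p ^ (e + 1))).card ≤ 1 := by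
        intro e
        induction e with
        | zero => exact ⟨h0.le, by rw [zero_add, h1]; norm_num⟩
        | succ e ih =>
          refine ⟨ih.2, ?_⟩
          rw [show e + 1 + 1 = e + 2 by ring, hrec e]
          exact ih.1
      exact (key e).1.trans (by omega)

/-- The number of primary elements is at most the number of divisors. -/
theorem card_div (m : ℕ) (hm : m ≠ 0) : (prF m).card ≤ m.divisors.card := by
  induction m using Nat.recOnPosPrimePosCoprime with
  | prime_pow p e hp he =>
    rw [Nat.divisors_prime_pow hp, Finset.card_map, Finset.card_range]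
    exact card_ppow p hp e
  | zero => exact absurd rfl hm
  | one =>
    have : ((prF 1).card : ℂ) = 1 := by rw [← cc_card, cc_one]
    have h1 : (prF 1).card = 1 := by exact_mod_cast this
    rw [h1]; simp
  | coprime a b ha hb hab iha ihb =>
    have h1 : (prF (a * b)).card = (prF a).card * (prF b).card := by
      exact_mod_cast card_mul a b hab
    rw [h1, Nat.Coprime.card_divisors_mul hab]
    exact Nat.mul_le_mul (iha (by omega)) (ihb (by omega))

/-- Bound of the coefficients. -/
theorem aFam_le (n j : ℕ) (η : ℝ) (hη : 0 < η) : ∃ C : ℝ, 0 < C ∧ ∀ m : ℕ,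
    |aFam n j m| ≤ C * (m : ℝ) ^ (1 / 2 + η) := by
  obtain ⟨C, hC, h⟩ := FD120.divisor_bound η hη
  refine ⟨C, hC, fun m => ?_⟩
  by_cases hm : m = 0
  · subst hm
    rw [aFam_zero, abs_zero]
    positivity
  · have hm' : 0 < (m : ℝ) := by exact_mod_cast Nat.pos_of_ne_zero hm
    have h1 : |aFam n j m| ≤ ‖cc 1 m‖ := by
      have := aFam_norm_le n j m
      rwa [Complex.norm_real, Real.norm_eq_abs] at this
    have h2 := norm_cc_le 1 m
    have h3 : ((prF m).card : ℝ) ≤ C * (m : ℝ) ^ η := by
      refine le_trans ?_ (h m (Nat.pos_of_ne_zero hm))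
      exact_mod_cast card_div m hm
    calc |aFam n j m| ≤ ((prF m).card : ℝ) * (m : ℝ) ^ (((1 : ℕ) : ℝ) / 2) := h1.trans h2
      _ ≤ (C * (m : ℝ) ^ η) * (m : ℝ) ^ (((1 : ℕ) : ℝ) / 2) := by gcongr
      _ = C * (m : ℝ) ^ (1 / 2 + η) := by
        rw [Real.rpow_add hm']
        push_cast
        ring

/-- Mollifiers and second moment of the family. -/
theorem mol_fam (n j : ℕ) : Mol (aFam n j) where
  mol := mol_exists (aFam n j) (aFam_zero n j) (aFam_one n j) (recAt_fam n j)
  sq := by
    intro σ hσ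
    obtain ⟨η, hη⟩ : ∃ η : ℝ, η = (σ - 1) / 2 := ⟨_, rfl⟩
    have hη0 : 0 < η := by rw [hη]; linarith
    obtain ⟨C, hC, h⟩ := aFam_le n j η hη0
    have hs : Summable (fun m : ℕ => C ^ 2 * (m : ℝ) ^ (-σ)) :=
      (Real.summable_nat_rpow.2 (by linarith)).mul_left _
    refine Summable.of_nonneg_of_le (fun m => by positivity) (fun m => ?_) hs
    by_cases hm : m = 0
    · subst hm
      rw [aFam_zero]
      have : (0 : ℝ) ≤ C ^ 2 * ((0 : ℕ) : ℝ) ^ (-σ) := by positivity
      simpa using this
    · have hm' : 0 < (m : ℝ) := by exact_mod_cast Nat.pos_of_ne_zero hm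
      have h1 : (aFam n j m) ^ 2 ≤ (C * (m : ℝ) ^ (1 / 2 + η)) ^ 2 := by
        rw [← sq_abs]
        exact pow_le_pow_left₀ (abs_nonneg _) (h m) 2
      calc (aFam n j m) ^ 2 * (m : ℝ) ^ (-(2 * σ))
          ≤ (C * (m : ℝ) ^ (1 / 2 + η)) ^ 2 * (m : ℝ) ^ (-(2 * σ)) := by gcongr
        _ = C ^ 2 * ((m : ℝ) ^ (1 / 2 + η) * (m : ℝ) ^ (1 / 2 + η) * (m : ℝ) ^ (-(2 * σ))) := by
          ring
        _ = C ^ 2 * (m : ℝ) ^ (-σ) := by
          rw [← Real.rpow_add hm', ← Real.rpow_add hm']
          congr 2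
          rw [hη]
          ring

end W3283z
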