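import Pool.Agent.W_3283e1_lw.Dig

set_option autoImplicit false

namespace W3283z

open Complex MeasureTheory Filter Topology

/-- `|Γ(1+it)|² = πt/sinh(πt) ≥ 2πt e^{-πt}` for `t > 0` (reflection formula). -/
theorem gam_one (t : ℝ) (ht : 0 < t) :
    2 * Real.pi * t * Real.exp (-(Real.pi * t)) ≤ ‖Complex.Gamma (1 + t * I)‖ ^ 2 := by
  have h1 : Complex.Gamma (1 + t * I) = (t * I) * Complex.Gamma (t * I) := by
    rw [add_comm]
    apply Complex.Gamma_add_one
    intro h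
    have := congrArg Complex.im h
    simp at this
    linarith
  have h2 : ‖Complex.Gamma (1 - t * I)‖ = ‖Complex.Gamma (1 + t * I)‖ := by
    have h3 : (1 - t * I : ℂ) = (starRingEnd ℂ) (1 + t * I) := by
      simp [sub_eq_add_neg]
    rw [h3, Complex.Gamma_conj, Complex.norm_conj]
  have h3 := Complex.Gamma_mul_Gamma_one_sub (t * I)
  have h4 : (Real.pi : ℂ) * (t * I) = ((Real.pi * t : ℝ) : ℂ) * I := by
    push_cast
    ring
  rw [h4, Complex.sin_mul_I] at h3
  have hpt : 0 < Real.pi * t := by positivity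
  have hsinh : 0 < Real.sinh (Real.pi * t) := Real.sinh_pos_iff.2 hpt
  have h5 : ‖Complex.Gamma (1 + t * I)‖ ^ 2 = Real.pi * t / Real.sinh (Real.pi * t) := by
    have h6 : ‖Complex.Gamma (1 + t * I)‖ ^ 2 =
        ‖(t * I : ℂ) * (Complex.Gamma (t * I) * Complex.Gamma (1 - t * I))‖ := by
      rw [← mul_assoc, ← h1, norm_mul, h2, sq]
    rw [h6, h3, norm_mul, norm_mul, norm_div, norm_mul, Complex.norm_I, mul_one, mul_one,
      ← Complex.ofReal_sinh, Complex.norm_real, Complex.norm_real, Complex.norm_real,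
      Real.norm_of_nonneg ht.le, Real.norm_of_nonneg Real.pi_pos.le, Real.norm_of_nonneg hsinh.le]
    ring
  rw [h5, le_div_iff₀ hsinh]
  have h6 : Real.sinh (Real.pi * t) ≤ Real.exp (Real.pi * t) / 2 := by
    rw [Real.sinh_eq]
    have := Real.exp_pos (-(Real.pi * t))
    linarith
  have h7 : 0 ≤ 2 * Real.pi * t * Real.exp (-(Real.pi * t)) := by positivity
  calc 2 * Real.pi * t * Real.exp (-(Real.pi * t)) * Real.sinh (Real.pi * t)
      ≤ 2 * Real.pi * t * Real.exp (-(Real.pi * t)) * (Real.exp (Real.pi * t) / 2) :=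
        mul_le_mul_of_nonneg_left h6 h7
    _ = Real.pi * t * (Real.exp (-(Real.pi * t)) * Real.exp (Real.pi * t)) := by ring
    _ = Real.pi * t := by rw [← Real.exp_add, neg_add_cancel, Real.exp_zero, mul_one]

theorem ZGam_sum (s : ℂ) (hs : 0 < s.re) :
    HasSum (fun n : ℕ => 1 / ((n : ℂ) + 1) - 1 / ((n : ℂ) + 1 + s))
      (Complex.digamma (1 + s) + Real.eulerMascheroniConstant) := by
  have h1 := (W3283l.Dig_terms s hs).mul_left s
  rw [W3283l.dig_int s hs] at h1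
  refine h1.congr_fun fun n => ?_
  have h2 : (n : ℂ) + 1 ≠ 0 := by exact_mod_cast n.succ_ne_zero
  have h3 : (n : ℂ) + 1 + s ≠ 0 := by
    intro h
    have h4 := congrArg Complex.re h
    simp only [Complex.add_re, Complex.natCast_re, Complex.one_re, Complex.zero_re] at h4
    have : (0 : ℝ) ≤ n := Nat.cast_nonneg n
    linarith
  field_simp
  ring

theorem ZGam_re (x t : ℝ) (n : ℕ) :
    (1 / ((n : ℂ) + 1) - 1 / ((n : ℂ) + 1 + (x + t * I))).re =
      1 / ((n : ℝ) + 1) - ((n : ℝ) + 1 + x) / (((n : ℝ) + 1 + x) ^ 2 + t ^ 2) := by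
  have h1 : (1 : ℂ) / ((n : ℂ) + 1) = ((1 / ((n : ℝ) + 1) : ℝ) : ℂ) := by push_cast; rfl
  have h2 : (n : ℂ) + 1 + (x + t * I) = (((n : ℝ) + 1 + x : ℝ) : ℂ) + ((t : ℝ) : ℂ) * I := by
    push_cast
    ring
  rw [h1, h2, Complex.sub_re, Complex.ofReal_re,
    one_div ((((n : ℝ) + 1 + x : ℝ) : ℂ) + ((t : ℝ) : ℂ) * I), Complex.inv_re,
    Complex.normSq_add_mul_I]
  simp

/-- `Re ψ(x+it) ≥ log t - C` for `1 ≤ x ≤ 3`, `t ≥ 1`: `ψ(1+s) + γ = Σ_{n≥1} (1/n - 1/(n+s))` (module `Dig` of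
W_3283e1_lw has this series), `Re 1/(n+s) = (n+x)/((n+x)²+t²)` is at most `(n+x)/t²` for `n ≤ t` and at most
`1/n` for all `n`. -/
theorem dig_low : ∃ C : ℝ, ∀ x t : ℝ, 1 ≤ x → x ≤ 3 → 1 ≤ t →
    Real.log t - C ≤ (Complex.digamma (x + t * I)).re := by
  refine ⟨6, fun x t hx hx3 ht => ?_⟩
  have ht0 : 0 < t := by linarith
  set z : ℂ := x + t * I with hz
  have hzre : z.re = x := by simp [hz]
  have hzim : z.im = t := by simp [hz]
  have hzpos : 0 < z.re := by rw [hzre]; linarith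
  have h1 := Complex.digamma_apply_add_one z (W3283l.Dig_ne' z hzpos)
  have h2 : (Complex.digamma z).re = (Complex.digamma (1 + z)).re - (z⁻¹).re := by
    rw [add_comm 1 z, h1, Complex.add_re]
    ring
  have h3 : (z⁻¹).re ≤ 1 := by
    refine (Complex.re_le_norm _).trans ?_
    rw [norm_inv]
    apply inv_le_one_of_one_le₀
    calc (1 : ℝ) ≤ x := hx
      _ = z.re := hzre.symm
      _ ≤ ‖z‖ := Complex.re_le_norm z
  have hsum := Complex.hasSum_re (ZGam_sum z hzpos)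
  rw [Complex.add_re, Complex.ofReal_re] at hsum
  have hterm : ∀ n : ℕ, (1 / ((n : ℂ) + 1) - 1 / ((n : ℂ) + 1 + z)).re =
      1 / ((n : ℝ) + 1) - ((n : ℝ) + 1 + x) / (((n : ℝ) + 1 + x) ^ 2 + t ^ 2) := fun n =>
    ZGam_re x t n
  have hnn : ∀ n : ℕ, 0 ≤ (1 / ((n : ℂ) + 1) - 1 / ((n : ℂ) + 1 + z)).re := by
    intro n
    rw [hterm n, sub_nonneg]
    have hn : (0 : ℝ) ≤ n := Nat.cast_nonneg n
    rw [div_le_div_iff₀ (by positivity) (by positivity)]
    nlinarith [sq_nonneg t]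
  have h4 := sum_le_hasSum (Finset.range ⌊t⌋₊) (fun n _ => hnn n) hsum
  have h5 : Real.log t - 4 ≤ ∑ n ∈ Finset.range ⌊t⌋₊,
      (1 / ((n : ℂ) + 1) - 1 / ((n : ℂ) + 1 + z)).re := by
    rw [Finset.sum_congr rfl fun n _ => hterm n, Finset.sum_sub_distrib]
    have h6 : Real.log t ≤ ∑ n ∈ Finset.range ⌊t⌋₊, 1 / ((n : ℝ) + 1) := by
      have h7 := log_add_one_le_harmonic ⌊t⌋₊
      have h8 : ((harmonic ⌊t⌋₊ : ℚ) : ℝ) = ∑ n ∈ Finset.range ⌊t⌋₊, 1 / ((n : ℝ) + 1) := by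
        unfold harmonic
        push_cast
        exact Finset.sum_congr rfl fun n _ => (one_div _).symm
      rw [← h8]
      refine le_trans (Real.log_le_log ht0 ?_) h7
      push_cast
      exact (Nat.lt_floor_add_one t).le
    have h9 : ∑ n ∈ Finset.range ⌊t⌋₊, ((n : ℝ) + 1 + x) / (((n : ℝ) + 1 + x) ^ 2 + t ^ 2) ≤ 4 := by
      have hfl : (⌊t⌋₊ : ℝ) ≤ t := Nat.floor_le ht0.le
      calc ∑ n ∈ Finset.range ⌊t⌋₊, ((n : ℝ) + 1 + x) / (((n : ℝ) + 1 + x) ^ 2 + t ^ 2)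
          ≤ ∑ n ∈ Finset.range ⌊t⌋₊, (t + 3) / t ^ 2 := by
            refine Finset.sum_le_sum fun n hn => ?_
            have hn1 : n + 1 ≤ ⌊t⌋₊ := Finset.mem_range.1 hn
            have hn2 : ((n : ℝ) + 1) ≤ ⌊t⌋₊ := by exact_mod_cast hn1
            have hn0 : (0 : ℝ) ≤ n := Nat.cast_nonneg n
            have ha : (n : ℝ) + 1 + x ≤ t + 3 := by linarith
            have hb : t ^ 2 ≤ ((n : ℝ) + 1 + x) ^ 2 + t ^ 2 := by
              have := sq_nonneg ((n : ℝ) + 1 + x)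
              linarith
            exact div_le_div₀ (by positivity) ha (by positivity) hb
        _ = ⌊t⌋₊ * ((t + 3) / t ^ 2) := by rw [Finset.sum_const, Finset.card_range, nsmul_eq_mul]
        _ ≤ t * ((t + 3) / t ^ 2) := mul_le_mul_of_nonneg_right hfl (by positivity)
        _ ≤ 4 := by
          rw [← mul_div_assoc, div_le_iff₀ (by positivity)]
          nlinarith
    linarith
  have h6 := Real.eulerMascheroniConstant_lt_two_thirds
  linarith

/-- `|Γ(σ+it)|² ≥ c t^{2σ-1} e^{-πt}` for `1 ≤ σ ≤ 3`, `t ≥ 1`: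
`log |Γ(σ+it)| - log |Γ(1+it)| = ∫_1^σ Re ψ(x+it) dx ≥ (σ - 1)(log t - C)`. -/
theorem gam_low : ∃ c : ℝ, 0 < c ∧ ∀ σ t : ℝ, 1 ≤ σ → σ ≤ 3 → 1 ≤ t →
    c * t ^ (2 * σ - 1) * Real.exp (-(Real.pi * t)) ≤ ‖Complex.Gamma (σ + t * I)‖ ^ 2 := by
  obtain ⟨C, hC⟩ := dig_low
  refine ⟨2 * Real.pi * Real.exp (-(4 * |C|)), by positivity, fun σ t hσ hσ3 ht => ?_⟩
  have ht0 : 0 < t := by linarith
  set f : ℝ → ℂ := fun x => Complex.Gamma (x + t * I) with hf
  have hre : ∀ x : ℝ, ((x : ℂ) + t * I).re = x := fun x => by simp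
  have hne : ∀ x : ℝ, 1 ≤ x → f x ≠ 0 := fun x hx =>
    Complex.Gamma_ne_zero_of_re_pos (by rw [hre]; linarith)
  have hd : ∀ x : ℝ, 1 ≤ x → HasDerivAt f (deriv Complex.Gamma (x + t * I)) x := by
    intro x hx
    have h1 : HasDerivAt Complex.Gamma (deriv Complex.Gamma (x + t * I)) (x + t * I) :=
      (Complex.differentiableAt_Gamma _ (W3283l.Dig_ne' _ (by rw [hre]; linarith))).hasDerivAt
    have h2 : HasDerivAt (fun y : ℝ => ((y : ℂ) + t * I)) 1 x :=
      (Complex.ofRealCLM.hasDerivAt (x := x)).add_const _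
    have h3 := h1.comp x h2
    rw [mul_one] at h3
    exact h3
  have hlog : ∀ x : ℝ, 1 ≤ x → HasDerivAt (fun y => Real.log (‖f y‖ ^ 2) -
      2 * (Real.log t - C) * y)
      (2 * (Complex.digamma (x + t * I)).re - 2 * (Real.log t - C)) x := by
    intro x hx
    have h0 : 0 < ‖f x‖ ^ 2 := by
      have := norm_pos_iff.2 (hne x hx)
      positivity
    have h1 := ((hd x hx).norm_sq).log h0.ne'
    have h2 : HasDerivAt (fun y : ℝ => 2 * (Real.log t - C) * y) (2 * (Real.log t - C)) x := by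
      simpa using (hasDerivAt_id x).const_mul (2 * (Real.log t - C))
    refine (h1.sub h2).congr_deriv ?_
    congr 1
    have h3 : Complex.digamma (x + t * I) = deriv Complex.Gamma (x + t * I) / f x := by
      rw [Complex.digamma_def, logDeriv_apply]
    rw [h3, Complex.div_re, Complex.inner, ← Complex.sq_norm]
    simp only [Complex.mul_re, Complex.conj_re, Complex.conj_im]
    field_simp
    ring
  have hmono : MonotoneOn (fun y => Real.log (‖f y‖ ^ 2) - 2 * (Real.log t - C) * y)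
      (Set.Icc 1 σ) := by
    apply monotoneOn_of_deriv_nonneg (convex_Icc 1 σ)
    · exact fun x hx => (hlog x hx.1).continuousAt.continuousWithinAt
    · intro x hx
      rw [interior_Icc] at hx
      exact (hlog x hx.1.le).differentiableAt.differentiableWithinAt
    · intro x hx
      rw [interior_Icc] at hx
      rw [(hlog x hx.1.le).deriv]
      have := hC x t hx.1.le (by linarith [hx.2]) ht
      linarith
  have h1 := hmono (Set.left_mem_Icc.2 hσ) (Set.right_mem_Icc.2 hσ) hσ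
  simp only [mul_one] at h1
  have h2 := gam_one t ht0
  have hf1 : f 1 = Complex.Gamma (1 + t * I) := by simp [hf]
  have hpos1 : 0 < ‖f 1‖ ^ 2 := by
    have := norm_pos_iff.2 (hne 1 le_rfl)
    positivity
  have hposσ : 0 < ‖f σ‖ ^ 2 := by
    have := norm_pos_iff.2 (hne σ hσ)
    positivity
  rw [← hf1] at h2
  have h3 : Real.log (‖f 1‖ ^ 2) + 2 * (σ - 1) * (Real.log t - C) ≤ Real.log (‖f σ‖ ^ 2) := by
    linarith
  have h4 := Real.exp_le_exp.2 h3
  rw [Real.exp_add, Real.exp_log hpos1, Real.exp_log hposσ] at h4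
  refine le_trans ?_ h4
  have h5 : Real.exp (-(4 * |C|)) * t ^ (2 * σ - 2) ≤
      Real.exp (2 * (σ - 1) * (Real.log t - C)) := by
    rw [Real.rpow_def_of_pos ht0, ← Real.exp_add]
    apply Real.exp_le_exp.2
    have h6 : 2 * (σ - 1) * C ≤ 4 * |C| := by
      calc 2 * (σ - 1) * C ≤ 2 * (σ - 1) * |C| :=
            mul_le_mul_of_nonneg_left (le_abs_self C) (by linarith)
        _ ≤ 4 * |C| := mul_le_mul_of_nonneg_right (by linarith) (abs_nonneg C)
    linarith
  have h7 : t ^ (2 * σ - 1) = t * t ^ (2 * σ - 2) := by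
    have : 2 * σ - 1 = 1 + (2 * σ - 2) := by ring
    rw [this, Real.rpow_add ht0, Real.rpow_one]
  calc 2 * Real.pi * Real.exp (-(4 * |C|)) * t ^ (2 * σ - 1) * Real.exp (-(Real.pi * t))
      = (2 * Real.pi * t * Real.exp (-(Real.pi * t))) *
        (Real.exp (-(4 * |C|)) * t ^ (2 * σ - 2)) := by
        rw [h7]
        ring
    _ ≤ ‖f 1‖ ^ 2 * Real.exp (2 * (σ - 1) * (Real.log t - C)) :=
        mul_le_mul h2 h5 (by positivity) hpos1.le

end W3283z
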