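import Pool.Agent.W_3283e1_h53.Pla

set_option autoImplicit false

namespace W3283z

open Complex MeasureTheory Filter Topology

/-- Plancherel's inequality: `W3283g.schur_gau` and `δ → 0` (monotone convergence or Fatou). -/
theorem pla_ineq (w : ℝ → ℂ) (hw : Integrable w) :
    ∫⁻ u : ℝ, ‖∫ t : ℝ, w t * Complex.exp (u * t * I)‖ₑ ^ 2 ≤
      ENNReal.ofReal (2 * Real.pi) * ∫⁻ t : ℝ, ‖w t‖ₑ ^ 2 := by
  exact W3283g.schur w hw

/-- The substitution `y = e^x` in the Mellin transform. -/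
theorem ZPla_sub (f : ℝ → ℂ) (σ t x : ℝ) :
    |Real.exp x| • ((Real.exp x : ℂ) ^ ((σ : ℂ) + t * I - 1) • f (Real.exp x)) =
      (f (Real.exp x) * Complex.exp (σ * x)) * Complex.exp (t * x * I) := by
  have h0 : (Real.exp x : ℂ) ≠ 0 := by exact_mod_cast (Real.exp_pos x).ne'
  have h1 : (Real.exp x : ℂ) ^ ((σ : ℂ) + t * I - 1) =
      Complex.exp (x * ((σ : ℂ) + t * I - 1)) := by
    rw [Complex.cpow_def_of_ne_zero h0, ← Complex.ofReal_log (Real.exp_pos x).le, Real.log_exp]
  rw [h1, abs_of_pos (Real.exp_pos x), Complex.real_smul, smul_eq_mul, Complex.ofReal_exp,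
    ← mul_assoc, ← Complex.exp_add, mul_assoc (f (Real.exp x)), ← Complex.exp_add,
    mul_comm (f (Real.exp x))]
  congr 2
  ring

/-- Plancherel's inequality for Mellin transforms: `y = e^x`, `w x = f(e^x) e^{σx}`. -/
theorem pla_mellin (f : ℝ → ℂ) (σ : ℝ) (hf : MellinConvergent f (σ : ℂ)) :
    ∫⁻ t : ℝ, ‖mellin f ((σ : ℂ) + t * I)‖ₑ ^ 2 ≤
      ENNReal.ofReal (2 * Real.pi) *
        ∫⁻ y in Set.Ioi (0 : ℝ), ‖f y‖ₑ ^ 2 * ENNReal.ofReal (y ^ (2 * σ - 1)) := by
  have himg : Real.exp '' Set.univ = Set.Ioi 0 := by rw [Set.image_univ, Real.range_exp]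
  have hder : ∀ x ∈ Set.univ, HasDerivWithinAt Real.exp (Real.exp x) Set.univ x := fun x _ =>
    (Real.hasDerivAt_exp x).hasDerivWithinAt
  have hinj : Set.InjOn Real.exp Set.univ := Real.exp_injective.injOn
  set w : ℝ → ℂ := fun x => f (Real.exp x) * Complex.exp (σ * x) with hw
  have hm : ∀ t : ℝ, mellin f ((σ : ℂ) + t * I) = ∫ x : ℝ, w x * Complex.exp (t * x * I) := by
    intro t
    unfold mellin
    rw [← himg, integral_image_eq_integral_abs_deriv_smul MeasurableSet.univ hder hinj,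
      setIntegral_univ]
    exact integral_congr_ae (ae_of_all _ fun x => ZPla_sub f σ t x)
  have hwi : Integrable w := by
    unfold MellinConvergent at hf
    rw [← himg, integrableOn_image_iff_integrableOn_abs_deriv_smul MeasurableSet.univ hder hinj,
      integrableOn_univ] at hf
    refine hf.congr (ae_of_all _ fun x => ?_)
    have h1 := ZPla_sub f σ 0 x
    simp only [Complex.ofReal_zero, zero_mul, add_zero, Complex.exp_zero, mul_one] at h1
    exact h1
  have h2 := pla_ineq w hwi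
  simp only [hm]
  refine h2.trans (le_of_eq ?_)
  congr 1
  rw [← himg, lintegral_image_eq_lintegral_abs_deriv_mul MeasurableSet.univ hder hinj,
    Measure.restrict_univ]
  refine lintegral_congr fun x => ?_
  have h3 : Real.exp x ^ (2 * σ - 1) = Real.exp (x * (2 * σ - 1)) := (Real.exp_mul _ _).symm
  have h4 : ‖w x‖ₑ = ‖f (Real.exp x)‖ₑ * ENNReal.ofReal (Real.exp (σ * x)) := by
    rw [hw, enorm_mul]
    congr 1
    rw [← ofReal_norm, Complex.norm_exp]
    congr 2
    simp
  rw [h4, h3, mul_pow, ← ENNReal.ofReal_pow (Real.exp_pos _).le, abs_of_pos (Real.exp_pos x),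
    mul_left_comm, ← ENNReal.ofReal_mul (Real.exp_pos x).le, ← Real.exp_add, ← Real.exp_nat_mul]
  congr 3
  push_cast
  ring

end W3283z
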