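import Pool.Agent.W_3283e1_zd.ZThC

set_option autoImplicit false

namespace W3283z

open Complex W3283f MeasureTheory Filter Topology

theorem ZRot_re (y φ : ℝ) : ((y : ℂ) * ei φ).re = y * Real.cos φ := by
  unfold ei
  rw [Complex.re_ofReal_mul, Complex.exp_ofReal_mul_I_re]

theorem ZRot_cos {φ : ℝ} (hφ : |φ| < Real.pi / 2) : 0 < Real.cos φ :=
  Real.cos_pos_of_mem_Ioo ⟨by linarith [(abs_lt.1 hφ).1], (abs_lt.1 hφ).2⟩

theorem ZRot_norm (φ : ℝ) : ‖ei φ‖ = 1 := Complex.norm_exp_ofReal_mul_I φ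

theorem ZRot_ne (φ : ℝ) : ei φ ≠ 0 := Complex.exp_ne_zero _

theorem ZRot_cont (a : ℕ → ℝ) (κ ε : ℝ) (h : ThData a κ ε) (φ : ℝ) (hφ : |φ| < Real.pi / 2) :
    ContinuousOn (fun y : ℝ => ThC a κ (y * ei φ)) (Set.Ioi 0) := by
  have h1 := (thc_diff a κ ε h).continuousOn
  have h2 : ContinuousOn (fun y : ℝ => (y : ℂ) * ei φ) (Set.Ioi 0) := by fun_prop
  refine h1.comp h2 ?_
  intro y hy
  have hy' : 0 < y := hy
  show 0 < ((y : ℂ) * ei φ).re
  rw [ZRot_re]
  exact mul_pos hy' (ZRot_cos hφ)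

theorem ZRot_locInt (a : ℕ → ℝ) (κ ε : ℝ) (h : ThData a κ ε) (φ : ℝ) (hφ : |φ| < Real.pi / 2) :
    LocallyIntegrableOn (fun y : ℝ => ThC a κ (y * ei φ)) (Set.Ioi 0) :=
  (ZRot_cont a κ ε h φ hφ).locallyIntegrableOn measurableSet_Ioi

theorem ZRot_top (a : ℕ → ℝ) (κ ε : ℝ) (h : ThData a κ ε) (φ : ℝ) (hφ : |φ| < Real.pi / 2)
    (b : ℝ) : (fun y : ℝ => ThC a κ (y * ei φ)) =O[atTop] (fun y : ℝ => y ^ (-b)) := by
  obtain ⟨C, c, hC, hc, hb⟩ := thc_bd a κ ε h
  have hcos := ZRot_cos hφ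
  have h1 : (fun y : ℝ => Real.exp (-(c * Real.cos φ) * y)) =O[atTop] (fun y : ℝ => y ^ (-b)) :=
    (isLittleO_exp_neg_mul_rpow_atTop (mul_pos hc hcos) (-b)).isBigO
  refine Asymptotics.IsBigO.trans ?_ h1
  apply Asymptotics.IsBigO.of_bound (C * (Real.cos φ) ^ (-2 : ℝ))
  filter_upwards [eventually_ge_atTop (1 : ℝ)] with y hy
  have hy0 : 0 < y := by linarith
  have h2 := hb ((y : ℂ) * ei φ) (by rw [ZRot_re]; exact mul_pos hy0 hcos)
  rw [ZRot_re] at h2
  refine h2.trans ?_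
  rw [Real.norm_eq_abs, abs_of_pos (Real.exp_pos _)]
  have h3 : (y * Real.cos φ) ^ (-2 : ℝ) ≤ (Real.cos φ) ^ (-2 : ℝ) :=
    Real.rpow_le_rpow_of_nonpos hcos (by nlinarith) (by norm_num)
  have h4 : -(c * (y * Real.cos φ)) = -(c * Real.cos φ) * y := by ring
  rw [h4]
  exact mul_le_mul_of_nonneg_right (mul_le_mul_of_nonneg_left h3 hC.le) (Real.exp_pos _).le

theorem ZRot_bot (a : ℕ → ℝ) (κ ε : ℝ) (h : ThData a κ ε) (φ : ℝ) (hφ : |φ| < Real.pi / 2)
    (b : ℝ) : (fun y : ℝ => ThC a κ (y * ei φ)) =O[𝓝[>] 0] (fun y : ℝ => y ^ (-b)) := by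
  obtain ⟨C, c, hC, hc, hb⟩ := thc_bd a κ ε h
  have hcos := ZRot_cos hφ
  have h1 : (fun y : ℝ => Real.exp (-(c * Real.cos φ) * y⁻¹)) =O[𝓝[>] 0]
      (fun y : ℝ => (y⁻¹) ^ b) :=
    (isLittleO_exp_neg_mul_rpow_atTop (mul_pos hc hcos) b).isBigO.comp_tendsto
      tendsto_inv_nhdsGT_zero
  have h1' : (fun y : ℝ => Real.exp (-(c * Real.cos φ) * y⁻¹)) =O[𝓝[>] 0]
      (fun y : ℝ => y ^ (-b)) := by
    refine h1.congr' (EventuallyEq.refl _ _) ?_
    filter_upwards [self_mem_nhdsWithin] with y hy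
    have hy' : 0 < y := hy
    rw [Real.inv_rpow hy'.le, Real.rpow_neg hy'.le]
  refine Asymptotics.IsBigO.trans ?_ h1'
  apply Asymptotics.IsBigO.of_bound (C * (Real.cos φ) ^ (-2 : ℝ))
  filter_upwards [self_mem_nhdsWithin] with y hy
  have hy' : 0 < y := hy
  have hw0 : (y : ℂ) * ei φ ≠ 0 :=
    mul_ne_zero (by exact_mod_cast hy'.ne') (ZRot_ne φ)
  have hwn : ‖(y : ℂ) * ei φ‖ = y := by
    rw [norm_mul, ZRot_norm, mul_one, Complex.norm_real, Real.norm_of_nonneg hy'.le]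
  have hinv : (1 / ((y : ℂ) * ei φ)).re = Real.cos φ / y := by
    rw [one_div, Complex.inv_re, Complex.normSq_eq_norm_sq, hwn, ZRot_re]
    field_simp
  have hpos : 0 < (1 / ((y : ℂ) * ei φ)).re := by
    rw [hinv]
    positivity
  have h2 := thc_inv a κ ε h (1 / ((y : ℂ) * ei φ)) hpos
  rw [one_div_one_div] at h2
  have hε : ‖(ε : ℂ)‖ = 1 := by
    rcases h.eps with h | h <;> simp [h]
  have h3 := hb _ hpos
  rw [hinv] at h3
  rw [h2, norm_mul, norm_mul, norm_pow, hε, one_mul, norm_div, norm_one, hwn, Real.norm_eq_abs,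
    abs_of_pos (Real.exp_pos _)]
  have h4 : (Real.cos φ / y) ^ (-2 : ℝ) = (Real.cos φ) ^ (-2 : ℝ) * y ^ 2 := by
    rw [Real.div_rpow hcos.le hy'.le, Real.rpow_neg hy'.le 2, div_inv_eq_mul]
    congr 1
    exact_mod_cast Real.rpow_natCast y 2
  rw [h4] at h3
  have h5 : -(c * (Real.cos φ / y)) = -(c * Real.cos φ) * y⁻¹ := by
    rw [div_eq_mul_inv]
    ring
  rw [h5] at h3
  calc (1 / y) ^ 2 * ‖ThC a κ (1 / ((y : ℂ) * ei φ))‖ ≤
        (1 / y) ^ 2 * (C * ((Real.cos φ) ^ (-2 : ℝ) * y ^ 2) *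
          Real.exp (-(c * Real.cos φ) * y⁻¹)) := mul_le_mul_of_nonneg_left h3 (by positivity)
    _ = _ := by
        field_simp

/-- Decay of `Θ` on a ray at both ends (`thc_bd`, and `thc_inv` for small `y`:
`Θ(y e^{iφ}) = ε' (y e^{iφ})^{-2} Θ(y⁻¹ e^{-iφ})`), so the Mellin integral converges for all `s`. -/
theorem ray_conv (a : ℕ → ℝ) (κ ε : ℝ) (h : ThData a κ ε) (φ : ℝ) (hφ : |φ| < Real.pi / 2)
    (s : ℂ) : MellinConvergent (fun y : ℝ => ThC a κ (y * ei φ)) s := by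
  exact mellinConvergent_of_isBigO_rpow (ZRot_locInt a κ ε h φ hφ)
    (ZRot_top a κ ε h φ hφ (s.re + 1)) (by linarith) (ZRot_bot a κ ε h φ hφ (s.re - 1))
    (by linarith)

/-- Convergence of the Mellin integral of `e^{-ry}`. -/
theorem ZRot_econv (r s : ℂ) (hr : 0 < r.re) (hs : 0 < s.re) :
    MellinConvergent (fun y : ℝ => Complex.exp (-(r * y))) s := by
  have hc : Continuous (fun y : ℝ => Complex.exp (-(r * y))) := by fun_prop
  have hn : ∀ y : ℝ, ‖Complex.exp (-(r * y))‖ = Real.exp (-r.re * y) := by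
    intro y
    rw [Complex.norm_exp]
    congr 1
    simp
  refine mellinConvergent_of_isBigO_rpow_exp (a := r.re) (b := 0) hr
    (hc.continuousOn.locallyIntegrableOn measurableSet_Ioi) ?_ ?_ hs
  · apply Asymptotics.IsBigO.of_bound 1
    refine Eventually.of_forall fun y => ?_
    rw [hn, Real.norm_eq_abs, abs_of_pos (Real.exp_pos _), one_mul]
  · apply Asymptotics.IsBigO.of_bound 1
    filter_upwards [self_mem_nhdsWithin] with y hy
    have hy' : 0 < y := hy
    rw [hn, neg_zero, Real.rpow_zero, norm_one, mul_one, Real.exp_le_one_iff]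
    have := mul_pos hr hy'
    linarith

/-- Differentiability in `r`. -/
theorem ZRot_ediff (s : ℂ) (hs : 0 < s.re) : DifferentiableOn ℂ
    (fun r : ℂ => mellin (fun y : ℝ => Complex.exp (-(r * y))) s) {r : ℂ | 0 < r.re} := by
  intro r hr
  have hr' : 0 < r.re := hr
  have hb : 0 < r.re / 2 := by linarith
  have hnhds : {z : ℂ | r.re / 2 < z.re} ∈ 𝓝 r :=
    (isOpen_lt continuous_const Complex.continuous_re).mem_nhds (by
      show r.re / 2 < r.re
      linarith)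
  have hmeas : ∀ (c z : ℂ), AEStronglyMeasurable
      (fun y : ℝ => (y : ℂ) ^ c * Complex.exp (-(z * y))) (volume.restrict (Set.Ioi 0)) := by
    intro c z
    refine ContinuousOn.aestronglyMeasurable ?_ measurableSet_Ioi
    refine ContinuousOn.mul ?_ ?_
    · intro y hy
      have hy' : 0 < y := hy
      exact (Complex.continuousAt_ofReal_cpow_const y c (Or.inr hy'.ne')).continuousWithinAt
    · have : Continuous (fun y : ℝ => Complex.exp (-(z * y))) := by fun_prop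
      exact this.continuousOn
  have hnorm : ∀ (c z : ℂ) (y : ℝ), 0 < y →
      ‖(y : ℂ) ^ c * Complex.exp (-(z * y))‖ = y ^ c.re * Real.exp (-z.re * y) := by
    intro c z y hy
    rw [norm_mul, Complex.norm_cpow_eq_rpow_re_of_pos hy, Complex.norm_exp]
    congr 2
    simp
  have hdom : IntegrableOn (fun y : ℝ => y ^ s.re * Real.exp (-(r.re / 2) * y)) (Set.Ioi 0) := by
    have h1 := integrableOn_rpow_mul_exp_neg_mul_rpow (s := s.re) (p := 1) (b := r.re / 2)
      (by linarith) one_pos hb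
    refine h1.congr_fun (fun y _ => ?_) measurableSet_Ioi
    show y ^ s.re * Real.exp (-(r.re / 2) * y ^ (1 : ℝ)) = _
    rw [Real.rpow_one]
  have h := hasDerivAt_integral_of_dominated_loc_of_deriv_le
    (μ := volume.restrict (Set.Ioi (0 : ℝ)))
    (F := fun (z : ℂ) (y : ℝ) => (y : ℂ) ^ (s - 1) * Complex.exp (-(z * y)))
    (F' := fun (z : ℂ) (y : ℝ) => -((y : ℂ) ^ s * Complex.exp (-(z * y))))
    (bound := fun y : ℝ => y ^ s.re * Real.exp (-(r.re / 2) * y)) (x₀ := r) hnhds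
    (Eventually.of_forall fun z => hmeas (s - 1) z)
    (by
      have := ZRot_econv r s hr' hs
      exact this) (hmeas s r).neg ?_ hdom ?_
  · have h2 := h.2.differentiableAt
    refine h2.differentiableWithinAt.congr_of_eventuallyEq (Eventually.of_forall fun z => rfl) rfl
  · refine (ae_restrict_iff' measurableSet_Ioi).2 (Eventually.of_forall fun y hy z hz => ?_)
    have hy' : 0 < y := hy
    have hz' : r.re / 2 < z.re := hz
    rw [norm_neg, hnorm s z y hy']
    refine mul_le_mul_of_nonneg_left (Real.exp_le_exp.2 ?_) (Real.rpow_nonneg hy'.le _)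
    have := mul_le_mul_of_nonneg_right hz'.le hy'.le
    linarith
  · refine (ae_restrict_iff' measurableSet_Ioi).2 (Eventually.of_forall fun y hy z _ => ?_)
    have hy' : 0 < y := hy
    have h1 : HasDerivAt (fun z : ℂ => -(z * (y : ℂ))) (-(y : ℂ)) z := by
      have h0 := ((hasDerivAt_id z).mul_const (y : ℂ)).neg
      rw [one_mul] at h0
      exact h0
    have h2 := (h1.cexp).const_mul ((y : ℂ) ^ (s - 1))
    refine h2.congr_deriv ?_
    have hyc : (y : ℂ) ≠ 0 := by exact_mod_cast hy'.ne'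
    have h3 : (y : ℂ) ^ s = (y : ℂ) ^ (s - 1) * y := by
      nth_rewrite 3 [← Complex.cpow_one (y : ℂ)]
      rw [← Complex.cpow_add _ _ hyc]
      congr 1
      ring
    rw [h3]
    ring

/-- `∫ y^{s-1} e^{-ry} dy = r^{-s} Γ(s)` for `Re r > 0`. -/
theorem ZRot_eval (r s : ℂ) (hr : 0 < r.re) (hs : 0 < s.re) :
    mellin (fun y : ℝ => Complex.exp (-(r * y))) s = r ^ (-s) * Complex.Gamma s := by
  have hU : IsOpen {r : ℂ | 0 < r.re} := isOpen_lt continuous_const Complex.continuous_re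
  have hf : AnalyticOnNhd ℂ (fun r : ℂ => mellin (fun y : ℝ => Complex.exp (-(r * y))) s)
      {r : ℂ | 0 < r.re} := (ZRot_ediff s hs).analyticOnNhd hU
  have hgd : DifferentiableOn ℂ (fun r : ℂ => r ^ (-s) * Complex.Gamma s) {r : ℂ | 0 < r.re} := by
    intro z hz
    have hz' : 0 < z.re := hz
    exact ((differentiableAt_id.cpow_const (Or.inl hz')).mul_const _).differentiableWithinAt
  have hg := hgd.analyticOnNhd hU
  have hpre : IsPreconnected {s : ℂ | 0 < s.re} := (convex_halfSpace_re_gt 0).isPreconnected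
  have h1 : Filter.Tendsto (fun k : ℕ => (((1 : ℝ) + 1 / ((k : ℝ) + 1) : ℝ) : ℂ)) Filter.atTop
      (nhdsWithin 1 {1}ᶜ) := by
    refine tendsto_nhdsWithin_iff.2 ⟨?_, Filter.Eventually.of_forall fun k => ?_⟩
    · have h2 : Filter.Tendsto (fun k : ℕ => (1 : ℝ) + 1 / ((k : ℝ) + 1)) Filter.atTop
          (nhds (1 + 0)) := tendsto_one_div_add_atTop_nhds_zero_nat.const_add 1
      have h3 := (Complex.continuous_ofReal.tendsto (1 + 0)).comp h2
      simpa [Function.comp_def] using h3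
    · rw [Set.mem_compl_iff, Set.mem_singleton_iff]
      intro h2
      have h3 : (1 : ℝ) + 1 / ((k : ℝ) + 1) = 1 := by exact_mod_cast h2
      have h4 : (0 : ℝ) < 1 / ((k : ℝ) + 1) := by positivity
      linarith
  have hreal : ∀ x : ℝ, 0 < x → mellin (fun y : ℝ => Complex.exp (-((x : ℂ) * y))) s =
      (x : ℂ) ^ (-s) * Complex.Gamma s := by
    intro x hx
    have h2 := Complex.integral_cpow_mul_exp_neg_mul_Ioi hs hx
    have h3 : (1 / (x : ℂ)) ^ s = (x : ℂ) ^ (-s) := by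
      rw [one_div, Complex.inv_cpow _ _ (by
        rw [Complex.arg_ofReal_of_nonneg hx.le]
        exact Real.pi_pos.ne), Complex.cpow_neg]
    rw [h3] at h2
    exact h2
  have h2 : ∃ᶠ z in nhdsWithin (1 : ℂ) {1}ᶜ,
      mellin (fun y : ℝ => Complex.exp (-(z * y))) s = z ^ (-s) * Complex.Gamma s := by
    refine h1.frequently (Filter.Frequently.of_forall fun k => ?_)
    exact hreal _ (by positivity)
  exact hf.eqOn_of_preconnected_of_frequently_eq hg hpre
    (show (1 : ℂ) ∈ {s : ℂ | 0 < s.re} by simp) h2 hr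

/-- `(x e^{iφ})^{-s} = e^{-iφs} x^{-s}`. -/
theorem ZRot_cpow (x φ : ℝ) (hx : 0 < x) (hφ : |φ| < Real.pi / 2) (s : ℂ) :
    ((x : ℂ) * ei φ) ^ (-s) = Complex.exp (-(φ * I * s)) * (x : ℂ) ^ (-s) := by
  have hxc : (x : ℂ) ≠ 0 := by exact_mod_cast hx.ne'
  have hpi := Real.pi_pos
  have h1 := abs_lt.1 hφ
  have him : ((φ : ℂ) * I).im = φ := by simp
  have hlog : Complex.log ((x : ℂ) * ei φ) = Complex.log x + φ * I := by
    rw [Complex.log_ofReal_mul hx (ZRot_ne φ), ← Complex.ofReal_log hx.le]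
    congr 1
    unfold ei
    exact Complex.log_exp (by rw [him]; linarith) (by rw [him]; linarith)
  rw [Complex.cpow_def_of_ne_zero (mul_ne_zero hxc (ZRot_ne φ)),
    Complex.cpow_def_of_ne_zero hxc, hlog, ← Complex.exp_add]
  congr 1
  ring

/-- Termwise integration. -/
theorem ZRot_hasSum (a : ℕ → ℝ) (κ ε : ℝ) (h : ThData a κ ε) (φ : ℝ) (hφ : |φ| < Real.pi / 2)
    (s : ℂ) (hs : 3 / 2 < s.re) :
    HasSum (fun m : ℕ => (a m : ℂ) * (Complex.exp (-(φ * I * s)) *
        ((Real.pi * κ * m : ℝ) : ℂ) ^ (-s) * Complex.Gamma s))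
      (mellin (fun y : ℝ => ThC a κ (y * ei φ)) s) := by
  have hcos := ZRot_cos hφ
  have hs0 : 0 < s.re := by linarith
  have hκ := h.κpos
  have hpi := Real.pi_pos
  have hxm : ∀ m : ℕ, m ≠ 0 → 0 < Real.pi * κ * m := by
    intro m hm
    have : (0 : ℝ) < m := by exact_mod_cast Nat.pos_of_ne_zero hm
    positivity
  have harg : ∀ (m : ℕ) (y : ℝ), -(Real.pi * κ * m * (y * ei φ)) =
      -((((Real.pi * κ * m : ℝ) : ℂ) * ei φ) * y) := by
    intro m y
    push_cast
    ring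
  have hre : ∀ m : ℕ, m ≠ 0 → 0 < (((Real.pi * κ * m : ℝ) : ℂ) * ei φ).re := by
    intro m hm
    rw [ZRot_re]
    exact mul_pos (hxm m hm) hcos
  set F : ℕ → ℝ → ℂ := fun m y =>
    (y : ℂ) ^ (s - 1) * ((a m : ℂ) * Complex.exp (-(Real.pi * κ * m * (y * ei φ)))) with hF
  have hF0 : ∀ y, F 0 y = 0 := by
    intro y
    simp only [hF, h.a0, Complex.ofReal_zero, zero_mul, mul_zero]
  have hFm : ∀ m y, F m y = (a m : ℂ) * ((y : ℂ) ^ (s - 1) *
      Complex.exp (-((((Real.pi * κ * m : ℝ) : ℂ) * ei φ) * y))) := by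
    intro m y
    simp only [hF]
    rw [harg]
    ring
  have hint : ∀ m, Integrable (F m) (volume.restrict (Set.Ioi 0)) := by
    intro m
    by_cases hm : m = 0
    · subst hm
      have : F 0 = fun _ => 0 := funext hF0
      rw [this]
      exact integrable_zero _ _ _
    · have h1 := ZRot_econv _ s (hre m hm) hs0
      have h2 : Integrable (fun y : ℝ => (y : ℂ) ^ (s - 1) *
        Complex.exp (-((((Real.pi * κ * m : ℝ) : ℂ) * ei φ) * y)))
        (volume.restrict (Set.Ioi 0)) := h1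
      have h3 := h2.const_mul (a m : ℂ)
      exact h3.congr (Eventually.of_forall fun y => (hFm m y).symm)
  have hnorm : ∀ m, ∫ y in Set.Ioi (0 : ℝ), ‖F m y‖ =
      Real.Gamma s.re * (Real.pi * κ * Real.cos φ) ^ (-s.re) * (|a m| * (m : ℝ) ^ (-s.re)) := by
    intro m
    by_cases hm : m = 0
    · subst hm
      simp only [hF0, norm_zero, integral_zero, h.a0, abs_zero, zero_mul, mul_zero]
    · have hm' : (0 : ℝ) < m := by exact_mod_cast Nat.pos_of_ne_zero hm
      have hpos : 0 < Real.pi * κ * m * Real.cos φ := mul_pos (hxm m hm) hcos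
      have h1 := Real.integral_rpow_mul_exp_neg_mul_Ioi hs0 hpos
      have h2 : ∫ y in Set.Ioi (0 : ℝ), ‖F m y‖ = ∫ y in Set.Ioi (0 : ℝ),
          |a m| * (y ^ (s.re - 1) * Real.exp (-(Real.pi * κ * m * Real.cos φ * y))) := by
        apply setIntegral_congr_fun measurableSet_Ioi
        intro y hy
        have hy' : 0 < y := hy
        show ‖F m y‖ = _
        rw [hFm, norm_mul, norm_mul, Complex.norm_cpow_eq_rpow_re_of_pos hy', Complex.norm_real,
          Real.norm_eq_abs, Complex.norm_exp]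
        congr 3
        rw [Complex.neg_re, Complex.re_mul_ofReal, ZRot_re]
      rw [h2, integral_const_mul, h1, one_div, Real.inv_rpow hpos.le, ← Real.rpow_neg hpos.le]
      have h3 : Real.pi * κ * m * Real.cos φ = (Real.pi * κ * Real.cos φ) * m := by ring
      rw [h3, Real.mul_rpow (by positivity) hm'.le]
      ring
  have hsum : Summable fun m => ∫ y in Set.Ioi (0 : ℝ), ‖F m y‖ := by
    have h1 := (h.sum s.re hs).mul_left (Real.Gamma s.re * (Real.pi * κ * Real.cos φ) ^ (-s.re))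
    exact h1.congr fun m => (hnorm m).symm
  have hmain := hasSum_integral_of_summable_integral_norm hint hsum
  have hR : ∫ y in Set.Ioi (0 : ℝ), ∑' m, F m y = mellin (fun y : ℝ => ThC a κ (y * ei φ)) s := by
    unfold mellin
    apply setIntegral_congr_fun measurableSet_Ioi
    intro y _
    show ∑' m, F m y = (y : ℂ) ^ (s - 1) • ThC a κ (y * ei φ)
    rw [smul_eq_mul]
    unfold ThC
    rw [← tsum_mul_left]
  rw [hR] at hmain
  refine hmain.congr_fun fun m => ?_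
  by_cases hm : m = 0
  · subst hm
    simp only [hF0, integral_zero, h.a0, Complex.ofReal_zero, zero_mul]
  · have h1 := ZRot_eval _ s (hre m hm) hs0
    rw [ZRot_cpow _ φ (hxm m hm) hφ] at h1
    have h2 : ∫ y in Set.Ioi (0 : ℝ), F m y = (a m : ℂ) *
        mellin (fun y : ℝ => Complex.exp (-((((Real.pi * κ * m : ℝ) : ℂ) * ei φ) * y))) s := by
      unfold mellin
      rw [← integral_const_mul]
      apply setIntegral_congr_fun measurableSet_Ioi
      intro y _
      show F m y = (a m : ℂ) * ((y : ℂ) ^ (s - 1) •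
        Complex.exp (-((((Real.pi * κ * m : ℝ) : ℂ) * ei φ) * y)))
      rw [hFm, smul_eq_mul]
    rw [h2, h1]

theorem ZRot_zero (a : ℕ → ℝ) (κ ε : ℝ) (h : ThData a κ ε) (s : ℂ) :
    mellin (fun y : ℝ => ThC a κ (y * ei 0)) s = mellin (fun t : ℝ => (Th a κ t : ℂ)) s := by
  unfold mellin
  apply setIntegral_congr_fun measurableSet_Ioi
  intro y hy
  have hy' : 0 < y := hy
  have h1 : ei 0 = 1 := by
    unfold ei
    simp
  show (y : ℂ) ^ (s - 1) • ThC a κ (y * ei 0) = (y : ℂ) ^ (s - 1) • (Th a κ y : ℂ)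
  rw [h1, mul_one, thc_real a κ ε h y hy']

theorem ZRot_big (a : ℕ → ℝ) (κ ε : ℝ) (h : ThData a κ ε) (φ : ℝ) (hφ : |φ| < Real.pi / 2)
    (s : ℂ) (hs : 3 / 2 < s.re) : mellin (fun y : ℝ => ThC a κ (y * ei φ)) s =
      Complex.exp (-(φ * I * s)) * mellin (fun t : ℝ => (Th a κ t : ℂ)) s := by
  have h1 := ZRot_hasSum a κ ε h φ hφ s hs
  have h0 := ZRot_hasSum a κ ε h 0 (by rw [abs_zero]; positivity) s hs
  rw [ZRot_zero a κ ε h s] at h0
  have h2 := h0.mul_left (Complex.exp (-(φ * I * s)))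
  refine h1.unique (h2.congr_fun fun m => ?_)
  simp only [Complex.ofReal_zero, zero_mul, neg_zero, Complex.exp_zero, one_mul]
  ring

/-- The Mellin transform on a ray.  Both sides are entire (`ray_conv` and
`mellin_differentiableAt_of_isBigO_rpow`; `melS_diff`); for `Re s > 2` integrate the series termwise,
`∫ e^{-ry} y^{s-1} dy = r^{-s} Γ(s)` for `Re r > 0` (`Complex.integral_cpow_mul_exp_neg_mul_Ioi`),
`(πκm e^{iφ})^{-s} = (πκm)^{-s} e^{-iφs}`. -/
theorem rot_mellin (a : ℕ → ℝ) (κ ε : ℝ) (h : ThData a κ ε) (φ : ℝ) (hφ : |φ| < Real.pi / 2)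
    (s : ℂ) : mellin (fun y : ℝ => ThC a κ (y * ei φ)) s =
      Complex.exp (-(φ * I * s)) * mellin (fun t : ℝ => (Th a κ t : ℂ)) s := by
  have hd1 : Differentiable ℂ (mellin (fun y : ℝ => ThC a κ (y * ei φ))) := fun s =>
    mellin_differentiableAt_of_isBigO_rpow (ZRot_locInt a κ ε h φ hφ)
      (ZRot_top a κ ε h φ hφ (s.re + 1)) (by linarith) (ZRot_bot a κ ε h φ hφ (s.re - 1))
      (by linarith)
  have hd2 : Differentiable ℂ (fun s : ℂ => Complex.exp (-(φ * I * s)) *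
      mellin (fun t : ℝ => (Th a κ t : ℂ)) s) := by
    have h1 : Differentiable ℂ (fun s : ℂ => Complex.exp (-(φ * I * s))) := by fun_prop
    exact h1.mul (melS_diff a κ ε h)
  have ha1 : AnalyticOnNhd ℂ (mellin (fun y : ℝ => ThC a κ (y * ei φ))) Set.univ :=
    hd1.differentiableOn.analyticOnNhd isOpen_univ
  have ha2 : AnalyticOnNhd ℂ (fun s : ℂ => Complex.exp (-(φ * I * s)) *
      mellin (fun t : ℝ => (Th a κ t : ℂ)) s) Set.univ :=
    hd2.differentiableOn.analyticOnNhd isOpen_univ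
  have hev : (mellin (fun y : ℝ => ThC a κ (y * ei φ))) =ᶠ[𝓝 (2 : ℂ)]
      (fun s : ℂ => Complex.exp (-(φ * I * s)) * mellin (fun t : ℝ => (Th a κ t : ℂ)) s) := by
    have hnhds : {z : ℂ | 3 / 2 < z.re} ∈ 𝓝 (2 : ℂ) :=
      (isOpen_lt continuous_const Complex.continuous_re).mem_nhds (by
        show (3 / 2 : ℝ) < (2 : ℂ).re
        norm_num)
    filter_upwards [hnhds] with z hz
    exact ZRot_big a κ ε h φ hφ z hz
  exact congrFun (ha1.eq_of_eventuallyEq ha2 hev) s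

theorem ZRot_fin (a : ℕ → ℝ) (κ ε : ℝ) (h : ThData a κ ε) (μ : ℕ → ℝ) (φ : ℝ)
    (hφ : |φ| < Real.pi / 2) (s : ℂ) (D : Finset ℕ) : (∀ d ∈ D, 0 < d) →
    HasMellin (fun y : ℝ => ∑ d ∈ D, (μ d : ℂ) * ThC a κ (d * (y * ei φ))) s
      (MD D μ s * mellin (fun y : ℝ => ThC a κ (y * ei φ)) s) := by
  classical
  induction D using Finset.induction_on with
  | empty =>
    intro _
    unfold MD
    simp only [Finset.sum_empty, zero_mul]
    constructor
    · unfold MellinConvergent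
      simp only [smul_zero]
      exact integrableOn_zero
    · unfold mellin
      simp
  | insert d D hd ih =>
    intro hD
    obtain ⟨hc, hm⟩ := ih fun e he => hD e (Finset.mem_insert_of_mem he)
    have hd0 : (0 : ℝ) < d := by exact_mod_cast hD d (Finset.mem_insert_self d D)
    have hf := ray_conv a κ ε h φ hφ s
    have h1 : MellinConvergent (fun y : ℝ => (fun y : ℝ => ThC a κ (y * ei φ)) (d * y)) s :=
      (MellinConvergent.comp_mul_left hd0).2 hf
    have h2 := mellin_comp_mul_left (fun y : ℝ => ThC a κ (y * ei φ)) s hd0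
    have h3 := h1.const_smul (μ d : ℂ)
    have h4 := mellin_const_smul (fun y : ℝ => (fun y : ℝ => ThC a κ (y * ei φ)) (d * y)) s
      (μ d : ℂ)
    rw [h2] at h4
    have h5 := hasMellin_add h3 hc
    rw [h4, hm] at h5
    have e1 : (fun y : ℝ => (μ d : ℂ) • (fun y : ℝ => ThC a κ (y * ei φ)) (d * y) +
        ∑ e ∈ D, (μ e : ℂ) * ThC a κ (e * (y * ei φ))) =
        fun y : ℝ => ∑ e ∈ insert d D, (μ e : ℂ) * ThC a κ (e * (y * ei φ)) := by
      funext y
      have e0 : (((d : ℝ) * y : ℝ) : ℂ) * ei φ = (d : ℂ) * (y * ei φ) := by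
        push_cast
        ring
      show (μ d : ℂ) • ThC a κ ((((d : ℝ) * y : ℝ) : ℂ) * ei φ) +
        ∑ e ∈ D, (μ e : ℂ) * ThC a κ (e * (y * ei φ)) = _
      rw [Finset.sum_insert hd, smul_eq_mul, e0]
    have e2 : (μ d : ℂ) • (((d : ℝ) : ℂ) ^ (-s) • mellin (fun y : ℝ => ThC a κ (y * ei φ)) s) +
        MD D μ s * mellin (fun y : ℝ => ThC a κ (y * ei φ)) s =
        MD (insert d D) μ s * mellin (fun y : ℝ => ThC a κ (y * ei φ)) s := by
      unfold MD
      rw [Finset.sum_insert hd, smul_eq_mul, smul_eq_mul, Complex.ofReal_natCast]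
      ring
    rw [← e1, ← e2]
    exact h5

/-- The Mellin transform of `GD` on a ray (`mellin_comp_mul_left` for the arguments `d w`, the definition
of `LG`, and `∫ e^{-πκ y e^{iφ}} y^{s-1} dy = (πκ)^{-s} e^{-iφs} Γ(s)`). -/
theorem gd_mellin (a : ℕ → ℝ) (κ ε : ℝ) (h : ThData a κ ε) (D : Finset ℕ) (μ : ℕ → ℝ)
    (hD : ∀ d ∈ D, 0 < d) (φ : ℝ) (hφ : |φ| < Real.pi / 2) (s : ℂ) (hs : 0 < s.re) :
    MellinConvergent (fun y : ℝ => GD D μ a κ (y * ei φ)) s ∧
    mellin (fun y : ℝ => GD D μ a κ (y * ei φ)) s =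
      Complex.exp (-(φ * I * s)) * ((Real.pi * κ : ℝ) : ℂ) ^ (-s) * Complex.Gamma s *
        (LG a κ s * MD D μ s - 1) := by
  obtain ⟨hc, hm⟩ := ZRot_fin a κ ε h μ φ hφ s D hD
  have hcos := ZRot_cos hφ
  have hpk : 0 < Real.pi * κ := mul_pos Real.pi_pos h.κpos
  have hre : 0 < (((Real.pi * κ : ℝ) : ℂ) * ei φ).re := by
    rw [ZRot_re]
    exact mul_pos hpk hcos
  have he := ZRot_econv _ s hre hs
  have hem := ZRot_eval _ s hre hs
  rw [ZRot_cpow _ φ hpk hφ] at hem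
  obtain ⟨h1, h2⟩ := hasMellin_sub hc he
  have e1 : (fun y : ℝ => (∑ d ∈ D, (μ d : ℂ) * ThC a κ (d * (y * ei φ))) -
      Complex.exp (-(((Real.pi * κ : ℝ) : ℂ) * ei φ * y))) =
      fun y : ℝ => GD D μ a κ (y * ei φ) := by
    funext y
    have e0 : ((Real.pi * κ : ℝ) : ℂ) * ei φ * y = Real.pi * κ * (y * ei φ) := by
      push_cast
      ring
    unfold GD
    rw [e0]
  rw [e1] at h1 h2
  refine ⟨h1, ?_⟩
  rw [h2, hm, hem, rot_mellin a κ ε h φ hφ s]
  have hG : Complex.Gamma s ≠ 0 := Complex.Gamma_ne_zero_of_re_pos hs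
  have hp : ((Real.pi * κ : ℝ) : ℂ) ^ s ≠ 0 := by
    rw [Ne, Complex.cpow_eq_zero_iff]
    exact fun h' => LG_pk_ne κ h.κpos h'.1
  unfold LG
  rw [Complex.cpow_neg]
  field_simp

end W3283z
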