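import Pool.Agent.W_3283e1_zd.ZSml
import Pool.Agent.W_3283e1_zd.ZRot
import Pool.Agent.W_3283e1_zd.ZPla
import Pool.Agent.W_3283e1_zd.ZGam

set_option autoImplicit false

namespace W3283z

open Complex W3283f MeasureTheory Filter Topology

/-- the pointwise lower bound for the Mellin transform -/
theorem ZMs_pt (κ c φ σ t T : ℝ) (hκ : 0 < κ) (hT : 0 < T)
    (hφ : φ = Real.pi / 2 - 1 / T) (hσ1 : 1 ≤ σ) (htT : T ≤ t) (htT2 : t ≤ 2 * T) (hc : 0 < c)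
    (hg : c * t ^ (2 * σ - 1) * Real.exp (-(Real.pi * t)) ≤ ‖Complex.Gamma (σ + t * I)‖ ^ 2)
    (X : ℂ) :
    (c * Real.exp (-4) * (Real.pi * κ) ^ (-(2 * σ)) * T ^ (2 * σ - 1)) * ‖X‖ ^ 2 ≤
      ‖Complex.exp (-(φ * I * (σ + t * I))) * ((Real.pi * κ : ℝ) : ℂ) ^ (-((σ : ℂ) + t * I)) *
        Complex.Gamma (σ + t * I) * X‖ ^ 2 := by
  have hpk : 0 < Real.pi * κ := by positivity
  have ht0 : 0 < t := lt_of_lt_of_le hT htT
  have h1 : ‖Complex.exp (-(φ * I * (σ + t * I)))‖ = Real.exp (φ * t) := by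
    rw [Complex.norm_exp]
    congr 1
    simp
  have h2 : ‖((Real.pi * κ : ℝ) : ℂ) ^ (-((σ : ℂ) + t * I))‖ = (Real.pi * κ) ^ (-σ) := by
    rw [Complex.norm_cpow_eq_rpow_re_of_pos hpk]
    congr 1
    simp
  rw [norm_mul, norm_mul, norm_mul, h1, h2, mul_pow, mul_pow, mul_pow]
  refine mul_le_mul_of_nonneg_right ?_ (by positivity)
  have h3 : ((Real.pi * κ) ^ (-σ)) ^ 2 = (Real.pi * κ) ^ (-(2 * σ)) := by
    rw [← Real.rpow_natCast, ← Real.rpow_mul hpk.le]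
    congr 1
    push_cast
    ring
  have h4 : Real.exp (φ * t) ^ 2 = Real.exp (2 * φ * t) := by
    rw [← Real.exp_nat_mul]
    congr 1
    push_cast
    ring
  rw [h3, h4]
  have h5 : T ^ (2 * σ - 1) ≤ t ^ (2 * σ - 1) :=
    Real.rpow_le_rpow hT.le htT (by linarith)
  have h6 : Real.exp (-4) ≤ Real.exp (2 * φ * t) * Real.exp (-(Real.pi * t)) := by
    rw [← Real.exp_add]
    apply Real.exp_le_exp.2
    have h7 : 2 * φ * t + -(Real.pi * t) = -(2 * (t / T)) := by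
      rw [hφ]
      ring
    have h8 : t / T ≤ 2 := by
      rw [div_le_iff₀ hT]
      exact htT2
    rw [h7]
    linarith
  have hA : 0 ≤ (Real.pi * κ) ^ (-(2 * σ)) := Real.rpow_nonneg hpk.le _
  have hB : 0 ≤ T ^ (2 * σ - 1) := Real.rpow_nonneg hT.le _
  have hE : 0 ≤ Real.exp (2 * φ * t) := (Real.exp_pos _).le
  calc c * Real.exp (-4) * (Real.pi * κ) ^ (-(2 * σ)) * T ^ (2 * σ - 1)
      ≤ c * (Real.exp (2 * φ * t) * Real.exp (-(Real.pi * t))) * (Real.pi * κ) ^ (-(2 * σ)) *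
          t ^ (2 * σ - 1) := by
        refine mul_le_mul ?_ h5 hB (by positivity)
        refine mul_le_mul_of_nonneg_right ?_ hA
        exact mul_le_mul_of_nonneg_left h6 hc.le
    _ = Real.exp (2 * φ * t) * (Real.pi * κ) ^ (-(2 * σ)) *
          (c * t ^ (2 * σ - 1) * Real.exp (-(Real.pi * t))) := by ring
    _ ≤ Real.exp (2 * φ * t) * (Real.pi * κ) ^ (-(2 * σ)) *
          ‖Complex.Gamma (σ + t * I)‖ ^ 2 :=
        mul_le_mul_of_nonneg_left hg (mul_nonneg hE hA)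

/-- the angle -/
theorem ZMs_ang (T φ : ℝ) (hT : 2 ≤ T) (hφ : φ = Real.pi / 2 - 1 / T) :
    |φ| < Real.pi / 2 ∧ 1 / 2 ≤ |Real.sin φ| ∧ 1 / (2 * T) ≤ Real.cos φ := by
  have hT0 : 0 < T := by linarith
  have h1 : 0 < 1 / T := by positivity
  have h2 : 1 / T ≤ 1 / 2 := one_div_le_one_div_of_le (by norm_num) hT
  have hpi := Real.pi_gt_three
  have hpi4 := Real.pi_le_four
  refine ⟨?_, ?_, ?_⟩
  · rw [abs_lt, hφ]
    constructor
    · linarith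
    · linarith
  · rw [hφ, Real.sin_pi_div_two_sub]
    have h3 := Real.one_sub_sq_div_two_le_cos (x := 1 / T)
    have h4 : (1 / T) ^ 2 ≤ (1 / 2) ^ 2 := pow_le_pow_left₀ h1.le h2 2
    refine le_trans ?_ (le_abs_self _)
    norm_num at h4 ⊢
    norm_num at h3
    linarith
  · rw [hφ, Real.cos_pi_div_two_sub]
    have h3 := Real.mul_le_sin h1.le (by linarith)
    refine le_trans ?_ h3
    have h4 : 1 / 2 ≤ 2 / Real.pi := by
      rw [div_le_div_iff₀ (by norm_num) Real.pi_pos]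
      linarith
    calc 1 / (2 * T) = 1 / 2 * (1 / T) := by rw [one_div_mul_one_div]
      _ ≤ 2 / Real.pi * (1 / T) := mul_le_mul_of_nonneg_right h4 h1.le

/-- the arithmetic of the constants -/
theorem ZMs_num (c P K η η' σ τ τ' T C : ℝ) (hc : 0 < c) (hP : 0 < P) (hK : 0 < K) (hη : 0 < η)
    (hη' : 0 ≤ η') (hτ : 1 < τ) (hτ' : τ' = (1 + τ) / 2) (hσ : τ ≤ σ) (hσ3 : σ ≤ 3) (hT : 2 ≤ T)
    (hC : 1 / (2 * T) ≤ C)
    (h1 : 128 * Real.pi * Real.exp 4 / c * (max 1 P) ^ (6 : ℝ) * η' ≤ η / 2)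
    (h2 : 128 * Real.pi * Real.exp 4 / c * (max 1 P) ^ (6 : ℝ) * K ≤ η / 2 * T ^ (τ - 1)) :
    (c * Real.exp (-4) * P ^ (-(2 * σ)) * T ^ (2 * σ - 1))⁻¹ *
      (2 * Real.pi * (η' * C ^ (-(2 * σ)) + K * C ^ (-(2 * τ')))) ≤ η * T := by
  have hT0 : 0 < T := by linarith
  have h2T : 0 < 1 / (2 * T) := by positivity
  have hexp : ∀ a : ℝ, 0 ≤ a → C ^ (-a) ≤ (2 * T) ^ a := by
    intro a ha
    calc C ^ (-a) ≤ (1 / (2 * T)) ^ (-a) :=
          Real.rpow_le_rpow_of_nonpos h2T hC (by linarith)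
      _ = (2 * T) ^ a := by
          rw [one_div, Real.inv_rpow (by positivity), Real.rpow_neg (by positivity), inv_inv]
  have hM1 : 1 ≤ max 1 P := le_max_left _ _
  have hPM : P ≤ max 1 P := le_max_right _ _
  have hP6 : P ^ (2 * σ) ≤ (max 1 P) ^ (6 : ℝ) :=
    (Real.rpow_le_rpow hP.le hPM (by linarith)).trans
      (Real.rpow_le_rpow_of_exponent_le hM1 (by linarith))
  have h264 : ∀ a : ℝ, a ≤ 6 → (2 : ℝ) ^ a ≤ 64 := by
    intro a ha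
    calc (2 : ℝ) ^ a ≤ 2 ^ (6 : ℝ) := Real.rpow_le_rpow_of_exponent_le (by norm_num) ha
      _ = 64 := by norm_num
  have hc1 := hexp (2 * σ) (by linarith)
  have hc2 := hexp (2 * τ') (by rw [hτ']; linarith)
  rw [Real.mul_rpow (by norm_num) hT0.le] at hc1 hc2
  have hTa : 0 < T ^ (2 * σ) := Real.rpow_pos_of_pos hT0 _
  have hTb : 0 < T ^ (2 * τ') := Real.rpow_pos_of_pos hT0 _
  have hc1' : C ^ (-(2 * σ)) ≤ 64 * T ^ (2 * σ) :=
    hc1.trans (mul_le_mul_of_nonneg_right (h264 _ (by linarith)) hTa.le)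
  have hc2' : C ^ (-(2 * τ')) ≤ 64 * T ^ (2 * τ') :=
    hc2.trans (mul_le_mul_of_nonneg_right (h264 _ (by rw [hτ']; linarith)) hTb.le)
  have hTc : T ^ (2 * τ') ≤ T ^ (2 * σ) * (T ^ (τ - 1))⁻¹ := by
    rw [← Real.rpow_neg hT0.le, ← Real.rpow_add hT0]
    apply Real.rpow_le_rpow_of_exponent_le (by linarith)
    rw [hτ']
    linarith
  obtain ⟨M6, hM6⟩ : ∃ M6, M6 = (max 1 P) ^ (6 : ℝ) := ⟨_, rfl⟩
  rw [← hM6] at h1 h2 hP6
  have hM6p : 0 < M6 := by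
    rw [hM6]
    exact Real.rpow_pos_of_pos (by linarith) _
  obtain ⟨U, hU⟩ : ∃ U, U = T ^ (τ - 1) := ⟨_, rfl⟩
  have hU0 : 0 < U := by
    rw [hU]
    exact Real.rpow_pos_of_pos hT0 _
  rw [← hU] at h2 hTc
  have hinv : (c * Real.exp (-4) * P ^ (-(2 * σ)) * T ^ (2 * σ - 1))⁻¹ =
      Real.exp 4 / c * P ^ (2 * σ) * (T / T ^ (2 * σ)) := by
    rw [Real.rpow_neg hP.le, Real.exp_neg, Real.rpow_sub hT0, Real.rpow_one]
    have e1 : 0 < P ^ (2 * σ) := Real.rpow_pos_of_pos hP _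
    have e2 := (Real.exp_pos 4).ne'
    field_simp
  rw [hinv]
  have hpos1 : 0 ≤ Real.exp 4 / c * (T / T ^ (2 * σ)) := by positivity
  have hS : 2 * Real.pi * (η' * C ^ (-(2 * σ)) + K * C ^ (-(2 * τ'))) ≤
      2 * Real.pi * (64 * T ^ (2 * σ) * (η' + K * U⁻¹)) := by
    refine mul_le_mul_of_nonneg_left ?_ (by positivity)
    have e1 : η' * C ^ (-(2 * σ)) ≤ η' * (64 * T ^ (2 * σ)) := mul_le_mul_of_nonneg_left hc1' hη'
    have e2 : K * C ^ (-(2 * τ')) ≤ K * (64 * (T ^ (2 * σ) * U⁻¹)) :=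
      mul_le_mul_of_nonneg_left (hc2'.trans (by linarith)) hK.le
    calc _ ≤ η' * (64 * T ^ (2 * σ)) + K * (64 * (T ^ (2 * σ) * U⁻¹)) := add_le_add e1 e2
      _ = _ := by ring
  have hKU : 128 * Real.pi * Real.exp 4 / c * M6 * (K * U⁻¹) ≤ η / 2 := by
    calc 128 * Real.pi * Real.exp 4 / c * M6 * (K * U⁻¹)
        = (128 * Real.pi * Real.exp 4 / c * M6 * K) * U⁻¹ := by ring
      _ ≤ (η / 2 * U) * U⁻¹ := mul_le_mul_of_nonneg_right h2 (by positivity)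
      _ = η / 2 := by field_simp
  have hP0 : 0 ≤ P ^ (2 * σ) := Real.rpow_nonneg hP.le _
  calc Real.exp 4 / c * P ^ (2 * σ) * (T / T ^ (2 * σ)) *
        (2 * Real.pi * (η' * C ^ (-(2 * σ)) + K * C ^ (-(2 * τ'))))
      ≤ Real.exp 4 / c * P ^ (2 * σ) * (T / T ^ (2 * σ)) *
        (2 * Real.pi * (64 * T ^ (2 * σ) * (η' + K * U⁻¹))) :=
        mul_le_mul_of_nonneg_left hS (by positivity)
    _ = (128 * Real.pi * Real.exp 4 / c * P ^ (2 * σ) * (η' + K * U⁻¹)) * T := by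
        field_simp
        ring
    _ ≤ (128 * Real.pi * Real.exp 4 / c * M6 * (η' + K * U⁻¹)) * T := by
        refine mul_le_mul_of_nonneg_right ?_ hT0.le
        refine mul_le_mul_of_nonneg_right ?_ (by positivity)
        exact mul_le_mul_of_nonneg_left hP6 (by positivity)
    _ ≤ η * T := by
        refine mul_le_mul_of_nonneg_right ?_ hT0.le
        rw [mul_add]
        linarith

/-- The mean square.  `pla_mellin` for `f y = GD D μ a κ (y e^{iφ})`, `gd_mellin`, `φ = π/2 - 1/T`: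
`cos φ = sin (1/T) ∈ [1/(2T), 1/T]`, `sin φ ≥ 1/2`; on `T ≤ t ≤ 2T`:
`|e^{-iφs} (πκ)^{-s} Γ(s)|² ≥ c (πκ)^{-2σ} T^{2σ-1} e^{2φt-πt}`, `e^{2φt-πt} = e^{-2t/T} ≥ e^{-4}`; `gd_sq` with a small `η'`:
`∫_T^{2T} |LM - 1|² dt ≤ C (η' (2T)^{2σ} + K (2T)^{2τ'})/T^{2σ-1}`, `1 < τ' < τ`, e.g. `τ' = (1+τ)/2`. -/
theorem ms (a : ℕ → ℝ) (κ ε : ℝ) (h : ThData a κ ε) (hM : Mol a) (τ : ℝ) (hτ : 1 < τ)
    (hτ3 : τ ≤ 3) (η : ℝ) (hη : 0 < η) :
    ∃ (D : Finset ℕ) (μ : ℕ → ℝ) (T0 : ℝ), (∀ d ∈ D, 0 < d) ∧ 1 ≤ T0 ∧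
      (∀ t : ℝ, ‖LG a κ (2 + t * I) * MD D μ (2 + t * I) - 1‖ ≤ η) ∧
      ∀ T σ : ℝ, T0 ≤ T → τ ≤ σ → σ ≤ 3 →
        ∫⁻ t in Set.Ioc T (2 * T), ‖LG a κ (σ + t * I) * MD D μ (σ + t * I) - 1‖ₑ ^ 2 ≤
          ENNReal.ofReal (η * T) := by
  obtain ⟨c, hc, hgam⟩ := gam_low
  have hpk : 0 < Real.pi * κ := LG_pk_pos κ h.κpos
  obtain ⟨A, hA⟩ : ∃ A, A = 128 * Real.pi * Real.exp 4 / c * (max 1 (Real.pi * κ)) ^ (6 : ℝ) :=
    ⟨_, rfl⟩
  have hA0 : 0 < A := by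
    rw [hA]
    have : 0 < (max 1 (Real.pi * κ)) ^ (6 : ℝ) :=
      Real.rpow_pos_of_pos (lt_of_lt_of_le one_pos (le_max_left _ _)) _
    positivity
  obtain ⟨η', hη'd⟩ : ∃ η', η' = min η (η / (2 * A)) := ⟨_, rfl⟩
  have hη' : 0 < η' := by
    rw [hη'd]
    exact lt_min hη (by positivity)
  have hη'1 : η' ≤ η := by
    rw [hη'd]
    exact min_le_left _ _
  have hη'2 : A * η' ≤ η / 2 := by
    have h1 : η' ≤ η / (2 * A) := by
      rw [hη'd]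
      exact min_le_right _ _
    calc A * η' ≤ A * (η / (2 * A)) := mul_le_mul_of_nonneg_left h1 hA0.le
      _ = η / 2 := by field_simp
  obtain ⟨D, μ, K, hD, hK, h2, hsq⟩ := gd_sq a κ ε h hM ((1 + τ) / 2) (by linarith) (by linarith)
    η' hη'
  refine ⟨D, μ, max 2 ((2 * A * K / η) ^ (1 / (τ - 1))), hD,
    (by norm_num : (1 : ℝ) ≤ 2).trans (le_max_left _ _), fun t => (h2 t).trans hη'1, ?_⟩
  intro T σ hT hσ hσ3
  have hT2 : 2 ≤ T := (le_max_left _ _).trans hT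
  have hT0 : 0 < T := by linarith
  have hTK : A * K ≤ η / 2 * T ^ (τ - 1) := by
    have h3 : (2 * A * K / η) ^ (1 / (τ - 1)) ≤ T := (le_max_right _ _).trans hT
    have h0 : 0 < 2 * A * K / η := by positivity
    have hτ0 : 0 < τ - 1 := by linarith
    have h4 := Real.rpow_le_rpow (Real.rpow_nonneg h0.le _) h3 hτ0.le
    rw [← Real.rpow_mul h0.le, one_div_mul_cancel hτ0.ne', Real.rpow_one] at h4
    calc A * K = η / 2 * (2 * A * K / η) := by field_simp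
      _ ≤ η / 2 * T ^ (τ - 1) := mul_le_mul_of_nonneg_left h4 (by positivity)
  obtain ⟨φ, hφ⟩ : ∃ φ, φ = Real.pi / 2 - 1 / T := ⟨_, rfl⟩
  obtain ⟨ha1, ha2, ha3⟩ := ZMs_ang T φ hT2 hφ
  have hσ1 : 1 ≤ σ := by linarith
  obtain ⟨c1, hc1⟩ : ∃ c1, c1 = c * Real.exp (-4) * (Real.pi * κ) ^ (-(2 * σ)) *
      T ^ (2 * σ - 1) := ⟨_, rfl⟩
  have hc10 : 0 < c1 := by
    rw [hc1]
    have e1 : 0 < (Real.pi * κ) ^ (-(2 * σ)) := Real.rpow_pos_of_pos hpk _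
    have e2 : 0 < T ^ (2 * σ - 1) := Real.rpow_pos_of_pos hT0 _
    positivity
  have hpt : ∀ t ∈ Set.Ioc T (2 * T),
      ENNReal.ofReal c1 * ‖LG a κ (σ + t * I) * MD D μ (σ + t * I) - 1‖ₑ ^ 2 ≤
        ‖mellin (fun y : ℝ => GD D μ a κ (y * ei φ)) ((σ : ℂ) + t * I)‖ₑ ^ 2 := by
    intro t ht
    have hre : 0 < ((σ : ℂ) + t * I).re := by
      simp
      linarith
    rw [(gd_mellin a κ ε h D μ hD φ ha1 ((σ : ℂ) + t * I) hre).2]
    have h5 := ZMs_pt κ c φ σ t T h.κpos hT0 hφ hσ1 ht.1.le ht.2 hc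
      (hgam σ t hσ1 hσ3 (by linarith [ht.1])) (LG a κ (σ + t * I) * MD D μ (σ + t * I) - 1)
    rw [← hc1] at h5
    have h6 := ENNReal.ofReal_le_ofReal h5
    rw [ENNReal.ofReal_mul hc10.le, ENNReal.ofReal_pow (norm_nonneg _),
      ENNReal.ofReal_pow (norm_nonneg _), ofReal_norm, ofReal_norm] at h6
    exact h6
  have hI : ENNReal.ofReal c1 * ∫⁻ t in Set.Ioc T (2 * T),
      ‖LG a κ (σ + t * I) * MD D μ (σ + t * I) - 1‖ₑ ^ 2 ≤
      ENNReal.ofReal (2 * Real.pi * (η' * (Real.cos φ) ^ (-(2 * σ)) +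
        K * (Real.cos φ) ^ (-(2 * ((1 + τ) / 2))))) := by
    rw [← lintegral_const_mul' _ _ ENNReal.ofReal_ne_top]
    calc ∫⁻ t in Set.Ioc T (2 * T), ENNReal.ofReal c1 *
          ‖LG a κ (σ + t * I) * MD D μ (σ + t * I) - 1‖ₑ ^ 2
        ≤ ∫⁻ t in Set.Ioc T (2 * T),
          ‖mellin (fun y : ℝ => GD D μ a κ (y * ei φ)) ((σ : ℂ) + t * I)‖ₑ ^ 2 :=
          setLIntegral_mono' measurableSet_Ioc hpt
      _ ≤ ∫⁻ t : ℝ, ‖mellin (fun y : ℝ => GD D μ a κ (y * ei φ)) ((σ : ℂ) + t * I)‖ₑ ^ 2 :=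
          setLIntegral_le_lintegral _ _
      _ ≤ ENNReal.ofReal (2 * Real.pi) * ∫⁻ y in Set.Ioi (0 : ℝ),
          ‖GD D μ a κ (y * ei φ)‖ₑ ^ 2 * ENNReal.ofReal (y ^ (2 * σ - 1)) :=
          pla_mellin _ σ (gd_mellin a κ ε h D μ hD φ ha1 (σ : ℂ) (by simp; linarith)).1
      _ ≤ ENNReal.ofReal (2 * Real.pi) * ENNReal.ofReal (η' * (Real.cos φ) ^ (-(2 * σ)) +
          K * (Real.cos φ) ^ (-(2 * ((1 + τ) / 2)))) :=
          mul_le_mul_right (hsq φ σ ha1 ha2 (by linarith) hσ3) _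
      _ = _ := (ENNReal.ofReal_mul (by positivity)).symm
  have hnum := ZMs_num c (Real.pi * κ) K η η' σ τ ((1 + τ) / 2) T (Real.cos φ) hc hpk hK hη hη'.le
    hτ rfl hσ hσ3 hT2 ha3 (by rw [← hA]; exact hη'2) (by rw [← hA]; exact hTK)
  rw [← hc1] at hnum
  calc ∫⁻ t in Set.Ioc T (2 * T), ‖LG a κ (σ + t * I) * MD D μ (σ + t * I) - 1‖ₑ ^ 2
      = ENNReal.ofReal c1⁻¹ * (ENNReal.ofReal c1 * ∫⁻ t in Set.Ioc T (2 * T),
          ‖LG a κ (σ + t * I) * MD D μ (σ + t * I) - 1‖ₑ ^ 2) := by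
        rw [← mul_assoc, ← ENNReal.ofReal_mul (by positivity), inv_mul_cancel₀ hc10.ne',
          ENNReal.ofReal_one, one_mul]
    _ ≤ ENNReal.ofReal c1⁻¹ * ENNReal.ofReal (2 * Real.pi * (η' * (Real.cos φ) ^ (-(2 * σ)) +
        K * (Real.cos φ) ^ (-(2 * ((1 + τ) / 2))))) := mul_le_mul_right hI _
    _ = ENNReal.ofReal (c1⁻¹ * (2 * Real.pi * (η' * (Real.cos φ) ^ (-(2 * σ)) +
        K * (Real.cos φ) ^ (-(2 * ((1 + τ) / 2)))))) := by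
        rw [← ENNReal.ofReal_mul (by positivity)]
    _ ≤ ENNReal.ofReal (η * T) := ENNReal.ofReal_le_ofReal hnum

end W3283z
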