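import Pool.Agent.W_3283e1_zd.JenD
import Pool.Agent.W_3283e1_zd.ZMs
import Pool.Agent.W_3283e1_v3.FamG

set_option autoImplicit false

namespace W3283z

open Complex W3283e1 W3283f MeasureTheory Filter Topology

theorem ZFin_conj (a : ℕ → ℝ) (κ ε : ℝ) (h : ThData a κ ε) (s : ℂ) :
    LG a κ ((starRingEnd ℂ) s) = (starRingEnd ℂ) (LG a κ s) := by
  unfold LG
  have hpk := LG_pk_pos κ h.κpos
  have h1 : ((Real.pi * κ : ℝ) : ℂ) ^ ((starRingEnd ℂ) s) =
      (starRingEnd ℂ) (((Real.pi * κ : ℝ) : ℂ) ^ s) := by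
    rw [Complex.cpow_conj _ _ (by
      rw [Complex.arg_ofReal_of_nonneg hpk.le]
      exact Real.pi_pos.ne), Complex.conj_ofReal]
  have h2 : mellin (fun t => (Th a κ t : ℂ)) ((starRingEnd ℂ) s) =
      (starRingEnd ℂ) (mellin (fun t => (Th a κ t : ℂ)) s) := by
    unfold mellin
    rw [← integral_conj]
    refine setIntegral_congr_fun measurableSet_Ioi fun t ht => ?_
    have ht0 : (0 : ℝ) < t := ht
    show (t : ℂ) ^ ((starRingEnd ℂ) s - 1) • (Th a κ t : ℂ) =
      (starRingEnd ℂ) ((t : ℂ) ^ (s - 1) • (Th a κ t : ℂ))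
    have h3 : (starRingEnd ℂ) s - 1 = (starRingEnd ℂ) (s - 1) := by simp
    rw [h3, Complex.cpow_conj _ _ (by
      rw [Complex.arg_ofReal_of_nonneg ht0.le]
      exact Real.pi_pos.ne), Complex.conj_ofReal, smul_eq_mul, smul_eq_mul, map_mul,
      Complex.conj_ofReal]
  rw [h1, h2, Complex.Gamma_conj]
  simp only [map_mul, map_inv₀]

theorem ZFin_MDconj (D : Finset ℕ) (μ : ℕ → ℝ) (s : ℂ) :
    MD D μ ((starRingEnd ℂ) s) = (starRingEnd ℂ) (MD D μ s) := by
  unfold MD
  rw [map_sum]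
  refine Finset.sum_congr rfl fun d _ => ?_
  rw [map_mul, Complex.conj_ofReal]
  congr 1
  have h1 : -(starRingEnd ℂ) s = (starRingEnd ℂ) (-s) := by simp
  have h2 : (d : ℂ) = ((d : ℝ) : ℂ) := by simp
  rw [h1, h2, Complex.cpow_conj _ _ (by
    rw [Complex.arg_ofReal_of_nonneg (Nat.cast_nonneg d)]
    exact Real.pi_pos.ne), Complex.conj_ofReal]

theorem ZFin_MDdiff (D : Finset ℕ) (μ : ℕ → ℝ) (hD : ∀ d ∈ D, 0 < d) :
    Differentiable ℂ (MD D μ) := by
  unfold MD
  refine Differentiable.fun_sum fun d hd => ?_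
  refine (differentiable_const _).mul ?_
  intro s
  exact DifferentiableAt.const_cpow differentiableAt_id.neg
    (Or.inl (by exact_mod_cast (hD d hd).ne'))

/-- Dyadic blocks. -/
theorem ZFin_dy (g : ℝ → ℝ) (hg : Continuous g) (T0 B : ℝ) (hT0 : 1 ≤ T0) (hB : 0 ≤ B)
    (hg0 : ∀ t, 0 ≤ g t) (h : ∀ T, T0 ≤ T → ∫ t in Set.Ioc T (2 * T), g t ≤ B * T) :
    ∀ T, T0 ≤ T → ∫ t in Set.Ioc T0 T, g t ≤ 2 * B * T := by
  have key : ∀ k : ℕ, ∀ T, T0 ≤ T → T ≤ 2 ^ k * T0 → ∫ t in Set.Ioc T0 T, g t ≤ 2 * B * T := by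
    intro k
    induction k with
    | zero =>
      intro T h1 h2
      have h3 : T = T0 := le_antisymm (by simpa using h2) h1
      subst h3
      rw [Set.Ioc_self, Measure.restrict_empty, integral_zero_measure]
      positivity
    | succ k ih =>
      intro T h1 h2
      by_cases hT : T ≤ 2 * T0
      · calc ∫ t in Set.Ioc T0 T, g t ≤ ∫ t in Set.Ioc T0 (2 * T0), g t :=
            setIntegral_mono_set (hg.integrableOn_Ioc) (Eventually.of_forall hg0)
              (Eventually.of_forall (Set.Ioc_subset_Ioc_right hT))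
          _ ≤ B * T0 := h T0 le_rfl
          _ ≤ 2 * B * T := by nlinarith
      · push Not at hT
        have h3 := ih (T / 2) (by linarith) (by
          rw [pow_succ] at h2
          linarith)
        have h4 := h (T / 2) (by linarith)
        have h5 : 2 * (T / 2) = T := by ring
        rw [h5] at h4
        have h6 : Set.Ioc T0 T = Set.Ioc T0 (T / 2) ∪ Set.Ioc (T / 2) T :=
          (Set.Ioc_union_Ioc_eq_Ioc (by linarith) (by linarith)).symm
        rw [h6, setIntegral_union (Set.Ioc_disjoint_Ioc_of_le le_rfl) measurableSet_Ioc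
          hg.integrableOn_Ioc hg.integrableOn_Ioc]
        have h7 : 0 ≤ B * T := mul_nonneg hB (by linarith)
        nlinarith
  intro T hT
  obtain ⟨k, hk⟩ := pow_unbounded_of_one_lt (T / T0) (one_lt_two (α := ℝ))
  exact key k T hT ((div_le_iff₀ (by linarith)).1 hk.le)

/-- The mean square in the form needed for the zeros. -/
theorem ms1 (a : ℕ → ℝ) (κ ε : ℝ) (h : ThData a κ ε) (hM : Mol a) :
    MS1 (fun w => LG a κ (1 + w)) := by
  intro d' e hd' he
  obtain ⟨d, hdd⟩ : ∃ d : ℝ, d = min d' 1 := ⟨_, rfl⟩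
  have hd : 0 < d := by rw [hdd]; exact lt_min hd' (by norm_num)
  have hd1 : d ≤ 1 := by rw [hdd]; exact min_le_right _ _
  have hd2 : d ≤ d' := by rw [hdd]; exact min_le_left _ _
  obtain ⟨η, hηd⟩ : ∃ η : ℝ, η = min (e / 8) (1 / 2) := ⟨_, rfl⟩
  have hη : 0 < η := by rw [hηd]; exact lt_min (by positivity) (by norm_num)
  have hη1 : η ≤ 1 / 2 := by rw [hηd]; exact min_le_right _ _
  have hη2 : η ≤ e / 8 := by rw [hηd]; exact min_le_left _ _
  obtain ⟨D, μ, T0, hD, hT0, hc, hms⟩ := ms a κ ε h hM (1 + d) (by linarith) (by linarith) η hη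
  have hLd := LG_diff a κ ε h
  have hMDd := ZFin_MDdiff D μ hD
  set G : ℂ → ℂ := fun s => LG a κ s * MD D μ s - 1 with hG
  have hGd : Differentiable ℂ G := (hLd.mul hMDd).sub_const 1
  have hGc : ∀ s : ℂ, ‖G ((starRingEnd ℂ) s)‖ = ‖G s‖ := by
    intro s
    have h1 : G ((starRingEnd ℂ) s) = (starRingEnd ℂ) (G s) := by
      simp only [hG]
      rw [ZFin_conj a κ ε h s, ZFin_MDconj, map_sub, map_mul, map_one]
    rw [h1, RCLike.norm_conj]
  -- the compact part
  obtain ⟨K, hK⟩ : ∃ K : ℝ, ∀ p ∈ (Set.Icc (1 : ℝ) 3 ×ˢ Set.Icc (-T0) T0),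
      ‖G ((p.1 : ℂ) + p.2 * I)‖ ^ 2 ≤ K := by
    have h1 : Continuous (fun p : ℝ × ℝ => ‖G ((p.1 : ℂ) + p.2 * I)‖ ^ 2) := by
      have h2 : Continuous (fun p : ℝ × ℝ => (p.1 : ℂ) + p.2 * I) := by fun_prop
      exact ((hGd.continuous.comp h2).norm).pow 2
    obtain ⟨K, hK⟩ := (isCompact_Icc.prod isCompact_Icc).bddAbove_image h1.continuousOn
    exact ⟨K, fun p hp => hK (Set.mem_image_of_mem _ hp)⟩
  refine ⟨fun w => MD D μ (1 + w), max T0 (2 * (|K| * (2 * T0)) / e), ?_, ?_, ?_⟩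
  · exact hMDd.comp (differentiable_id.const_add 1)
  · intro t
    have h1 := hc t
    have h2 : (1 : ℂ) + (1 + t * I) = 2 + t * I := by ring
    show ‖LG a κ (1 + (1 + t * I)) * MD D μ (1 + (1 + t * I)) - 1‖ ≤ 1 / 2
    rw [h2]
    exact h1.trans hη1
  · intro T hT σ hσ hσ2
    have hT1 : T0 ≤ T := (le_max_left _ _).trans hT
    have hT2 : 2 * (|K| * (2 * T0)) / e ≤ T := (le_max_right _ _).trans hT
    rw [div_le_iff₀ he] at hT2
    set g : ℝ → ℝ := fun t => ‖G (((1 + σ : ℝ) : ℂ) + t * I)‖ ^ 2 with hg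
    have hgc : Continuous g := by
      have h2 : Continuous (fun t : ℝ => ((1 + σ : ℝ) : ℂ) + t * I) := by fun_prop
      exact ((hGd.continuous.comp h2).norm).pow 2
    have hg0 : ∀ t, 0 ≤ g t := fun t => by positivity
    have hge : ∀ t, g (-t) = g t := by
      intro t
      have h1 : ((1 + σ : ℝ) : ℂ) + ((-t : ℝ) : ℂ) * I =
          (starRingEnd ℂ) (((1 + σ : ℝ) : ℂ) + t * I) := by
        rw [map_add, map_mul, Complex.conj_ofReal, Complex.conj_ofReal, Complex.conj_I]
        push_cast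
        ring
      simp only [hg]
      rw [h1, hGc]
    have hblock : ∀ T, T0 ≤ T → ∫ t in Set.Ioc T (2 * T), g t ≤ η * T := by
      intro T hT
      have h1 := hms T (1 + σ) hT (by linarith) (by linarith)
      have h2 : ∫⁻ t in Set.Ioc T (2 * T), ‖LG a κ (((1 + σ : ℝ) : ℂ) + t * I) *
          MD D μ (((1 + σ : ℝ) : ℂ) + t * I) - 1‖ₑ ^ 2 =
          ∫⁻ t in Set.Ioc T (2 * T), ENNReal.ofReal (g t) := by
        refine lintegral_congr fun t => ?_
        simp only [hg]
        rw [ENNReal.ofReal_pow (norm_nonneg _), ofReal_norm]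
      rw [h2] at h1
      rw [integral_eq_lintegral_of_nonneg_ae (Eventually.of_forall hg0)
        hgc.aestronglyMeasurable.restrict]
      exact ENNReal.toReal_le_of_le_ofReal (by nlinarith) h1
    have hdy := ZFin_dy g hgc T0 η hT0 hη.le hg0 hblock T hT1
    have hmain : ∫ t in Set.Icc (-T) T, g t ≤ e * T := by
      have e1 : ∫ t in Set.Icc (-T) T, g t = (∫ t in Set.Ioc (-T) (-T0), g t) +
          (∫ t in Set.Ioc (-T0) T0, g t) + ∫ t in Set.Ioc T0 T, g t := by
        rw [integral_Icc_eq_integral_Ioc,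
          ← Set.Ioc_union_Ioc_eq_Ioc (show -T ≤ -T0 by linarith) (show -T0 ≤ T by linarith),
          setIntegral_union (Set.Ioc_disjoint_Ioc_of_le le_rfl) measurableSet_Ioc
            hgc.integrableOn_Ioc hgc.integrableOn_Ioc,
          ← Set.Ioc_union_Ioc_eq_Ioc (show -T0 ≤ T0 by linarith) hT1,
          setIntegral_union (Set.Ioc_disjoint_Ioc_of_le le_rfl) measurableSet_Ioc
            hgc.integrableOn_Ioc hgc.integrableOn_Ioc]
        ring
      have e2 : ∫ t in Set.Ioc (-T) (-T0), g t = ∫ t in Set.Ioc T0 T, g t := by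
        rw [← intervalIntegral.integral_of_le (by linarith), ← intervalIntegral.integral_of_le hT1]
        rw [← intervalIntegral.integral_comp_neg (fun t => g t)]
        simp only [hge]
      have e3 : ∫ t in Set.Ioc (-T0) T0, g t ≤ |K| * (2 * T0) := by
        have h1 : ∫ t in Set.Ioc (-T0) T0, g t ≤ ∫ _t in Set.Ioc (-T0) T0, |K| := by
          refine setIntegral_mono_on hgc.integrableOn_Ioc (continuous_const.integrableOn_Ioc)
            measurableSet_Ioc fun t ht => ?_
          have h2 := hK ((1 + σ : ℝ), t) ⟨⟨by simpa using (hd.le.trans hd2).trans hσ,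
            by simpa using (by linarith : 1 + σ ≤ 3)⟩, ⟨ht.1.le, ht.2⟩⟩
          exact h2.trans (le_abs_self K)
        rw [setIntegral_const, Real.volume_real_Ioc_of_le (by linarith), smul_eq_mul] at h1
        linarith
      rw [e1, e2]
      nlinarith
    have h3 : ∀ t : ℝ, ‖(fun w => LG a κ (1 + w)) ((σ : ℂ) + t * I) *
        MD D μ (1 + ((σ : ℂ) + t * I)) - 1‖ ^ 2 = g t := by
      intro t
      simp only [hg, hG]
      have h4 : (1 : ℂ) + ((σ : ℂ) + t * I) = ((1 + σ : ℝ) : ℂ) + t * I := by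
        push_cast
        ring
      rw [h4]
    simp only [h3]
    exact hmain

/-- The density hypothesis for the zeros of the family. -/
theorem dens_fam (n j : ℕ) (hj : j = 0 ∨ j = 1) (hn : Odd n) (hs : Squarefree n)
    (hM : Mol (aFam n j)) : W3283v.Dens (W3283v.laF n j) := by
  have hT := thData_fam n j hj hn hs
  refine dens_of1 (fun w => LG (aFam n j) (kF n j) (1 + w)) ?_ (ms1 _ _ _ hT hM) _ ?_ ?_ ?_
  · exact (LG_diff _ _ _ hT).comp (differentiable_id.const_add 1)
  · intro x y hxy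
    exact Subtype.ext hxy
  · intro i
    have h0 : (0 : ℝ) ≤ (W3283v.laF n j i).re := by
      rcases i.2.1 with h1 | h1
      · exact h1.le
      · exact h1.1.ge
    exact LamG_zero _ _ _ hT _ (by linarith) i.2.2
  · intro i
    exact (le_abs_self _).trans (W3283v.fam_re n j hj hn hs _ i.2.2)

end W3283z
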