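import Mathlib

set_option autoImplicit false

namespace W3283z

open Complex MeasureTheory Filter Topology Metric

/-- Jensen's formula as a bound for the number of distinct zeros. -/
theorem jen (h : ℂ → ℂ) (c : ℂ) (r1 R : ℝ) (hr : 0 < r1) (hR : r1 < R)
    (hh : AnalyticOnNhd ℂ h (closedBall c R)) (hc : h c ≠ 0) (S : Finset ℂ)
    (hS : ∀ z ∈ S, h z = 0 ∧ ‖z - c‖ ≤ r1) :
    (S.card : ℝ) * Real.log (R / r1) ≤
      Real.circleAverage (fun z => Real.log ‖h z‖) c R - Real.log ‖h c‖ := by
  have hR0 : 0 < R := hr.trans hR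
  have habs : |R| = R := abs_of_pos hR0
  have hh' : AnalyticOnNhd ℂ h (closedBall c |R|) := by rw [habs]; exact hh
  have key := AnalyticOnNhd.circleAverage_log_norm hR0.ne' hh' hc
  rw [key, add_sub_cancel_right, habs]
  set D := MeromorphicOn.divisor h (closedBall c R) with hD
  set F : ℂ → ℝ := fun u => (D u : ℝ) * Real.log (R * ‖c - u‖⁻¹) with hF
  have hlogR : 0 < Real.log (R / r1) := Real.log_pos ((one_lt_div hr).2 hR)
  have hF0 : ∀ u, 0 ≤ F u := by
    intro u
    by_cases hu : u ∈ closedBall c R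
    · by_cases huc : u = c
      · have h0 : F u = 0 := by
          show (D u : ℝ) * Real.log (R * ‖c - u‖⁻¹) = 0
          rw [huc]
          simp
        exact h0.ge
      · refine mul_nonneg (by exact_mod_cast (MeromorphicOn.AnalyticOnNhd.divisor_nonneg hh) u) ?_
        apply Real.log_nonneg
        have h1 : 0 < ‖c - u‖ := norm_pos_iff.2 (sub_ne_zero.2 (Ne.symm huc))
        rw [← div_eq_mul_inv, le_div_iff₀ h1, one_mul]
        rw [mem_closedBall, dist_comm, dist_eq_norm] at hu
        exact hu
    · show 0 ≤ (D u : ℝ) * Real.log (R * ‖c - u‖⁻¹)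
      rw [Function.locallyFinsuppWithin.apply_eq_zero_of_notMem D hu]
      simp
  have hfin : (Function.support F).Finite := by
    refine (D.finiteSupport (isCompact_closedBall c R)).subset fun u hu => ?_
    intro h0
    apply hu
    rw [hF]
    show (D u : ℝ) * _ = 0
    rw [h0]
    simp
  have hFS : ∀ u ∈ S, Real.log (R / r1) ≤ F u := by
    intro u hu
    obtain ⟨h1, h2⟩ := hS u hu
    have huR : u ∈ closedBall c R := by
      rw [mem_closedBall, dist_eq_norm]
      linarith
    have huc : u ≠ c := by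
      rintro rfl
      exact hc h1
    have hord : (1 : ℝ) ≤ (D u : ℝ) := by
      have hne : analyticOrderAt h u ≠ 0 := by
        intro h4
        exact (hh u huR).analyticOrderAt_eq_zero.1 h4 h1
      have htop : analyticOrderAt h u ≠ ⊤ := by
        intro h4
        have h5 : ∀ᶠ z in 𝓝 u, h z = 0 := analyticOrderAt_eq_top.1 h4
        have h6 := hh.eqOn_zero_of_preconnected_of_eventuallyEq_zero
          (convex_closedBall c R).isPreconnected huR h5
        exact hc (h6 (mem_closedBall_self hR0.le))
      obtain ⟨n, hn⟩ := ENat.ne_top_iff_exists.1 htop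
      have h3 : D u = (n : ℤ) := by
        rw [hD, MeromorphicOn.AnalyticOnNhd.divisor_apply hh huR, ← hn]
        rfl
      rw [h3]
      have h7 : n ≠ 0 := by
        rintro rfl
        exact hne hn.symm
      exact_mod_cast Nat.one_le_iff_ne_zero.2 h7
    have h1 : 0 < ‖c - u‖ := norm_pos_iff.2 (sub_ne_zero.2 (Ne.symm huc))
    have h3 : Real.log (R / r1) ≤ Real.log (R * ‖c - u‖⁻¹) := by
      apply Real.log_le_log (by positivity)
      rw [← div_eq_mul_inv]
      apply div_le_div_of_nonneg_left hR0.le h1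
      rw [norm_sub_rev]
      exact h2
    rw [hF]
    calc Real.log (R / r1) = 1 * Real.log (R / r1) := (one_mul _).symm
      _ ≤ (D u : ℝ) * Real.log (R * ‖c - u‖⁻¹) := mul_le_mul hord h3 hlogR.le (by linarith)
  classical
  have hsup : Function.support F ⊆ ((hfin.toFinset ∪ S : Finset ℂ) : Set ℂ) := by
    intro u hu
    rw [Finset.coe_union]
    exact Or.inl (by simpa using hu)
  show (S.card : ℝ) * Real.log (R / r1) ≤ ∑ᶠ u, F u
  rw [finsum_eq_sum_of_support_subset F hsup]
  calc (S.card : ℝ) * Real.log (R / r1) = ∑ _u ∈ S, Real.log (R / r1) := by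
        rw [Finset.sum_const, nsmul_eq_mul]
    _ ≤ ∑ u ∈ S, F u := Finset.sum_le_sum hFS
    _ ≤ ∑ u ∈ hfin.toFinset ∪ S, F u :=
        Finset.sum_le_sum_of_subset_of_nonneg Finset.subset_union_right fun u _ _ => hF0 u

end W3283z
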