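import Pool.Agent.W_3283e1_zd.JenA

set_option autoImplicit false

namespace W3283z

open Complex MeasureTheory Filter Topology Metric

/-- Number of zeros of `1 - F²` in a disc in terms of the mean square of `F` on a bigger circle. -/
theorem jenB_disc (F : ℂ → ℂ) (hF : Differentiable ℂ F) (c : ℂ) (r1 R : ℝ) (hr : 0 < r1)
    (hR : r1 < R) (hc : ‖F c‖ ≤ 1 / 2) (S : Finset ℂ) (hS : ∀ z ∈ S, F z = -1 ∧ ‖z - c‖ ≤ r1) :
    (S.card : ℝ) * Real.log (R / r1) ≤
      Real.circleAverage (fun z => ‖F z‖ ^ 2) c R + 2 * ‖F c‖ ^ 2 := by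
  have hR0 : 0 < R := hr.trans hR
  set h : ℂ → ℂ := fun z => 1 - F z ^ 2 with hh
  have hd : Differentiable ℂ h := (differentiable_const _).sub (hF.pow 2)
  have hx : ‖F c‖ ^ 2 ≤ 1 / 4 := by
    have := norm_nonneg (F c)
    nlinarith
  have hlow : 1 - ‖F c‖ ^ 2 ≤ ‖h c‖ := by
    have h1 : ‖(1 : ℂ)‖ - ‖F c ^ 2‖ ≤ ‖1 - F c ^ 2‖ := norm_sub_norm_le _ _
    rw [norm_one, norm_pow] at h1
    exact h1
  have hc0 : h c ≠ 0 := by
    intro h0
    rw [h0, norm_zero] at hlow
    linarith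
  have key := jen h c r1 R hr hR (hd.differentiableOn.analyticOnNhd isOpen_univ |>.mono
    (Set.subset_univ _)) hc0 S (by
      intro z hz
      refine ⟨?_, (hS z hz).2⟩
      show 1 - F z ^ 2 = 0
      rw [(hS z hz).1]
      ring)
  have h1 : Real.circleAverage (fun z => Real.log ‖h z‖) c R ≤
      Real.circleAverage (fun z => ‖F z‖ ^ 2) c R := by
    refine Real.circleAverage_mono ?_ ?_ ?_
    · refine MeromorphicOn.circleIntegrable_log_norm ?_
      intro z _
      exact (hd.analyticAt z).meromorphicAt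
    · exact (ContinuousOn.circleIntegrable' (by
        exact ((hF.continuous.norm).pow 2).continuousOn))
    · intro z _
      by_cases h0 : h z = 0
      · rw [h0, norm_zero, Real.log_zero]
        positivity
      · have h2 := Real.log_le_sub_one_of_pos (norm_pos_iff.2 h0)
        have h3 : ‖h z‖ ≤ 1 + ‖F z‖ ^ 2 := by
          refine (norm_sub_le _ _).trans ?_
          rw [norm_one, norm_pow]
        linarith
  have h2 : -Real.log ‖h c‖ ≤ 2 * ‖F c‖ ^ 2 := by
    have hp : 0 < 1 - ‖F c‖ ^ 2 := by linarith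
    have h3 : Real.log (1 - ‖F c‖ ^ 2) ≤ Real.log ‖h c‖ := Real.log_le_log hp hlow
    have h4 := Real.log_le_sub_one_of_pos (inv_pos.2 hp)
    rw [Real.log_inv] at h4
    have h5 : (1 - ‖F c‖ ^ 2)⁻¹ ≤ 1 + 2 * ‖F c‖ ^ 2 := by
      rw [inv_le_iff_one_le_mul₀ hp]
      have := sq_nonneg ‖F c‖
      nlinarith
    linarith
  linarith

/-- Mean of the circle averages over the centres `3 + τ i`, `|τ| ≤ t`. -/
theorem jenB_fub (F : ℂ → ℂ) (hF : Differentiable ℂ F) (R t B : ℝ) (hR : 0 < R) (hR3 : R < 3)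
    (ht : 0 ≤ t) (d : ℝ) (hd : d ≤ 3 - R)
    (hB : ∀ σ : ℝ, d ≤ σ → σ ≤ 6 →
      ∫ u in Set.Icc (-(t + R)) (t + R), ‖F ((σ : ℂ) + u * I)‖ ^ 2 ≤ B) :
    ∫ τ in Set.Icc (-t) t, Real.circleAverage (fun z => ‖F z‖ ^ 2) ((3 : ℂ) + τ * I) R ≤ B := by
  have hpi := Real.pi_pos
  have hcont : Continuous (fun p : ℝ × ℝ => ‖F (circleMap ((3 : ℂ) + p.1 * I) R p.2)‖ ^ 2) := by
    have h1 : Continuous (fun p : ℝ × ℝ => circleMap ((3 : ℂ) + p.1 * I) R p.2) := by
      unfold circleMap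
      fun_prop
    exact ((hF.continuous.comp h1).norm).pow 2
  -- the integral over the centres for a fixed angle
  have hθ : ∀ θ : ℝ, ∫ τ in Set.Icc (-t) t, ‖F (circleMap ((3 : ℂ) + τ * I) R θ)‖ ^ 2 ≤ B := by
    intro θ
    have hs : |Real.sin θ| ≤ 1 := Real.abs_sin_le_one θ
    have hc := abs_le.1 (Real.abs_cos_le_one θ)
    have h1 : ∀ τ : ℝ, circleMap ((3 : ℂ) + τ * I) R θ =
        (((3 + R * Real.cos θ : ℝ) : ℂ)) + ((τ + R * Real.sin θ : ℝ) : ℂ) * I := by
      intro τ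
      unfold circleMap
      rw [Complex.exp_mul_I]
      push_cast
      ring
    simp only [h1]
    set g : ℝ → ℝ := fun u => ‖F ((((3 + R * Real.cos θ : ℝ) : ℂ)) + (u : ℂ) * I)‖ ^ 2 with hg
    have hgc : Continuous g := by
      have h2 : Continuous (fun u : ℝ => (((3 + R * Real.cos θ : ℝ) : ℂ)) + (u : ℂ) * I) := by
        fun_prop
      exact ((hF.continuous.comp h2).norm).pow 2
    have hg0 : ∀ u, 0 ≤ g u := fun u => by positivity
    have h2 : ∫ τ in Set.Icc (-t) t, g (τ + R * Real.sin θ) =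
        ∫ u in Set.Icc (-t + R * Real.sin θ) (t + R * Real.sin θ), g u := by
      rw [integral_Icc_eq_integral_Ioc, integral_Icc_eq_integral_Ioc,
        ← intervalIntegral.integral_of_le (by linarith),
        ← intervalIntegral.integral_of_le (by linarith),
        intervalIntegral.integral_comp_add_right (fun u => g u)]
    have h3 : Set.Icc (-t + R * Real.sin θ) (t + R * Real.sin θ) ⊆ Set.Icc (-(t + R)) (t + R) := by
      have := abs_le.1 hs
      apply Set.Icc_subset_Icc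
      · nlinarith
      · nlinarith
    calc ∫ τ in Set.Icc (-t) t, ‖F ((((3 + R * Real.cos θ : ℝ) : ℂ)) +
            ((τ + R * Real.sin θ : ℝ) : ℂ) * I)‖ ^ 2
        = ∫ τ in Set.Icc (-t) t, g (τ + R * Real.sin θ) := rfl
      _ = ∫ u in Set.Icc (-t + R * Real.sin θ) (t + R * Real.sin θ), g u := h2
      _ ≤ ∫ u in Set.Icc (-(t + R)) (t + R), g u :=
          setIntegral_mono_set (hgc.integrableOn_Icc) (Eventually.of_forall hg0)
            (Eventually.of_forall h3)
      _ ≤ B := hB _ (by nlinarith) (by nlinarith)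
  -- Fubini
  have hint : Integrable (Function.uncurry (fun τ θ : ℝ => ‖F (circleMap ((3 : ℂ) + τ * I) R θ)‖ ^ 2))
      ((volume.restrict (Set.Icc (-t) t)).prod (volume.restrict (Set.Ioc 0 (2 * Real.pi)))) := by
    rw [Measure.prod_restrict]
    have h1 : IntegrableOn (fun p : ℝ × ℝ => ‖F (circleMap ((3 : ℂ) + p.1 * I) R p.2)‖ ^ 2)
        (Set.Icc (-t) t ×ˢ Set.Icc 0 (2 * Real.pi)) :=
      hcont.continuousOn.integrableOn_compact (isCompact_Icc.prod isCompact_Icc)
    exact h1.mono_set (Set.prod_mono le_rfl Set.Ioc_subset_Icc_self)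
  have h1 : ∀ τ : ℝ, Real.circleAverage (fun z => ‖F z‖ ^ 2) ((3 : ℂ) + τ * I) R =
      (2 * Real.pi)⁻¹ * ∫ θ in Set.Ioc 0 (2 * Real.pi),
        ‖F (circleMap ((3 : ℂ) + τ * I) R θ)‖ ^ 2 := by
    intro τ
    rw [Real.circleAverage_def, intervalIntegral.integral_of_le (by positivity), smul_eq_mul]
  simp only [h1]
  rw [integral_const_mul, integral_integral_swap hint]
  have h2 : ∫ θ in Set.Ioc 0 (2 * Real.pi), ∫ τ in Set.Icc (-t) t,
      ‖F (circleMap ((3 : ℂ) + τ * I) R θ)‖ ^ 2 ≤ ∫ _θ in Set.Ioc 0 (2 * Real.pi), B := by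
    refine integral_mono ?_ ?_ hθ
    · exact hint.integral_prod_right
    · exact integrable_const _
  rw [setIntegral_const] at h2
  have h3 : (volume.real (Set.Ioc 0 (2 * Real.pi))) = 2 * Real.pi := by
    rw [Real.volume_real_Ioc_of_le (by positivity)]
    ring
  rw [h3, smul_eq_mul] at h2
  calc (2 * Real.pi)⁻¹ * ∫ θ in Set.Ioc 0 (2 * Real.pi), ∫ τ in Set.Icc (-t) t,
        ‖F (circleMap ((3 : ℂ) + τ * I) R θ)‖ ^ 2 ≤ (2 * Real.pi)⁻¹ * (2 * Real.pi * B) :=
        mul_le_mul_of_nonneg_left h2 (by positivity)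
    _ = B := by field_simp

end W3283z
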