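import Pool.Agent.W_3283e1_zd.JenB
import Pool.Agent.W_3283e1_v3.Par

set_option autoImplicit false

namespace W3283z

open Complex MeasureTheory Filter Topology Metric

/-- Mean square of `f M - 1` small on vertical lines, for suitable `M`. -/
def MSq (f : ℂ → ℂ) : Prop :=
  ∀ d e : ℝ, 0 < d → 0 < e → ∃ (M : ℂ → ℂ) (T0 : ℝ), Differentiable ℂ M ∧
    (∀ t : ℝ, ‖f (3 + t * I) * M (3 + t * I) - 1‖ ≤ 1 / 2) ∧
    ∀ T : ℝ, T0 ≤ T → ∀ σ : ℝ, d ≤ σ → σ ≤ 6 →
      ∫ t in Set.Icc (-T) T, ‖f (σ + t * I) * M (σ + t * I) - 1‖ ^ 2 ≤ e * T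

theorem jenC_int (F : ℂ → ℂ) (hF : Differentiable ℂ F) (R t : ℝ) :
    IntegrableOn (fun τ : ℝ => Real.circleAverage (fun z => ‖F z‖ ^ 2) ((3 : ℂ) + τ * I) R)
      (Set.Icc (-t) t) := by
  have hcont : Continuous (fun p : ℝ × ℝ => ‖F (circleMap ((3 : ℂ) + p.1 * I) R p.2)‖ ^ 2) := by
    have h1 : Continuous (fun p : ℝ × ℝ => circleMap ((3 : ℂ) + p.1 * I) R p.2) := by
      unfold circleMap
      fun_prop
    exact ((hF.continuous.comp h1).norm).pow 2
  have hint : Integrable (Function.uncurry (fun τ θ : ℝ => ‖F (circleMap ((3 : ℂ) + τ * I) R θ)‖ ^ 2))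
      ((volume.restrict (Set.Icc (-t) t)).prod (volume.restrict (Set.Ioc 0 (2 * Real.pi)))) := by
    rw [Measure.prod_restrict]
    have h1 : IntegrableOn (fun p : ℝ × ℝ => ‖F (circleMap ((3 : ℂ) + p.1 * I) R p.2)‖ ^ 2)
        (Set.Icc (-t) t ×ˢ Set.Icc 0 (2 * Real.pi)) :=
      hcont.continuousOn.integrableOn_compact (isCompact_Icc.prod isCompact_Icc)
    exact h1.mono_set (Set.prod_mono le_rfl Set.Ioc_subset_Icc_self)
  refine (hint.integral_prod_left.const_mul (2 * Real.pi)⁻¹).congr (ae_of_all _ fun τ => ?_)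
  show (2 * Real.pi)⁻¹ * _ = Real.circleAverage (fun z => ‖F z‖ ^ 2) ((3 : ℂ) + τ * I) R
  rw [Real.circleAverage_def, intervalIntegral.integral_of_le (by positivity), smul_eq_mul]
  rfl

/-- The counting inequality. -/
theorem jenC_count {ι : Type} (F : ℂ → ℂ) (hF : Differentiable ℂ F)
    (hc : ∀ τ : ℝ, ‖F ((3 : ℂ) + τ * I)‖ ≤ 1 / 2) (lam : ι → ℂ) (hinj : Function.Injective lam)
    (δ : ℝ) (hδ : 0 < δ) (hδ1 : δ ≤ 1 / 2) (T : Finset ι) (t : ℝ)
    (hT : ∀ i ∈ T, δ < (lam i).re ∧ (lam i).re ≤ 1 / 2 ∧ |(lam i).im| ≤ t ∧ F (lam i) = -1) :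
    (T.card : ℝ) * (2 * δ) * Real.log ((3 - δ / 4) / (3 - δ / 2)) ≤
      ∫ τ in Set.Icc (-(t + 1)) (t + 1), (Real.circleAverage (fun z => ‖F z‖ ^ 2)
        ((3 : ℂ) + τ * I) (3 - δ / 4) + 2 * ‖F ((3 : ℂ) + τ * I)‖ ^ 2) := by
  classical
  set c1 := Real.log ((3 - δ / 4) / (3 - δ / 2)) with hc1
  set J : ι → Set ℝ := fun i => Set.Icc ((lam i).im - δ) ((lam i).im + δ) with hJ
  have hpt : ∀ τ : ℝ, (∑ i ∈ T, (J i).indicator (fun _ => (1 : ℝ)) τ) * c1 ≤
      Real.circleAverage (fun z => ‖F z‖ ^ 2) ((3 : ℂ) + τ * I) (3 - δ / 4) +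
        2 * ‖F ((3 : ℂ) + τ * I)‖ ^ 2 := by
    intro τ
    have h1 : ∑ i ∈ T, (J i).indicator (fun _ => (1 : ℝ)) τ =
        (((T.filter (fun i => τ ∈ J i)).image lam).card : ℝ) := by
      rw [Finset.card_image_of_injective _ hinj, Finset.card_filter]
      push_cast
      refine Finset.sum_congr rfl fun i _ => ?_
      rw [Set.indicator_apply]
    rw [h1]
    refine jenB_disc F hF _ (3 - δ / 2) (3 - δ / 4) (by linarith) (by linarith) (hc τ) _ ?_
    intro z hz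
    obtain ⟨i, hi, rfl⟩ := Finset.mem_image.1 hz
    obtain ⟨hiT, hiJ⟩ := Finset.mem_filter.1 hi
    obtain ⟨h2, h3, h4, h5⟩ := hT i hiT
    refine ⟨h5, ?_⟩
    have h6 : |(lam i).im - τ| ≤ δ := by
      rw [abs_le]
      constructor
      · linarith [hiJ.2]
      · linarith [hiJ.1]
    have h7 : ‖lam i - ((3 : ℂ) + τ * I)‖ ^ 2 = ((lam i).re - 3) ^ 2 + ((lam i).im - τ) ^ 2 := by
      rw [← Complex.normSq_eq_norm_sq, Complex.normSq_apply]
      simp
      ring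
    have h8 : ((lam i).im - τ) ^ 2 ≤ δ ^ 2 := by
      rw [sq_le_sq, abs_of_pos hδ]
      exact h6
    have h9 : ‖lam i - ((3 : ℂ) + τ * I)‖ ^ 2 ≤ (3 - δ / 2) ^ 2 := by
      rw [h7]
      nlinarith
    exact (abs_le_of_sq_le_sq' h9 (by linarith)).2
  have hInt1 : ∀ i ∈ T, IntegrableOn ((J i).indicator (fun _ => (1 : ℝ)))
      (Set.Icc (-(t + 1)) (t + 1)) := fun i _ =>
    (integrable_const (1 : ℝ)).indicator measurableSet_Icc
  have hvol : ∀ i ∈ T, ∫ τ in Set.Icc (-(t + 1)) (t + 1), (J i).indicator (fun _ => (1 : ℝ)) τ =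
      2 * δ := by
    intro i hi
    obtain ⟨h2, h3, h4, h5⟩ := hT i hi
    have h6 := abs_le.1 h4
    rw [setIntegral_indicator measurableSet_Icc]
    have h7 : Set.Icc (-(t + 1)) (t + 1) ∩ J i = J i := by
      rw [Set.inter_eq_right]
      apply Set.Icc_subset_Icc
      · linarith
      · linarith
    rw [h7, setIntegral_const, hJ, Real.volume_real_Icc_of_le (by linarith), smul_eq_mul]
    ring
  have hL : ∫ τ in Set.Icc (-(t + 1)) (t + 1), (∑ i ∈ T, (J i).indicator (fun _ => (1 : ℝ)) τ) * c1 =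
      (T.card : ℝ) * (2 * δ) * c1 := by
    rw [integral_mul_const, integral_finsetSum _ hInt1, Finset.sum_congr rfl hvol,
      Finset.sum_const, nsmul_eq_mul]
  rw [← hL]
  refine integral_mono ?_ ?_ hpt
  · exact (integrable_finsetSum _ hInt1).mul_const c1
  · refine (jenC_int F hF (3 - δ / 4) (t + 1)).add ?_
    have h1 : Continuous (fun τ : ℝ => 2 * ‖F ((3 : ℂ) + τ * I)‖ ^ 2) := by
      have h2 : Continuous (fun τ : ℝ => (3 : ℂ) + (τ : ℂ) * I) := by fun_prop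
      exact continuous_const.mul (((hF.continuous.comp h2).norm).pow 2)
    exact h1.continuousOn.integrableOn_Icc

/-- From the mean square to the density hypothesis. -/
theorem dens_of {ι : Type} (f : ℂ → ℂ) (hf : Differentiable ℂ f) (hM : MSq f) (lam : ι → ℂ)
    (hinj : Function.Injective lam) (hz : ∀ i, f (lam i) = 0) (hre : ∀ i, (lam i).re ≤ 1 / 2) :
    W3283v.Dens lam := by
  intro δ' ν hδ' hν
  obtain ⟨δ, hδd⟩ : ∃ δ : ℝ, δ = min δ' (1 / 2) := ⟨_, rfl⟩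
  have hδ : 0 < δ := by rw [hδd]; exact lt_min hδ' (by norm_num)
  have hδ1 : δ ≤ 1 / 2 := by rw [hδd]; exact min_le_right _ _
  have hδ2 : δ ≤ δ' := by rw [hδd]; exact min_le_left _ _
  set c1 := Real.log ((3 - δ / 4) / (3 - δ / 2)) with hc1
  have hc1p : 0 < c1 := Real.log_pos ((one_lt_div (by linarith)).2 (by linarith))
  obtain ⟨M, T0, hMd, hM3, hMS⟩ := hM (δ / 4) (ν * (2 * δ) * c1 / 3) (by positivity) (by positivity)
  obtain ⟨N, hN⟩ := exists_nat_ge (ν * (|T0| + 4))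
  refine ⟨N, fun T t ht hT => ?_⟩
  set F : ℂ → ℂ := fun w => f w * M w - 1 with hF
  have hFd : Differentiable ℂ F := (hf.mul hMd).sub_const 1
  obtain ⟨t', ht'⟩ : ∃ t' : ℝ, t' = max t |T0| := ⟨_, rfl⟩
  have ht1 : t ≤ t' := by rw [ht']; exact le_max_left _ _
  have ht2 : |T0| ≤ t' := by rw [ht']; exact le_max_right _ _
  have ht3 : t' ≤ t + |T0| := by
    rw [ht']
    exact max_le (by linarith [abs_nonneg T0]) (by linarith)
  have ht0 : T0 ≤ t' := (le_abs_self T0).trans ht2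
  have ht'0 : 0 ≤ t' := ht.trans ht1
  set e := ν * (2 * δ) * c1 / 3 with he
  have he0 : 0 < e := by positivity
  have hcount := jenC_count F hFd hM3 lam hinj δ hδ hδ1 T t' (by
    intro i hi
    obtain ⟨h1, h2⟩ := hT i hi
    refine ⟨lt_of_le_of_lt hδ2 h1, hre i, (Complex.abs_im_le_norm _).trans (h2.trans ht1), ?_⟩
    show f (lam i) * M (lam i) - 1 = -1
    rw [hz i]
    ring)
  have hcirc := jenB_fub F hFd (3 - δ / 4) (t' + 1) (e * (t' + 1 + (3 - δ / 4))) (by linarith)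
    (by linarith) (by linarith) (δ / 4) (by linarith) (fun σ h1 h2 =>
      hMS (t' + 1 + (3 - δ / 4)) (by linarith) σ h1 h2)
  have hline := hMS (t' + 1) (by linarith) 3 (by linarith) (by norm_num)
  have h1 : ∫ τ in Set.Icc (-(t' + 1)) (t' + 1), (Real.circleAverage (fun z => ‖F z‖ ^ 2)
        ((3 : ℂ) + τ * I) (3 - δ / 4) + 2 * ‖F ((3 : ℂ) + τ * I)‖ ^ 2) =
      (∫ τ in Set.Icc (-(t' + 1)) (t' + 1), Real.circleAverage (fun z => ‖F z‖ ^ 2)
        ((3 : ℂ) + τ * I) (3 - δ / 4)) +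
        2 * ∫ τ in Set.Icc (-(t' + 1)) (t' + 1), ‖F ((3 : ℂ) + τ * I)‖ ^ 2 := by
    rw [← integral_const_mul]
    refine integral_add (jenC_int F hFd (3 - δ / 4) (t' + 1)) ?_
    have h1 : Continuous (fun τ : ℝ => 2 * ‖F ((3 : ℂ) + τ * I)‖ ^ 2) := by
      have h2 : Continuous (fun τ : ℝ => (3 : ℂ) + (τ : ℂ) * I) := by fun_prop
      exact continuous_const.mul (((hFd.continuous.comp h2).norm).pow 2)
    exact h1.continuousOn.integrableOn_Icc
  rw [h1] at hcount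
  have h2 : ∫ τ in Set.Icc (-(t' + 1)) (t' + 1), ‖F ((3 : ℂ) + τ * I)‖ ^ 2 ≤ e * (t' + 1) := by
    have h3 : ((3 : ℝ) : ℂ) = (3 : ℂ) := by norm_num
    rw [h3] at hline
    exact hline
  have h4 : (T.card : ℝ) * (2 * δ) * c1 ≤ 3 * e * (t' + 4) := by
    have h5 : e * (t' + 1 + (3 - δ / 4)) ≤ e * (t' + 4) :=
      mul_le_mul_of_nonneg_left (by linarith) he0.le
    have h6 : e * (t' + 1) ≤ e * (t' + 4) := mul_le_mul_of_nonneg_left (by linarith) he0.le
    linarith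
  have h5 : 3 * e * (t' + 4) = (ν * (t' + 4)) * ((2 * δ) * c1) := by
    rw [he]
    ring
  rw [h5, mul_assoc] at h4
  have h6 : (T.card : ℝ) ≤ ν * (t' + 4) := le_of_mul_le_mul_right h4 (by positivity)
  calc (T.card : ℝ) ≤ ν * (t' + 4) := h6
    _ ≤ ν * (t + |T0| + 4) := mul_le_mul_of_nonneg_left (by linarith) hν.le
    _ = ν * t + ν * (|T0| + 4) := by ring
    _ ≤ ν * t + N := by linarith

end W3283z
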