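import Pool.Agent.W_MP_3283e1_h19.EulF

set_option autoImplicit false

/-! The recursions of the coefficients at the primes. -/

namespace W3283z

open Complex W3283e1 W3283f

/-- The recursion at the prime `p`. -/
def RecAt (a : ℕ → ℝ) (p : ℕ) (A q : ℝ) : Prop :=
  (∀ m : ℕ, a (p ^ 2 * m) = A * a (p * m) - q * a m) ∧ ∀ m : ℕ, ¬ p ∣ m → a (p * m) = A * a m

/-- The complex recursion of `cc 1`. -/
theorem rec_cc (p : ℕ) (hp : p.Prime) : ∃ t q : ℂ,
    (∀ m : ℕ, cc 1 (p ^ 2 * m) = t * cc 1 (p * m) - q * cc 1 m) ∧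
      ∀ m : ℕ, ¬ p ∣ m → cc 1 (p * m) = t * cc 1 m := by
  by_cases hp2 : p = 2
  · subst hp2
    refine ⟨0, 0, fun m => ?_, fun m _ => ?_⟩
    · rw [cc_even 1 (2 ^ 2 * m) (by exact ⟨2 * m, by ring⟩)]; simp
    · rw [cc_even 1 (2 * m) (by exact ⟨m, by ring⟩)]; simp
  · have hodd : p % 2 = 1 := hp.eq_two_or_odd.resolve_left hp2
    obtain ⟨t, q, h1, h2⟩ : ∃ t q : ℂ, (∀ e : ℕ, cc 1 (p ^ (e + 2)) =
        t * cc 1 (p ^ (e + 1)) - q * cc 1 (p ^ e)) ∧ cc 1 p = t := by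
      have h4 : p % 4 = 1 ∨ p % 4 = 3 := by omega
      rcases h4 with h4 | h4
      · refine ⟨cz (zp p) + (starRingEnd ℂ) (cz (zp p)), p, fun e => ?_, ?_⟩
        · have := cc_p1_rec 1 p e hp h4 (zp p) (zp_mem p hp h4)
          simpa using this
        · have := cc_p1 1 p hp h4 (zp p) (zp_mem p hp h4)
          simpa using this
      · refine ⟨0, p, fun e => ?_, cc_p3 1 p hp h4⟩
        have := cc_p3_rec 1 p e hp h4
        rw [this]; ring
    refine ⟨t, q, fun m => ?_, fun m hm => ?_⟩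
    · by_cases hm : m = 0
      · subst hm
        simp [cc_zero]
      · obtain ⟨e, m', hm', rfl⟩ := Nat.exists_eq_pow_mul_and_not_dvd hm p hp.ne_one
        have hc : ∀ i : ℕ, Nat.Coprime (p ^ i) m' := fun i =>
          Nat.Coprime.pow_left i ((Nat.Prime.coprime_iff_not_dvd hp).2 hm')
        have e1 : p ^ 2 * (p ^ e * m') = p ^ (e + 2) * m' := by ring
        have e2 : p * (p ^ e * m') = p ^ (e + 1) * m' := by ring
        rw [e1, e2, cc_mul _ _ _ (hc _), cc_mul _ _ _ (hc _), cc_mul _ _ _ (hc _), h1 e]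
        ring
    · rw [cc_mul _ _ _ ((Nat.Prime.coprime_iff_not_dvd hp).2 hm), h2]

/-- Recursions of the family at every prime. -/
theorem recAt_fam (n j p : ℕ) (hp : p.Prime) : ∃ A q : ℝ, RecAt (aFam n j) p A q := by
  obtain ⟨t, q, h1, h2⟩ := rec_cc p hp
  obtain ⟨ψ, hψ⟩ : ∃ ψ : ℕ → ℂ, ψ = fun m : ℕ => ((jacobiSym m n : ℤ) : ℂ) * chi8 m ^ j := ⟨_, rfl⟩
  have hmul : ∀ a b : ℕ, ψ (a * b) = ψ a * ψ b := by
    intro a b
    rw [hψ]
    simp only
    rw [eC_chi8_mul, mul_pow]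
    push_cast
    rw [jacobiSym.mul_left]
    push_cast
    ring
  have ha : ∀ m : ℕ, ((aFam n j m : ℝ) : ℂ) = ψ m * cc 1 m := by
    intro m; rw [aFam_cast, hψ]
  have ht1 : ∀ m : ℕ, ((aFam n j (p ^ 2 * m) : ℝ) : ℂ) =
      (ψ p * t) * ((aFam n j (p * m) : ℝ) : ℂ) - (ψ p ^ 2 * q) * ((aFam n j m : ℝ) : ℂ) := by
    intro m
    rw [ha, ha, ha, hmul, hmul, h1, pow_two, hmul]
    ring
  have ht2 : ∀ m : ℕ, ¬ p ∣ m → ((aFam n j (p * m) : ℝ) : ℂ) =
      (ψ p * t) * ((aFam n j m : ℝ) : ℂ) := by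
    intro m hm
    rw [ha, ha, hmul, h2 m hm]
    ring
  refine ⟨(ψ p * t).re, (ψ p ^ 2 * q).re, fun m => ?_, fun m hm => ?_⟩
  · have := congrArg Complex.re (ht1 m)
    rw [Complex.sub_re, Complex.re_mul_ofReal, Complex.re_mul_ofReal, Complex.ofReal_re] at this
    exact this
  · have := congrArg Complex.re (ht2 m hm)
    rw [Complex.re_mul_ofReal, Complex.ofReal_re] at this
    exact this

theorem aFam_zero (n j : ℕ) : aFam n j 0 = 0 := by
  unfold aFam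
  rw [cc_zero]
  simp

theorem aFam_one (n j : ℕ) : aFam n j 1 = 1 := by
  have h : ((aFam n j 1 : ℝ) : ℂ) = ((1 : ℝ) : ℂ) := by
    rw [aFam_cast, eC_chi8_one, cc_one]
    simp
  exact_mod_cast h

end W3283z
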