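import Pool.Agent.W_MP_3283e1_h19.LG

set_option autoImplicit false

/-! Zero density of the L-functions of `ThData`: for every `δ, ν > 0` the number of distinct zeros with
`Re s > 1 + δ`, `|s - 1| ≤ t` is at most `ν t + N`.  Analytic half; the arithmetic of the
coefficients enters through the structure `Mol`. -/

namespace W3283z

open Complex W3283f MeasureTheory

/-- The exponential series for complex argument, `Re w > 0`. -/
noncomputable def ThC (a : ℕ → ℝ) (κ : ℝ) (w : ℂ) : ℂ :=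
  ∑' m : ℕ, (a m : ℂ) * Complex.exp (-(Real.pi * κ * m * w))

/-- Coefficients of the product with a Dirichlet polynomial. -/
noncomputable def cv (D : Finset ℕ) (μ a : ℕ → ℝ) (n : ℕ) : ℝ :=
  ∑ d ∈ D, if d ∣ n then μ d * a (n / d) else 0

/-- The mollifier. -/
noncomputable def MD (D : Finset ℕ) (μ : ℕ → ℝ) (s : ℂ) : ℂ := ∑ d ∈ D, (μ d : ℂ) * (d : ℂ) ^ (-s)

/-- The function whose Mellin transform on rays is `L M - 1` times a Gamma factor. -/
noncomputable def GD (D : Finset ℕ) (μ a : ℕ → ℝ) (κ : ℝ) (w : ℂ) : ℂ :=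
  (∑ d ∈ D, (μ d : ℂ) * ThC a κ (d * w)) - Complex.exp (-(Real.pi * κ * w))

/-- Arithmetic input: mollifiers (finite Euler products) and the second moment. -/
structure Mol (a : ℕ → ℝ) : Prop where
  mol : ∀ z : ℕ, ∃ (D : Finset ℕ) (μ : ℕ → ℝ), (∀ d ∈ D, 0 < d) ∧ cv D μ a 1 = 1 ∧
    (∀ n : ℕ, 1 < n → n ≤ z → cv D μ a n = 0) ∧ ∀ n : ℕ, |cv D μ a n| ≤ |a n|
  sq : ∀ σ : ℝ, 1 < σ → Summable (fun n : ℕ => (a n) ^ 2 * (n : ℝ) ^ (-(2 * σ)))

/-- The point `e^{iφ}` on the unit circle. -/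
noncomputable def ei (φ : ℝ) : ℂ := Complex.exp (φ * I)

end W3283z
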