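import Pool.Agent.W_3283e1_zd.ZFin
import Pool.Agent.W_3283e1_zd.MolD

set_option autoImplicit false

namespace W3283z

open W3283e1 W3283f

/-- Zero density (Bohr-Landau): the zeros `1 + s` with `Re s > δ`, `|s| ≤ t` of the L-functions of the
family are at most `ν t + N` in number. -/
theorem dens_end (n j : ℕ) (hj : j = 0 ∨ j = 1) (hn : Odd n) (hs : Squarefree n) :
    W3283v.Dens (W3283v.laF n j) :=
  dens_fam n j hj hn hs (mol_fam n j)

end W3283z
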