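import Pool.Agent.W_3283e1_zd.ZTent

set_option autoImplicit false

namespace W3283z

open Complex MeasureTheory Filter Topology

theorem ZRay_tent_meas : Measurable tent := by
  unfold tent
  fun_prop

theorem ZRay_tent_eq {v : ℝ} (h0 : 0 ≤ v) (h1 : v ≤ 1) : tent v = v := by
  unfold tent
  rw [abs_of_nonpos (by linarith)]
  rw [max_eq_right (by linarith)]
  ring

/-- `∫_0^{min(y,2)} tent(v) (y - v)^{2σ-1} dv ≥ y^{2σ-1}/4096` for `y ≥ 1/4`, `1/2 ≤ σ ≤ 3` (use `0 ≤ v ≤ 1/8`: `tent v = v`,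
`(y - v)^{2σ-1} ≥ (y/2)^{2σ-1} ≥ y^{2σ-1}/32`, `∫_0^{1/8} v dv = 1/128`). -/
theorem tent_low (σ y : ℝ) (h1 : 1 / 2 ≤ σ) (h3 : σ ≤ 3) (hy : 1 / 4 ≤ y) :
    ENNReal.ofReal (y ^ (2 * σ - 1) / 4096) ≤
      ∫⁻ v in Set.Ioc (0 : ℝ) 2 ∩ Set.Iio y, ENNReal.ofReal (tent v) *
        ENNReal.ofReal ((y - v) ^ (2 * σ - 1)) := by
  have hsub : Set.Ioc (0 : ℝ) (1 / 8) ⊆ Set.Ioc (0 : ℝ) 2 ∩ Set.Iio y := by
    intro v hv
    refine ⟨⟨hv.1, by linarith [hv.2]⟩, ?_⟩
    rw [Set.mem_Iio]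
    linarith [hv.2]
  refine le_trans ?_ (lintegral_mono_set hsub)
  have hy0 : 0 < y := by linarith
  have h4 : ∀ v ∈ Set.Ioc (0 : ℝ) (1 / 8), ENNReal.ofReal (v * (y ^ (2 * σ - 1) / 32)) ≤
      ENNReal.ofReal (tent v) * ENNReal.ofReal ((y - v) ^ (2 * σ - 1)) := by
    intro v hv
    rw [ZRay_tent_eq hv.1.le (by linarith [hv.2]), ← ENNReal.ofReal_mul hv.1.le]
    refine ENNReal.ofReal_le_ofReal (mul_le_mul_of_nonneg_left ?_ hv.1.le)
    have h5 : (y / 2) ^ (2 * σ - 1) ≤ (y - v) ^ (2 * σ - 1) := by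
      refine Real.rpow_le_rpow (by positivity) ?_ (by linarith)
      linarith [hv.2]
    refine le_trans ?_ h5
    rw [Real.div_rpow hy0.le (by norm_num)]
    refine div_le_div_of_nonneg_left (Real.rpow_nonneg hy0.le _)
      (Real.rpow_pos_of_pos (by norm_num) _) ?_
    have h6 : (2 : ℝ) ^ (2 * σ - 1) ≤ (2 : ℝ) ^ (5 : ℝ) :=
      Real.rpow_le_rpow_of_exponent_le (by norm_num) (by linarith)
    refine h6.trans (le_of_eq ?_)
    norm_num
  refine le_trans ?_ (setLIntegral_mono' measurableSet_Ioc h4)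
  have hint : Integrable (fun v : ℝ => v * (y ^ (2 * σ - 1) / 32))
      (volume.restrict (Set.Ioc (0 : ℝ) (1 / 8))) := by
    refine (Continuous.integrableOn_Icc ?_).mono_set Set.Ioc_subset_Icc_self
    fun_prop
  rw [← ofReal_integral_eq_lintegral_ofReal hint]
  · refine ENNReal.ofReal_le_ofReal (le_of_eq ?_)
    rw [integral_mul_const, ← intervalIntegral.integral_of_le (by norm_num), integral_id]
    ring
  · refine (ae_restrict_iff' measurableSet_Ioc).2 (Eventually.of_forall fun v hv => ?_)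
    exact mul_nonneg hv.1.le (div_nonneg (Real.rpow_nonneg hy0.le _) (by norm_num))

/-- The gamma integral. -/
theorem ZRay_gamma {a r : ℝ} (ha : 0 < a) (hr : 0 < r) :
    ∫⁻ t in Set.Ioi (0 : ℝ), ENNReal.ofReal (t ^ (a - 1) * Real.exp (-(r * t))) =
      ENNReal.ofReal ((1 / r) ^ a * Real.Gamma a) := by
  have h1 := Real.integral_rpow_mul_exp_neg_mul_Ioi ha hr
  have hpos : 0 < (1 / r) ^ a * Real.Gamma a :=
    mul_pos (Real.rpow_pos_of_pos (by positivity) _) (Real.Gamma_pos_of_pos ha)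
  have hint : Integrable (fun t : ℝ => t ^ (a - 1) * Real.exp (-(r * t)))
      (volume.restrict (Set.Ioi 0)) := by
    by_contra hcon
    rw [integral_undef hcon] at h1
    exact hpos.ne h1
  rw [← h1, ofReal_integral_eq_lintegral_ofReal hint]
  refine (ae_restrict_iff' measurableSet_Ioi).2 (Eventually.of_forall fun t ht => ?_)
  exact mul_nonneg (Real.rpow_nonneg (le_of_lt ht) _) (Real.exp_pos _).le

/-- The bound for the constants. -/
theorem ZRay_const (c : ℝ) (hc : 0 < c) :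
    ∃ B₀ : ℝ, 0 < B₀ ∧ ∀ σ : ℝ, 1 ≤ σ → σ ≤ 3 → Real.Gamma (2 * σ) * (1 / c) ^ (2 * σ) ≤ B₀ := by
  have hcont : ContinuousOn (fun σ : ℝ => Real.Gamma (2 * σ) * (1 / c) ^ (2 * σ))
      (Set.Icc 1 3) := by
    intro σ hσ
    refine ContinuousAt.continuousWithinAt ?_
    refine ContinuousAt.mul ?_ ?_
    · have h1 : DifferentiableAt ℝ Real.Gamma (2 * σ) := by
        refine Real.differentiableAt_Gamma fun m hm => ?_
        have h2 : (0 : ℝ) ≤ m := Nat.cast_nonneg m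
        have h3 := hσ.1
        linarith
      exact ContinuousAt.comp (g := Real.Gamma) (f := fun σ : ℝ => 2 * σ) h1.continuousAt
        (by fun_prop)
    · exact ContinuousAt.rpow continuousAt_const (by fun_prop) (Or.inl (by positivity))
  obtain ⟨M, hM⟩ := isCompact_Icc.exists_bound_of_continuousOn hcont
  refine ⟨|M| + 1, by positivity, fun σ h1 h2 => ?_⟩
  have h3 := hM σ ⟨h1, h2⟩
  have h4 := (le_abs_self _).trans h3
  linarith [le_abs_self M]

/-- The Fubini part. -/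
theorem ZRay_fubini {F : ℝ → ENNReal} (hF : Measurable F) (a : ℝ) :
    (∫⁻ y in Set.Ioi (0 : ℝ), ENNReal.ofReal (y ^ a) *
      ∫⁻ v in Set.Ioc (0 : ℝ) 2, F (y + v) * ENNReal.ofReal (tent v)) =
    ∫⁻ y, F y * ∫⁻ v in Set.Ioc (0 : ℝ) 2 ∩ Set.Iio y, ENNReal.ofReal (tent v) *
        ENNReal.ofReal ((y - v) ^ a) := by
  set p : ℝ → ENNReal := (Set.Ioi (0 : ℝ)).indicator fun t => ENNReal.ofReal (t ^ a) with hp
  set r : ℝ → ENNReal := (Set.Ioc (0 : ℝ) 2).indicator fun v => ENNReal.ofReal (tent v) with hr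
  have hpm : Measurable p := by
    refine Measurable.indicator ?_ measurableSet_Ioi
    exact ENNReal.measurable_ofReal.comp (measurable_id.pow_const a)
  have hrm : Measurable r :=
    (ENNReal.measurable_ofReal.comp ZRay_tent_meas).indicator measurableSet_Ioc
  have h1 : (∫⁻ y in Set.Ioi (0 : ℝ), ENNReal.ofReal (y ^ a) *
      ∫⁻ v in Set.Ioc (0 : ℝ) 2, F (y + v) * ENNReal.ofReal (tent v)) =
      ∫⁻ y, ∫⁻ v, p y * (r v * F (y + v)) := by
    rw [← lintegral_indicator measurableSet_Ioi]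
    refine lintegral_congr fun y => ?_
    have hmv : Measurable fun v : ℝ => r v * F (y + v) :=
      hrm.mul (hF.comp (measurable_const.add measurable_id))
    rw [lintegral_const_mul _ hmv]
    have h2 : (∫⁻ v in Set.Ioc (0 : ℝ) 2, F (y + v) * ENNReal.ofReal (tent v)) =
        ∫⁻ v, r v * F (y + v) := by
      rw [← lintegral_indicator measurableSet_Ioc]
      refine lintegral_congr fun v => ?_
      rw [hr]
      by_cases hv : v ∈ Set.Ioc (0 : ℝ) 2
      · rw [Set.indicator_of_mem hv, Set.indicator_of_mem hv, mul_comm]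
      · rw [Set.indicator_of_notMem hv, Set.indicator_of_notMem hv, zero_mul]
    rw [← h2, hp]
    by_cases hy : y ∈ Set.Ioi (0 : ℝ)
    · rw [Set.indicator_of_mem hy, Set.indicator_of_mem hy]
    · rw [Set.indicator_of_notMem hy, Set.indicator_of_notMem hy, zero_mul]
  have hm1 : Measurable fun q : ℝ × ℝ => p q.1 * (r q.2 * F (q.1 + q.2)) :=
    (hpm.comp measurable_fst).mul ((hrm.comp measurable_snd).mul
      (hF.comp (measurable_fst.add measurable_snd)))
  have hm2 : Measurable fun q : ℝ × ℝ => p (q.2 - q.1) * (r q.1 * F q.2) :=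
    (hpm.comp (measurable_snd.sub measurable_fst)).mul ((hrm.comp measurable_fst).mul
      (hF.comp measurable_snd))
  rw [h1, lintegral_lintegral_swap (f := fun y v => p y * (r v * F (y + v))) hm1.aemeasurable]
  have h3 : ∀ v : ℝ, (∫⁻ y, p y * (r v * F (y + v))) = ∫⁻ y, p (y - v) * (r v * F y) := by
    intro v
    rw [← lintegral_sub_right_eq_self (fun y => p y * (r v * F (y + v))) v]
    refine lintegral_congr fun y => ?_
    rw [sub_add_cancel]
  simp only [h3]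
  rw [lintegral_lintegral_swap (f := fun v y => p (y - v) * (r v * F y)) hm2.aemeasurable]
  refine lintegral_congr fun y => ?_
  have h4 : (∫⁻ v in Set.Ioc (0 : ℝ) 2 ∩ Set.Iio y, ENNReal.ofReal (tent v) *
      ENNReal.ofReal ((y - v) ^ a)) = ∫⁻ v, r v * p (y - v) := by
    rw [← lintegral_indicator (measurableSet_Ioc.inter measurableSet_Iio)]
    refine lintegral_congr fun v => ?_
    rw [hr, hp]
    by_cases hv : v ∈ Set.Ioc (0 : ℝ) 2
    · by_cases hvy : v < y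
      · rw [Set.indicator_of_mem (show v ∈ Set.Ioc (0 : ℝ) 2 ∩ Set.Iio y from ⟨hv, hvy⟩),
          Set.indicator_of_mem hv,
          Set.indicator_of_mem (show y - v ∈ Set.Ioi (0 : ℝ) from sub_pos.2 hvy)]
      · rw [Set.indicator_of_notMem (show v ∉ Set.Ioc (0 : ℝ) 2 ∩ Set.Iio y from
          fun h => hvy h.2), Set.indicator_of_mem hv,
          Set.indicator_of_notMem (show y - v ∉ Set.Ioi (0 : ℝ) from
            fun h => hvy (sub_pos.1 h)), mul_zero]
    · rw [Set.indicator_of_notMem (show v ∉ Set.Ioc (0 : ℝ) 2 ∩ Set.Iio y from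
        fun h => hv h.1), Set.indicator_of_notMem hv, zero_mul]
  have hmv : Measurable fun v : ℝ => r v * p (y - v) :=
    hrm.mul (hpm.comp (measurable_const.sub measurable_id))
  rw [h4, ← lintegral_const_mul _ hmv]
  refine lintegral_congr fun v => ?_
  ring

/-- Summability on the ray. -/
theorem ZRay_summable {κ : ℝ} (hκ : 0 < κ) {b : ℕ → ℝ}
    (hb : ∀ x : ℝ, 0 < x → Summable (fun m : ℕ => |b m| * Real.exp (-(x * m))))
    {C S : ℝ} (hC : 0 < C) {y : ℝ} (hy : 0 < y) :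
    Summable fun m : ℕ => (b m : ℂ) *
      Complex.exp (-(Real.pi * κ * m * ((y : ℂ) * ((C : ℂ) + S * I)))) := by
  have h1 := hb (Real.pi * κ * C * y) (by positivity)
  refine Summable.of_norm_bounded h1 fun m => ?_
  rw [norm_mul, Complex.norm_real, Real.norm_eq_abs, Complex.norm_exp]
  refine le_of_eq ?_
  congr 2
  simp
  ring

/-- The function on the ray, cut off. -/
theorem ZRay_meas {κ : ℝ} (hκ : 0 < κ) {b : ℕ → ℝ}
    (hb : ∀ x : ℝ, 0 < x → Summable (fun m : ℕ => |b m| * Real.exp (-(x * m))))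
    {C S : ℝ} (hC : 0 < C) :
    Measurable ((Set.Ioi (0 : ℝ)).indicator fun y : ℝ => ∑' m : ℕ, (b m : ℂ) *
      Complex.exp (-(Real.pi * κ * m * ((y : ℂ) * ((C : ℂ) + S * I))))) := by
  refine measurable_of_tendsto_metrizable (f := fun n : ℕ => (Set.Ioi (0 : ℝ)).indicator
    fun y : ℝ => ∑ m ∈ Finset.range n, (b m : ℂ) *
      Complex.exp (-(Real.pi * κ * m * ((y : ℂ) * ((C : ℂ) + S * I))))) (fun n => ?_) ?_
  · refine Measurable.indicator ?_ measurableSet_Ioi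
    refine Finset.measurable_sum _ fun m _ => ?_
    fun_prop
  · rw [tendsto_pi_nhds]
    intro y
    by_cases hy : y ∈ Set.Ioi (0 : ℝ)
    · simp only [Set.indicator_of_mem hy]
      exact (ZRay_summable hκ hb hC hy).hasSum.tendsto_sum_nat
    · simp only [Set.indicator_of_notMem hy]
      exact tendsto_const_nhds

/-- The mean square on a ray: multiply `loc_sq` by `y0^{2σ-1}`, integrate over `y0 > 0` (Tonelli,
`y = y0 + v`, `tent_low`), `∫_0^∞ y0^{2σ-1} e^{-X y0} dy0 = Γ(2σ) X^{-2σ}`, `X = 2πκCm`,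
`Γ(2σ) (2πκ)^{-2σ}` is bounded for `1 ≤ σ ≤ 3`. -/
theorem ray_sq (κ : ℝ) (hκ : 0 < κ) :
    ∃ B : ℝ, 0 < B ∧ ∀ (b : ℕ → ℝ), b 0 = 0 →
      (∀ x : ℝ, 0 < x → Summable (fun m : ℕ => |b m| * Real.exp (-(x * m)))) →
      ∀ (C S : ℝ), 0 < C → 1 / 2 ≤ |S| → ∀ σ : ℝ, 1 ≤ σ → σ ≤ 3 →
      ∫⁻ y in Set.Ioi (1 / 4 : ℝ), ‖∑' m : ℕ, (b m : ℂ) *
          Complex.exp (-(Real.pi * κ * m * ((y : ℂ) * ((C : ℂ) + S * I))))‖ₑ ^ 2 *
            ENNReal.ofReal (y ^ (2 * σ - 1)) ≤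
        ENNReal.ofReal (B * C ^ (-(2 * σ))) *
          ∑' m : ℕ, ENNReal.ofReal ((b m) ^ 2 * (m : ℝ) ^ (-(2 * σ))) := by
  have hpi := Real.pi_pos
  obtain ⟨B₀, hB₀, hB⟩ := ZRay_const (2 * Real.pi * κ) (by positivity)
  have hK : (0 : ℝ) < 1 + 16 / (3 * κ ^ 2) := by positivity
  refine ⟨4096 * (1 + 16 / (3 * κ ^ 2)) * B₀, by positivity, ?_⟩
  intro b hb0 hb C S hC hS σ hσ1 hσ3
  set G : ℝ → ℂ := fun y => ∑' m : ℕ, (b m : ℂ) *
    Complex.exp (-(Real.pi * κ * m * ((y : ℂ) * ((C : ℂ) + S * I)))) with hG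
  set F : ℝ → ENNReal := fun y => ‖(Set.Ioi (0 : ℝ)).indicator G y‖ₑ ^ 2 with hF
  have hFm : Measurable F := ((ZRay_meas (S := S) hκ hb hC).enorm).pow_const 2
  have hFG : ∀ y : ℝ, 0 < y → F y = ‖G y‖ₑ ^ 2 := by
    intro y hy
    rw [hF]
    simp only
    rw [Set.indicator_of_mem (show y ∈ Set.Ioi (0 : ℝ) from hy)]
  -- the lower bound
  have h1 : ENNReal.ofReal (1 / 4096) * (∫⁻ y in Set.Ioi (1 / 4 : ℝ), ‖G y‖ₑ ^ 2 *
      ENNReal.ofReal (y ^ (2 * σ - 1))) ≤ ∫⁻ y, F y * ∫⁻ v in Set.Ioc (0 : ℝ) 2 ∩ Set.Iio y,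
        ENNReal.ofReal (tent v) * ENNReal.ofReal ((y - v) ^ (2 * σ - 1)) := by
    rw [← lintegral_const_mul' _ _ ENNReal.ofReal_ne_top]
    refine le_trans ?_ (setLIntegral_le_lintegral (Set.Ioi (1 / 4 : ℝ)) _)
    refine setLIntegral_mono' measurableSet_Ioi fun y hy => ?_
    have hy' : (1 / 4 : ℝ) < y := hy
    rw [hFG y (by linarith)]
    have h2 := tent_low σ y (by linarith) hσ3 hy'.le
    have h3 : ENNReal.ofReal (1 / 4096) * (‖G y‖ₑ ^ 2 * ENNReal.ofReal (y ^ (2 * σ - 1))) =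
        ‖G y‖ₑ ^ 2 * ENNReal.ofReal (y ^ (2 * σ - 1) / 4096) := by
      rw [div_eq_mul_one_div (y ^ (2 * σ - 1)), ENNReal.ofReal_mul (Real.rpow_nonneg
        (by linarith) _)]
      ring
    rw [h3]
    exact mul_le_mul_right h2 _
  -- the upper bound
  have h2 : (∫⁻ y in Set.Ioi (0 : ℝ), ENNReal.ofReal (y ^ (2 * σ - 1)) *
      ∫⁻ v in Set.Ioc (0 : ℝ) 2, F (y + v) * ENNReal.ofReal (tent v)) ≤
      ENNReal.ofReal (1 + 16 / (3 * κ ^ 2)) * (ENNReal.ofReal (B₀ * C ^ (-(2 * σ))) *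
        ∑' m : ℕ, ENNReal.ofReal ((b m) ^ 2 * (m : ℝ) ^ (-(2 * σ)))) := by
    have h3 : ∀ y ∈ Set.Ioi (0 : ℝ), ENNReal.ofReal (y ^ (2 * σ - 1)) *
        (∫⁻ v in Set.Ioc (0 : ℝ) 2, F (y + v) * ENNReal.ofReal (tent v)) ≤
        ENNReal.ofReal (1 + 16 / (3 * κ ^ 2)) * ∑' m : ℕ, ENNReal.ofReal ((b m) ^ 2 *
          (y ^ (2 * σ - 1) * Real.exp (-(2 * Real.pi * κ * C * m * y)))) := by
      intro y hy
      have hy' : (0 : ℝ) < y := hy
      have h4 : (∫⁻ v in Set.Ioc (0 : ℝ) 2, F (y + v) * ENNReal.ofReal (tent v)) ≤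
          ENNReal.ofReal (1 + 16 / (3 * κ ^ 2)) *
            ∑' m : ℕ, ENNReal.ofReal ((b m) ^ 2 * Real.exp (-(2 * Real.pi * κ * C * m * y))) := by
        refine le_trans (le_of_eq ?_) (loc_sq κ hκ b hb C S hC hS y hy')
        refine setLIntegral_congr_fun measurableSet_Ioc fun v hv => ?_
        rw [hFG (y + v) (by linarith [hv.1])]
      refine (mul_le_mul_right h4 _).trans (le_of_eq ?_)
      rw [mul_left_comm, ← ENNReal.tsum_mul_left]
      congr 1
      refine tsum_congr fun m => ?_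
      rw [← ENNReal.ofReal_mul (Real.rpow_nonneg hy'.le _)]
      congr 1
      ring
    refine (setLIntegral_mono' measurableSet_Ioi h3).trans ?_
    rw [lintegral_const_mul' _ _ ENNReal.ofReal_ne_top]
    refine mul_le_mul_right ?_ _
    rw [lintegral_tsum (fun m => ?_), ← ENNReal.tsum_mul_left]
    · refine ENNReal.tsum_le_tsum fun m => ?_
      rcases Nat.eq_zero_or_pos m with rfl | hm
      · simp [hb0]
      · have hm' : (0 : ℝ) < m := by exact_mod_cast hm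
        have hX : (0 : ℝ) < 2 * Real.pi * κ * C * m := by positivity
        have h5 : ∀ y : ℝ, ENNReal.ofReal ((b m) ^ 2 *
            (y ^ (2 * σ - 1) * Real.exp (-(2 * Real.pi * κ * C * m * y)))) =
            ENNReal.ofReal ((b m) ^ 2) * ENNReal.ofReal
              (y ^ (2 * σ - 1) * Real.exp (-(2 * Real.pi * κ * C * m * y))) := fun y =>
          ENNReal.ofReal_mul (sq_nonneg _)
        simp only [h5]
        rw [lintegral_const_mul' _ _ ENNReal.ofReal_ne_top,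
          ZRay_gamma (show 0 < 2 * σ by linarith) hX, ← ENNReal.ofReal_mul (sq_nonneg _),
          ← ENNReal.ofReal_mul (by positivity)]
        refine ENNReal.ofReal_le_ofReal ?_
        have h6 : (1 / (2 * Real.pi * κ * C * m)) ^ (2 * σ) =
            (1 / (2 * Real.pi * κ)) ^ (2 * σ) * C ^ (-(2 * σ)) * (m : ℝ) ^ (-(2 * σ)) := by
          have h7 : 1 / (2 * Real.pi * κ * C * m) = 1 / (2 * Real.pi * κ) * C⁻¹ * (m : ℝ)⁻¹ := by
            field_simp
          rw [h7, Real.mul_rpow (by positivity) (by positivity),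
            Real.mul_rpow (by positivity) (by positivity), Real.inv_rpow hC.le,
            Real.inv_rpow hm'.le, Real.rpow_neg hC.le, Real.rpow_neg hm'.le]
        rw [h6]
        have h8 := hB σ hσ1 hσ3
        have h9 : (0 : ℝ) ≤ C ^ (-(2 * σ)) * ((b m) ^ 2 * (m : ℝ) ^ (-(2 * σ))) := by
          have := Real.rpow_nonneg hC.le (-(2 * σ))
          have := Real.rpow_nonneg hm'.le (-(2 * σ))
          positivity
        calc (b m) ^ 2 * ((1 / (2 * Real.pi * κ)) ^ (2 * σ) * C ^ (-(2 * σ)) *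
              (m : ℝ) ^ (-(2 * σ)) * Real.Gamma (2 * σ))
            = (Real.Gamma (2 * σ) * (1 / (2 * Real.pi * κ)) ^ (2 * σ)) *
                (C ^ (-(2 * σ)) * ((b m) ^ 2 * (m : ℝ) ^ (-(2 * σ)))) := by ring
          _ ≤ B₀ * (C ^ (-(2 * σ)) * ((b m) ^ 2 * (m : ℝ) ^ (-(2 * σ)))) :=
              mul_le_mul_of_nonneg_right h8 h9
          _ = B₀ * C ^ (-(2 * σ)) * ((b m) ^ 2 * (m : ℝ) ^ (-(2 * σ))) := by ring
    · refine (Measurable.ennreal_ofReal ?_).aemeasurable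
      exact measurable_const.mul ((measurable_id.pow_const _).mul (by fun_prop))
  rw [ZRay_fubini hFm] at h2
  have h3 := h1.trans h2
  have h4 : ENNReal.ofReal 4096 * ENNReal.ofReal (1 / 4096) = 1 := by
    rw [← ENNReal.ofReal_mul (by norm_num)]
    norm_num
  calc (∫⁻ y in Set.Ioi (1 / 4 : ℝ), ‖G y‖ₑ ^ 2 * ENNReal.ofReal (y ^ (2 * σ - 1)))
      = ENNReal.ofReal 4096 * (ENNReal.ofReal (1 / 4096) *
          ∫⁻ y in Set.Ioi (1 / 4 : ℝ), ‖G y‖ₑ ^ 2 * ENNReal.ofReal (y ^ (2 * σ - 1))) := by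
        rw [← mul_assoc, h4, one_mul]
    _ ≤ ENNReal.ofReal 4096 * (ENNReal.ofReal (1 + 16 / (3 * κ ^ 2)) *
          (ENNReal.ofReal (B₀ * C ^ (-(2 * σ))) *
            ∑' m : ℕ, ENNReal.ofReal ((b m) ^ 2 * (m : ℝ) ^ (-(2 * σ))))) :=
        mul_le_mul_right h3 _
    _ = ENNReal.ofReal (4096 * (1 + 16 / (3 * κ ^ 2)) * B₀ * C ^ (-(2 * σ))) *
          ∑' m : ℕ, ENNReal.ofReal ((b m) ^ 2 * (m : ℝ) ^ (-(2 * σ))) := by
        rw [← mul_assoc, ← mul_assoc, ← ENNReal.ofReal_mul (by norm_num),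
          ← ENNReal.ofReal_mul (by positivity)]
        congr 2
        ring

end W3283z
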