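import Pool.Agent.W_3283e1_zd.ZDef

set_option autoImplicit false

namespace W3283z

open Complex W3283f MeasureTheory Filter Topology

theorem ZThC_norm (a : ℕ → ℝ) (κ : ℝ) (m : ℕ) (w : ℂ) :
    ‖(a m : ℂ) * Complex.exp (-(Real.pi * κ * m * w))‖ =
      |a m| * Real.exp (-Real.pi * (κ * m) * w.re) := by
  rw [norm_mul, Complex.norm_real, Real.norm_eq_abs, Complex.norm_exp]
  congr 2
  have h1 : (Real.pi * κ * m * w : ℂ) = ((Real.pi * κ * m : ℝ) : ℂ) * w := by push_cast; ring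
  rw [h1, Complex.neg_re, Complex.re_ofReal_mul]
  ring

theorem ZThC_inv_re (w : ℂ) (hw : 0 < w.re) : 0 < (1 / w).re := by
  rw [one_div, Complex.inv_re]
  refine div_pos hw (Complex.normSq_pos.2 ?_)
  rintro rfl
  simp at hw

theorem ZThC_exp (y : ℝ) (hy : 0 < y) : Real.exp (-y) ≤ 2 / y ^ 2 := by
  have h1 := Real.quadratic_le_exp_of_nonneg hy.le
  rw [Real.exp_neg, inv_le_comm₀ (Real.exp_pos _) (by positivity), inv_div]
  linarith

/-- Absolute convergence: `|a_m| ≤ C m²` (`ThData.sum` with `τ = 2`). -/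
theorem thc_sum (a : ℕ → ℝ) (κ ε : ℝ) (h : ThData a κ ε) (w : ℂ) (hw : 0 < w.re) :
    Summable (fun m : ℕ => ‖(a m : ℂ) * Complex.exp (-(Real.pi * κ * m * w))‖) := by
  refine (Th_summable a κ ε h w.re hw).congr fun m => ?_
  rw [ZThC_norm]

/-- Weierstrass (uniform convergence on `Re w > δ`). -/
theorem thc_diff (a : ℕ → ℝ) (κ ε : ℝ) (h : ThData a κ ε) :
    DifferentiableOn ℂ (ThC a κ) {w : ℂ | 0 < w.re} := by
  intro w₀ hw₀
  have hw : 0 < w₀.re := hw₀
  have hU : IsOpen {w : ℂ | w₀.re / 2 < w.re} := isOpen_lt continuous_const Complex.continuous_re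
  have h1 : DifferentiableOn ℂ (fun w => ∑' m : ℕ, (a m : ℂ) *
      Complex.exp (-(Real.pi * κ * m * w))) {w : ℂ | w₀.re / 2 < w.re} := by
    refine differentiableOn_tsum_of_summable_norm
      (u := fun m => |a m| * Real.exp (-Real.pi * (κ * m) * (w₀.re / 2)))
      (Th_summable a κ ε h (w₀.re / 2) (by linarith)) (fun m => ?_) hU fun m w hmw => ?_
    · exact (by fun_prop : Differentiable ℂ fun w : ℂ => (a m : ℂ) *
        Complex.exp (-(Real.pi * κ * m * w))).differentiableOn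
    · rw [ZThC_norm]
      refine mul_le_mul_of_nonneg_left (Real.exp_le_exp.2 ?_) (abs_nonneg _)
      have h2 : 0 ≤ Real.pi * (κ * m) :=
        mul_nonneg Real.pi_pos.le (mul_nonneg h.κpos.le (Nat.cast_nonneg m))
      have h3 : w₀.re / 2 ≤ w.re := le_of_lt hmw
      have h4 := mul_le_mul_of_nonneg_left h3 h2
      linarith
  have h2 : DifferentiableAt ℂ (ThC a κ) w₀ :=
    h1.differentiableAt (hU.mem_nhds (show w₀.re / 2 < w₀.re by linarith))
  exact h2.differentiableWithinAt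

theorem thc_real (a : ℕ → ℝ) (κ ε : ℝ) (h : ThData a κ ε) (t : ℝ) (ht : 0 < t) :
    ThC a κ (t : ℂ) = (Th a κ t : ℂ) := by
  unfold ThC Th
  rw [Complex.ofReal_tsum]
  refine tsum_congr fun m => ?_
  push_cast
  congr 2
  ring

/-- The functional equation for complex arguments: identity theorem on the half-plane (both sides are
holomorphic and agree for real `w > 0`, `ThData.inv`). -/
theorem thc_inv (a : ℕ → ℝ) (κ ε : ℝ) (h : ThData a κ ε) (w : ℂ) (hw : 0 < w.re) :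
    ThC a κ (1 / w) = (ε : ℂ) * w ^ 2 * ThC a κ w := by
  have hU : IsOpen {w : ℂ | 0 < w.re} := isOpen_lt continuous_const Complex.continuous_re
  have hd := thc_diff a κ ε h
  have hf : DifferentiableOn ℂ (fun w => ThC a κ (1 / w)) {w : ℂ | 0 < w.re} := by
    refine DifferentiableOn.comp (t := {w : ℂ | 0 < w.re}) hd ?_ fun w hw => ZThC_inv_re w hw
    intro w hw
    have hw0 : w ≠ 0 := by
      rintro rfl
      have : (0 : ℝ) < (0 : ℂ).re := hw
      simp at this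
    exact ((differentiableAt_const _).div differentiableAt_id hw0).differentiableWithinAt
  have hg : DifferentiableOn ℂ (fun w => (ε : ℂ) * w ^ 2 * ThC a κ w) {w : ℂ | 0 < w.re} :=
    (by fun_prop : Differentiable ℂ fun w : ℂ => (ε : ℂ) * w ^ 2).differentiableOn.mul hd
  have hp : IsPreconnected {w : ℂ | 0 < w.re} := (convex_halfSpace_re_gt 0).isPreconnected
  have h1 : (1 : ℂ) ∈ {w : ℂ | 0 < w.re} := by
    show (0 : ℝ) < (1 : ℂ).re
    simp
  have hfr : ∃ᶠ z in 𝓝[≠] (1 : ℂ), ThC a κ (1 / z) = (ε : ℂ) * z ^ 2 * ThC a κ z := by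
    have ht : Tendsto (fun n : ℕ => ((1 + 1 / ((n : ℝ) + 1) : ℝ) : ℂ)) atTop (𝓝[≠] (1 : ℂ)) := by
      refine tendsto_nhdsWithin_iff.2 ⟨?_, Eventually.of_forall fun n => ?_⟩
      · have h2 : Tendsto (fun n : ℕ => 1 + 1 / ((n : ℝ) + 1)) atTop (𝓝 (1 + 0)) :=
          tendsto_const_nhds.add tendsto_one_div_add_atTop_nhds_zero_nat
        rw [add_zero] at h2
        have h3 := (Complex.continuous_ofReal.tendsto 1).comp h2
        rw [Complex.ofReal_one] at h3
        exact h3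
      · intro h2
        have h3 : ((1 + 1 / ((n : ℝ) + 1) : ℝ) : ℂ) = ((1 : ℝ) : ℂ) := by
          rw [Complex.ofReal_one]
          exact h2
        have h4 := Complex.ofReal_injective h3
        have h5 : 0 < 1 / ((n : ℝ) + 1) := by positivity
        linarith
    refine ht.frequently (Eventually.of_forall fun n => ?_).frequently
    have ht0 : 0 < 1 + 1 / ((n : ℝ) + 1) := by positivity
    generalize 1 + 1 / ((n : ℝ) + 1) = t at ht0
    have e1 : (1 : ℂ) / (t : ℂ) = ((1 / t : ℝ) : ℂ) := by push_cast; rfl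
    rw [e1, thc_real a κ ε h _ (one_div_pos.2 ht0), thc_real a κ ε h _ ht0, h.inv t ht0]
    push_cast
    ring
  exact (hf.analyticOnNhd hU).eqOn_of_preconnected_of_frequently_eq (hg.analyticOnNhd hU) hp h1 hfr
    hw

/-- `‖Θ(w)‖ ≤ C (Re w)^{-2} e^{-c Re w}`: `|a_m| e^{-πκmx} ≤ |a_m| m^{-2} · m² e^{-πκmx/2} · e^{-πκx/2}` for `m ≥ 1`,
`a 0 = 0`. -/
theorem thc_bd (a : ℕ → ℝ) (κ ε : ℝ) (h : ThData a κ ε) :
    ∃ C c : ℝ, 0 < C ∧ 0 < c ∧ ∀ w : ℂ, 0 < w.re →
      ‖ThC a κ w‖ ≤ C * (w.re) ^ (-2 : ℝ) * Real.exp (-(c * w.re)) := by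
  have hs := h.sum 2 (by norm_num)
  have hκ := h.κpos
  have hB0 : 0 ≤ ∑' m : ℕ, |a m| * (m : ℝ) ^ (-(2 : ℝ)) :=
    tsum_nonneg fun m => mul_nonneg (abs_nonneg _) (Real.rpow_nonneg (Nat.cast_nonneg m) _)
  set B := ∑' m : ℕ, |a m| * (m : ℝ) ^ (-(2 : ℝ)) with hB
  have hpk : 0 < Real.pi * κ := mul_pos Real.pi_pos hκ
  refine ⟨8 / (Real.pi * κ) ^ 2 * B + 1, Real.pi * κ / 2, by positivity, by positivity,
    fun w hw => ?_⟩
  set x := w.re with hx
  have hx2 : x ^ (-2 : ℝ) = 1 / x ^ 2 := by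
    rw [Real.rpow_neg hw.le, one_div]
    congr 1
    exact_mod_cast Real.rpow_natCast x 2
  have hterm : ∀ m : ℕ, ‖(a m : ℂ) * Complex.exp (-(Real.pi * κ * m * w))‖ ≤
      (8 / (Real.pi * κ) ^ 2 * (1 / x ^ 2) * Real.exp (-(Real.pi * κ / 2 * x))) *
        (|a m| * (m : ℝ) ^ (-(2 : ℝ))) := by
    intro m
    rw [ZThC_norm]
    rcases Nat.eq_zero_or_pos m with hm | hm
    · subst hm
      rw [h.a0]
      simp
    · have hm' : (0 : ℝ) < m := by exact_mod_cast hm
      have hm1 : (1 : ℝ) ≤ m := by exact_mod_cast hm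
      have h2 : (m : ℝ) ^ (-(2 : ℝ)) = 1 / (m : ℝ) ^ 2 := by
        rw [Real.rpow_neg hm'.le, one_div]
        congr 1
        exact_mod_cast Real.rpow_natCast (m : ℝ) 2
      have hy : 0 < Real.pi * κ * m * x / 2 := by positivity
      have e1 : Real.exp (-Real.pi * (κ * m) * x) =
          Real.exp (-(Real.pi * κ * m * x / 2)) * Real.exp (-(Real.pi * κ * m * x / 2)) := by
        rw [← Real.exp_add]
        congr 1
        ring
      have e2 : Real.exp (-(Real.pi * κ * m * x / 2)) ≤ Real.exp (-(Real.pi * κ / 2 * x)) := by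
        refine Real.exp_le_exp.2 ?_
        have h3 : 0 ≤ Real.pi * κ * x / 2 := by positivity
        have h4 := mul_le_mul_of_nonneg_left hm1 h3
        linarith
      have e3 := ZThC_exp _ hy
      have e4 : 2 / (Real.pi * κ * m * x / 2) ^ 2 =
          8 / (Real.pi * κ) ^ 2 * (1 / x ^ 2) * (1 / (m : ℝ) ^ 2) := by
        field_simp
        ring
      rw [e1, h2]
      rw [e4] at e3
      calc |a m| * (Real.exp (-(Real.pi * κ * m * x / 2)) *
            Real.exp (-(Real.pi * κ * m * x / 2))) ≤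
          |a m| * ((8 / (Real.pi * κ) ^ 2 * (1 / x ^ 2) * (1 / (m : ℝ) ^ 2)) *
            Real.exp (-(Real.pi * κ / 2 * x))) := by
            refine mul_le_mul_of_nonneg_left ?_ (abs_nonneg _)
            exact mul_le_mul e3 e2 (Real.exp_pos _).le (by positivity)
        _ = _ := by ring
  have hsum := hs.mul_left
    (8 / (Real.pi * κ) ^ 2 * (1 / x ^ 2) * Real.exp (-(Real.pi * κ / 2 * x)))
  have h1 : ‖ThC a κ w‖ ≤ ∑' m : ℕ, (8 / (Real.pi * κ) ^ 2 * (1 / x ^ 2) *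
      Real.exp (-(Real.pi * κ / 2 * x))) * (|a m| * (m : ℝ) ^ (-(2 : ℝ))) :=
    tsum_of_norm_bounded (f := fun m : ℕ => (a m : ℂ) *
      Complex.exp (-(Real.pi * κ * m * w))) hsum.hasSum hterm
  rw [tsum_mul_left] at h1
  refine h1.trans ?_
  rw [hx2]
  have h2 : 0 ≤ 1 / x ^ 2 * Real.exp (-(Real.pi * κ / 2 * x)) := by positivity
  have h3 : 8 / (Real.pi * κ) ^ 2 * (1 / x ^ 2) * Real.exp (-(Real.pi * κ / 2 * x)) *
      ∑' m : ℕ, |a m| * (m : ℝ) ^ (-(2 : ℝ)) =
      (8 / (Real.pi * κ) ^ 2 * B) * (1 / x ^ 2 * Real.exp (-(Real.pi * κ / 2 * x))) := by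
    rw [← hB]
    ring
  rw [h3]
  linarith

end W3283z
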