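import Pool.Agent.W_3283e1_zd.ZRay
import Pool.Agent.W_3283e1_zd.ZThC

set_option autoImplicit false

namespace W3283z

open Complex W3283f MeasureTheory Filter Topology

/-- Convolution with a Dirichlet polynomial. -/
theorem ZSml_conv (D : Finset ℕ) (μ a : ℕ → ℝ) (e : ℕ → ℂ) (hD : ∀ d ∈ D, 0 < d)
    (hs : ∀ d ∈ D, Summable (fun m : ℕ => (a m : ℂ) * e (d * m))) :
    Summable (fun n : ℕ => (cv D μ a n : ℂ) * e n) ∧
      ∑ d ∈ D, (μ d : ℂ) * ∑' m : ℕ, (a m : ℂ) * e (d * m) =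
        ∑' n : ℕ, (cv D μ a n : ℂ) * e n := by
  classical
  set f : ℕ → ℕ → ℂ := fun d n => if d ∣ n then ((a (n / d) : ℝ) : ℂ) * e n else 0 with hf
  have h1 : ∀ d ∈ D, Summable (f d) ∧ ∑' m : ℕ, (a m : ℂ) * e (d * m) = ∑' n, f d n := by
    intro d hd
    have hd0 := hD d hd
    have hi : Function.Injective (fun m : ℕ => d * m) :=
      fun x y hxy => Nat.eq_of_mul_eq_mul_left hd0 hxy
    have hc : (f d) ∘ (fun m : ℕ => d * m) = fun m : ℕ => (a m : ℂ) * e (d * m) := by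
      funext m
      simp only [hf, Function.comp]
      rw [if_pos (Dvd.intro m rfl), Nat.mul_div_cancel_left m hd0]
    have h0 : ∀ x ∉ Set.range (fun m : ℕ => d * m), f d x = 0 := by
      intro x hx
      simp only [hf]
      rw [if_neg]
      rintro ⟨m, hm⟩
      exact hx ⟨m, hm.symm⟩
    constructor
    · rw [← hi.summable_iff h0, hc]
      exact hs d hd
    · rw [← hi.tsum_eq (f := f d) (by
        intro x hx
        by_contra hcon
        exact hx (h0 x hcon))]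
      exact tsum_congr fun m => (congrFun hc m).symm
  have h2 : ∀ n, (cv D μ a n : ℂ) * e n = ∑ d ∈ D, (μ d : ℂ) * f d n := by
    intro n
    unfold cv
    rw [Complex.ofReal_sum, Finset.sum_mul]
    refine Finset.sum_congr rfl fun d _ => ?_
    simp only [hf]
    split_ifs
    · push_cast
      ring
    · simp
  constructor
  · rw [funext h2]
    exact summable_sum fun d hd => (h1 d hd).1.mul_left _
  · rw [funext h2, Summable.tsum_finsetSum (fun d hd => (h1 d hd).1.mul_left _)]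
    refine Finset.sum_congr rfl fun d hd => ?_
    rw [(h1 d hd).2, tsum_mul_left]

theorem ZSml_ei (φ : ℝ) : ei φ = ((Real.cos φ : ℝ) : ℂ) + ((Real.sin φ : ℝ) : ℂ) * I := by
  unfold ei
  rw [Complex.exp_mul_I, ← Complex.ofReal_cos, ← Complex.ofReal_sin]

theorem ZSml_abs (a : ℕ → ℝ) (κ ε : ℝ) (h : ThData a κ ε) (x : ℝ) (hx : 0 < x) :
    Summable (fun m : ℕ => |a m| * Real.exp (-(x * m))) := by
  have hpk : 0 < Real.pi * κ := mul_pos Real.pi_pos h.κpos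
  have hκ := h.κpos.ne'
  refine (Th_summable a κ ε h (x / (Real.pi * κ)) (div_pos hx hpk)).congr fun m => ?_
  congr 2
  field_simp

/-- The mean square of `Θ` on the far part of a ray. -/
theorem ZSml_R (a : ℕ → ℝ) (κ ε : ℝ) (h : ThData a κ ε) (hM : Mol a) (τ : ℝ) (hτ : 1 < τ)
    (hτ3 : τ ≤ 3) :
    ∃ K : ℝ, 0 < K ∧ ∀ φ : ℝ, |φ| < Real.pi / 2 → 1 / 2 ≤ |Real.sin φ| →
      ∫⁻ y in Set.Ioi (1 / 4 : ℝ), ‖ThC a κ (y * ei φ)‖ₑ ^ 2 *
          ENNReal.ofReal (y ^ (2 * τ - 1)) ≤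
        ENNReal.ofReal (K * (Real.cos φ) ^ (-(2 * τ))) := by
  obtain ⟨B, hB, hB2⟩ := ray_sq κ h.κpos
  have hA := hM.sq τ hτ
  set A : ℝ := ∑' m : ℕ, (a m) ^ 2 * (m : ℝ) ^ (-(2 * τ)) with hAd
  have hA0 : 0 ≤ A := tsum_nonneg fun m => by positivity
  refine ⟨B * A + 1, by positivity, fun φ hφ hs => ?_⟩
  have hC : 0 < Real.cos φ := Real.cos_pos_of_mem_Ioo (abs_lt.1 hφ)
  have h1 := hB2 a h.a0 (ZSml_abs a κ ε h) (Real.cos φ) (Real.sin φ) hC hs τ hτ.le hτ3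
  rw [← ENNReal.ofReal_tsum_of_nonneg (fun m => by positivity) hA, ← hAd,
    ← ENNReal.ofReal_mul (by positivity)] at h1
  rw [ZSml_ei]
  refine (le_trans (le_of_eq ?_) h1).trans (ENNReal.ofReal_le_ofReal ?_)
  · rfl
  · have h2 : 0 < (Real.cos φ) ^ (-(2 * τ)) := Real.rpow_pos_of_pos hC _
    nlinarith

/-- Scaling. -/
theorem ZSml_scale (c : ℝ) (hc : 1 ≤ c) (g : ℝ → ENNReal) :
    ∫⁻ y in Set.Ioi (0 : ℝ), g (c * y) ≤ ∫⁻ u in Set.Ioi (0 : ℝ), g u := by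
  have hc0 : 0 < c := lt_of_lt_of_le one_pos hc
  have h1 := lintegral_image_eq_lintegral_abs_deriv_mul (s := Set.Ioi (0 : ℝ))
    (f := fun y : ℝ => c * y) (f' := fun _ => c) measurableSet_Ioi
    (fun x _ => by simpa using ((hasDerivAt_id x).const_mul c).hasDerivWithinAt)
    (fun x _ y _ hxy => mul_left_cancel₀ hc0.ne' hxy) g
  have h2 : (fun y : ℝ => c * y) '' Set.Ioi (0 : ℝ) = Set.Ioi (0 : ℝ) := by
    ext x
    constructor
    · rintro ⟨y, hy, rfl⟩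
      exact mul_pos hc0 hy
    · intro hx
      exact ⟨x / c, div_pos hx hc0, by field_simp⟩
  rw [h2] at h1
  rw [h1]
  refine lintegral_mono fun y => ?_
  refine le_mul_of_one_le_left zero_le ?_
  rw [abs_of_pos hc0]
  exact ENNReal.one_le_ofReal.2 hc

/-- Inversion. -/
theorem ZSml_inv (g : ℝ → ENNReal) :
    ∫⁻ u in Set.Ioc (0 : ℝ) (1 / 4), g u =
      ∫⁻ v in Set.Ici (4 : ℝ), ENNReal.ofReal ((v ^ 2)⁻¹) * g (v⁻¹) := by
  have h1 := lintegral_image_eq_lintegral_abs_deriv_mul (s := Set.Ici (4 : ℝ))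
    (f := fun v : ℝ => v⁻¹) (f' := fun v => -(v ^ 2)⁻¹) measurableSet_Ici
    (fun x hx => (hasDerivAt_inv (lt_of_lt_of_le (by norm_num) hx : (0 : ℝ) < x).ne').hasDerivWithinAt)
    (fun x _ y _ hxy => inv_injective hxy) g
  have h2 : (fun v : ℝ => v⁻¹) '' Set.Ici (4 : ℝ) = Set.Ioc (0 : ℝ) (1 / 4) := by
    ext x
    constructor
    · rintro ⟨y, hy, rfl⟩
      have hy4 : (4 : ℝ) ≤ y := hy
      have hy0 : (0 : ℝ) < y := lt_of_lt_of_le (by norm_num) hy4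
      refine ⟨inv_pos.2 hy0, ?_⟩
      rw [one_div]
      exact inv_anti₀ (by norm_num) hy4
    · rintro ⟨hx0, hx1⟩
      refine ⟨x⁻¹, ?_, inv_inv x⟩
      rw [one_div] at hx1
      have := inv_anti₀ hx0 hx1
      rwa [inv_inv] at this
  rw [h2] at h1
  rw [h1]
  refine lintegral_congr fun v => ?_
  rw [abs_neg, abs_of_nonneg (by positivity)]

/-- The near part of a ray. -/
theorem ZSml_near (a : ℕ → ℝ) (κ ε : ℝ) (h : ThData a κ ε) (τ : ℝ) (hτ : 1 < τ) (φ : ℝ)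
    (hφ : |φ| < Real.pi / 2) :
    ∫⁻ y in Set.Ioc (0 : ℝ) (1 / 4), ‖ThC a κ (y * ei φ)‖ₑ ^ 2 *
        ENNReal.ofReal (y ^ (2 * τ - 1)) ≤
      ∫⁻ y in Set.Ioi (1 / 4 : ℝ), ‖ThC a κ (y * ei (-φ))‖ₑ ^ 2 *
        ENNReal.ofReal (y ^ (2 * τ - 1)) := by
  rw [ZSml_inv]
  refine le_trans ?_ (lintegral_mono_set (s := Set.Ici (4 : ℝ)) fun x hx => ?_)
  · refine setLIntegral_mono' measurableSet_Ici fun v hv => ?_
    have hv4 : (4 : ℝ) ≤ v := hv
    have hv0 : (0 : ℝ) < v := lt_of_lt_of_le (by norm_num) hv4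
    have hC : 0 < Real.cos φ := Real.cos_pos_of_mem_Ioo (abs_lt.1 hφ)
    have e1 : ((v⁻¹ : ℝ) : ℂ) * ei φ = 1 / ((v : ℂ) * ei (-φ)) := by
      have h1 : ei φ * ei (-φ) = 1 := by
        unfold ei
        rw [← Complex.exp_add]
        push_cast
        rw [show (φ : ℂ) * I + -(φ : ℂ) * I = 0 by ring, Complex.exp_zero]
      have h2 : ei (-φ) ≠ 0 := Complex.exp_ne_zero _
      have h3 : (v : ℂ) ≠ 0 := by exact_mod_cast hv0.ne'
      push_cast
      field_simp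
      rw [h1]
    have hre : 0 < ((v : ℂ) * ei (-φ)).re := by
      rw [ZSml_ei, Real.cos_neg]
      simp only [Complex.mul_re, Complex.add_re, Complex.ofReal_re, Complex.I_re, Complex.ofReal_im,
        Complex.I_im, Complex.add_im, Complex.mul_im]
      have := mul_pos hv0 hC
      nlinarith
    rw [e1, thc_inv a κ ε h _ hre]
    have hn : ‖ei (-φ)‖ = 1 := by
      unfold ei
      exact Complex.norm_exp_ofReal_mul_I _
    have hε : ‖(ε : ℂ)‖ = 1 := by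
      rcases h.eps with h1 | h1 <;> rw [h1] <;> simp
    set Y : ℂ := ThC a κ ((v : ℂ) * ei (-φ)) with hY
    have e2 : ‖(ε : ℂ) * ((v : ℂ) * ei (-φ)) ^ 2 * Y‖ = v ^ 2 * ‖Y‖ := by
      rw [norm_mul, norm_mul, hε, one_mul, norm_pow, norm_mul, hn, mul_one,
        Complex.norm_of_nonneg hv0.le]
    rw [← ofReal_norm, ← ofReal_norm, e2, ← ENNReal.ofReal_pow (by positivity),
      ← ENNReal.ofReal_pow (by positivity), ← ENNReal.ofReal_mul (by positivity),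
      ← ENNReal.ofReal_mul (by positivity), ← ENNReal.ofReal_mul (by positivity)]
    refine ENNReal.ofReal_le_ofReal ?_
    have e3 : (v⁻¹) ^ (2 * τ - 1) = v ^ (-(2 * τ - 1)) := by
      rw [Real.rpow_neg hv0.le, Real.inv_rpow hv0.le]
    have e4 : v ^ 2 * v ^ (-(2 * τ - 1)) ≤ v ^ (2 * τ - 1) := by
      rw [← Real.rpow_natCast v 2, ← Real.rpow_add hv0]
      refine Real.rpow_le_rpow_of_exponent_le (by linarith) ?_
      push_cast
      linarith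
    have e5 : (v ^ 2)⁻¹ * ((v ^ 2 * ‖Y‖) ^ 2 * (v⁻¹) ^ (2 * τ - 1)) =
        ‖Y‖ ^ 2 * (v ^ 2 * v ^ (-(2 * τ - 1))) := by
      rw [e3]
      field_simp
    rw [e5]
    exact mul_le_mul_of_nonneg_left e4 (by positivity)
  · have hx4 : (4 : ℝ) ≤ x := hx
    show (1 / 4 : ℝ) < x
    linarith

/-- `Θ` on a ray for bounded `y`: for `1 < τ < σ ≤ 3` the integral over `(0, 1/4]` of `|Θ(d y e^{iφ})|² y^{2σ-1}` is at
most `K (cos φ)^{-2τ}`.  Substitute `d y → y`; on `[1/4, d/4]` use `ray_sq` with `τ` (`y^{2σ-1} ≤ d^{2σ} y^{2τ-1}` up to a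
constant); on `(0, 1/4]` use `thc_inv`: `|Θ(y e^{iφ})| = y^{-2} |Θ(y⁻¹ e^{-iφ})|`, `y → 1/y`,
`∫_4^∞ |Θ(y e^{-iφ})|² y^{3-2σ} dy` and `y^{3-2σ} ≤ y^{2τ-1}`, `ray_sq` with `τ`, `Σ a_m² m^{-2τ} < ∞`. -/
theorem small_y (a : ℕ → ℝ) (κ ε : ℝ) (h : ThData a κ ε) (hM : Mol a) (τ : ℝ) (hτ : 1 < τ)
    (hτ3 : τ ≤ 3) (d : ℕ) (hd : 0 < d) :
    ∃ K : ℝ, 0 < K ∧ ∀ (φ σ : ℝ), |φ| < Real.pi / 2 → 1 / 2 ≤ |Real.sin φ| → τ ≤ σ → σ ≤ 3 →
      ∫⁻ y in Set.Ioc (0 : ℝ) (1 / 4), ‖ThC a κ (d * (y * ei φ))‖ₑ ^ 2 *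
          ENNReal.ofReal (y ^ (2 * σ - 1)) ≤
        ENNReal.ofReal (K * (Real.cos φ) ^ (-(2 * τ))) := by
  obtain ⟨K, hK, hK2⟩ := ZSml_R a κ ε h hM τ hτ hτ3
  refine ⟨2 * K, by positivity, fun φ σ hφ hs h1 h2 => ?_⟩
  have hC : 0 < Real.cos φ := Real.cos_pos_of_mem_Ioo (abs_lt.1 hφ)
  have hd1 : (1 : ℝ) ≤ d := by exact_mod_cast hd
  set g : ℝ → ENNReal := fun u => ‖ThC a κ (u * ei φ)‖ₑ ^ 2 * ENNReal.ofReal (u ^ (2 * τ - 1))
    with hg
  calc ∫⁻ y in Set.Ioc (0 : ℝ) (1 / 4), ‖ThC a κ (d * (y * ei φ))‖ₑ ^ 2 *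
          ENNReal.ofReal (y ^ (2 * σ - 1))
      ≤ ∫⁻ y in Set.Ioc (0 : ℝ) (1 / 4), g ((d : ℝ) * y) := by
        refine setLIntegral_mono' measurableSet_Ioc fun y hy => ?_
        simp only [hg]
        have e1 : (d : ℂ) * ((y : ℂ) * ei φ) = (((d : ℝ) * y : ℝ) : ℂ) * ei φ := by
          push_cast
          ring
        rw [e1]
        refine mul_le_mul_right ?_ _
        refine ENNReal.ofReal_le_ofReal ?_
        have hy1 : y ≤ 1 := hy.2.trans (by norm_num)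
        calc y ^ (2 * σ - 1) ≤ y ^ (2 * τ - 1) :=
              Real.rpow_le_rpow_of_exponent_ge hy.1 hy1 (by linarith)
          _ ≤ ((d : ℝ) * y) ^ (2 * τ - 1) :=
              Real.rpow_le_rpow hy.1.le (le_mul_of_one_le_left hy.1.le hd1) (by linarith)
    _ ≤ ∫⁻ y in Set.Ioi (0 : ℝ), g ((d : ℝ) * y) := lintegral_mono_set Set.Ioc_subset_Ioi_self
    _ ≤ ∫⁻ u in Set.Ioi (0 : ℝ), g u := ZSml_scale d hd1 g
    _ = ∫⁻ u in Set.Ioc (0 : ℝ) (1 / 4) ∪ Set.Ioi (1 / 4), g u := by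
        rw [Set.Ioc_union_Ioi_eq_Ioi (by norm_num)]
    _ ≤ (∫⁻ u in Set.Ioc (0 : ℝ) (1 / 4), g u) + ∫⁻ u in Set.Ioi (1 / 4 : ℝ), g u :=
        lintegral_union_le _ _ _
    _ ≤ ENNReal.ofReal (K * (Real.cos φ) ^ (-(2 * τ))) +
          ENNReal.ofReal (K * (Real.cos φ) ^ (-(2 * τ))) := by
        refine add_le_add ?_ (hK2 φ hφ hs)
        refine (ZSml_near a κ ε h τ hτ φ hφ).trans ?_
        have := hK2 (-φ) (by rwa [abs_neg]) (by rwa [Real.sin_neg, abs_neg])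
        rwa [Real.cos_neg] at this
    _ = ENNReal.ofReal (2 * K * (Real.cos φ) ^ (-(2 * τ))) := by
        have h3 : 0 < (Real.cos φ) ^ (-(2 * τ)) := Real.rpow_pos_of_pos hC _
        rw [← ENNReal.ofReal_add (by positivity) (by positivity)]
        congr 1
        ring

/-- The series of `GD`: `GD D μ a κ w = Σ_n b_n e^{-πκnw}` with `b_n = cv D μ a n` for `n ≠ 1`, `b_1 = cv D μ a 1 - 1`. -/
theorem gd_series (a : ℕ → ℝ) (κ ε : ℝ) (h : ThData a κ ε) (D : Finset ℕ) (μ : ℕ → ℝ)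
    (hD : ∀ d ∈ D, 0 < d) (w : ℂ) (hw : 0 < w.re) :
    GD D μ a κ w = ∑' n : ℕ, ((cv D μ a n - if n = 1 then 1 else 0 : ℝ) : ℂ) *
      Complex.exp (-(Real.pi * κ * n * w)) := by
  set e : ℕ → ℂ := fun n => Complex.exp (-(Real.pi * κ * n * w)) with he
  have hs : ∀ d ∈ D, Summable (fun m : ℕ => (a m : ℂ) * e (d * m)) := by
    intro d hd
    have hd0 : (0 : ℝ) < d := by exact_mod_cast hD d hd
    have h1 : 0 < ((d : ℂ) * w).re := by
      rw [← Complex.ofReal_natCast, Complex.re_ofReal_mul]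
      exact mul_pos hd0 hw
    refine ((thc_sum a κ ε h _ h1).of_norm).congr fun m => ?_
    simp only [he]
    congr 3
    push_cast
    ring
  have hT : ∀ d ∈ D, ThC a κ (d * w) = ∑' m : ℕ, (a m : ℂ) * e (d * m) := by
    intro d hd
    unfold ThC
    refine tsum_congr fun m => ?_
    simp only [he]
    congr 3
    push_cast
    ring
  obtain ⟨hc1, hc2⟩ := ZSml_conv D μ a e hD hs
  have h1 : HasSum (fun n : ℕ => ((if n = 1 then 1 else 0 : ℝ) : ℂ) * e n) (e 1) := by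
    have := hasSum_single (f := fun n : ℕ => ((if n = 1 then 1 else 0 : ℝ) : ℂ) * e n) 1
      (fun n hn => by simp [hn])
    simpa using this
  have h2 : e 1 = Complex.exp (-(Real.pi * κ * w)) := by
    simp only [he]
    congr 2
    push_cast
    ring
  unfold GD
  rw [Finset.sum_congr rfl (fun d hd => by rw [hT d hd]), hc2, ← h2, ← h1.tsum_eq,
    ← hc1.tsum_sub h1.summable]
  refine tsum_congr fun n => ?_
  rw [← sub_mul, ← Complex.ofReal_sub]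

/-- Small tails. -/
theorem ZSml_tail (f : ℕ → ℝ) (hf : Summable f) (η : ℝ) (hη : 0 < η) :
    ∃ z : ℕ, Summable (fun n : ℕ => if n ≤ z then 0 else f n) ∧
      ∑' n : ℕ, (if n ≤ z then 0 else f n) ≤ η := by
  have h1 := tendsto_sum_nat_add f
  have h2 : ∀ᶠ i in atTop, ∑' k : ℕ, f (k + i) < η := h1.eventually (gt_mem_nhds hη)
  obtain ⟨N, hN⟩ := eventually_atTop.1 h2
  have hs : Summable (fun n : ℕ => if n ≤ N then 0 else f n) := by
    have h3 : Summable (fun n : ℕ => (if n ≤ N then 0 else f n) - f n) := by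
      refine summable_of_ne_finset_zero (s := Finset.range (N + 1)) fun n hn => ?_
      rw [Finset.mem_range, not_lt] at hn
      rw [if_neg (by omega), sub_self]
    have h4 := h3.add hf
    simpa using h4
  refine ⟨N, hs, ?_⟩
  have h5 := hs.sum_add_tsum_nat_add (N + 1)
  rw [Finset.sum_eq_zero (fun n hn => by
    rw [Finset.mem_range] at hn
    rw [if_pos (by omega)]), zero_add] at h5
  rw [← h5]
  refine le_trans (le_of_eq (tsum_congr fun k => ?_)) (hN (N + 1) (by omega)).le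
  rw [if_neg (by omega)]

/-- The Dirichlet series of the mollified function. -/
theorem ZSml_dir (a : ℕ → ℝ) (κ ε : ℝ) (h : ThData a κ ε) (D : Finset ℕ) (μ : ℕ → ℝ)
    (hD : ∀ d ∈ D, 0 < d) (s : ℂ) (hs : 3 / 2 < s.re) :
    Summable (fun n : ℕ => ((cv D μ a n - if n = 1 then 1 else 0 : ℝ) : ℂ) * (n : ℂ) ^ (-s)) ∧
    LG a κ s * MD D μ s - 1 =
      ∑' n : ℕ, ((cv D μ a n - if n = 1 then 1 else 0 : ℝ) : ℂ) * (n : ℂ) ^ (-s) := by
  obtain ⟨h1, h2⟩ := LG_eq a κ ε h s hs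
  have h3 : ∀ m : ℕ, LSeries.term (fun m => (a m : ℂ)) s m = (a m : ℂ) * (m : ℂ) ^ (-s) := by
    intro m
    by_cases hm : m = 0
    · subst hm
      rw [LSeries.term_zero, h.a0]
      simp
    · rw [LSeries.term_of_ne_zero hm, Complex.cpow_neg, div_eq_mul_inv]
  set e : ℕ → ℂ := fun n => (n : ℂ) ^ (-s) with he
  have h4 : Summable (fun m : ℕ => (a m : ℂ) * e m) := by
    refine Summable.congr h1 fun m => ?_
    exact h3 m
  have h5 : ∀ d m : ℕ, (a m : ℂ) * e (d * m) = e d * ((a m : ℂ) * e m) := by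
    intro d m
    simp only [he]
    rw [Nat.cast_mul, Complex.natCast_mul_natCast_cpow]
    ring
  obtain ⟨hc1, hc2⟩ := ZSml_conv D μ a e hD (fun d _ => by
    rw [funext (h5 d)]
    exact h4.mul_left _)
  have h6 : HasSum (fun n : ℕ => ((if n = 1 then 1 else 0 : ℝ) : ℂ) * e n) 1 := by
    have := hasSum_single (f := fun n : ℕ => ((if n = 1 then 1 else 0 : ℝ) : ℂ) * e n) 1
      (fun n hn => by simp [hn])
    have h7 : e 1 = 1 := by simp [he]
    simpa [h7] using this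
  have h8 : LG a κ s * MD D μ s = ∑' n : ℕ, (cv D μ a n : ℂ) * e n := by
    rw [← hc2, h2]
    unfold MD LSeries
    rw [tsum_congr h3, Finset.mul_sum]
    refine Finset.sum_congr rfl fun d _ => ?_
    rw [tsum_congr (h5 d), tsum_mul_left]
    simp only [he]
    ring
  constructor
  · refine (hc1.sub h6.summable).congr fun n => ?_
    rw [← sub_mul, ← Complex.ofReal_sub]
  · rw [h8]
    conv_lhs => rw [← h6.tsum_eq]
    rw [← hc1.tsum_sub h6.summable]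
    refine tsum_congr fun n => ?_
    rw [← sub_mul, ← Complex.ofReal_sub]

/-- Pointwise bound for `GD`. -/
theorem ZSml_pt (D : Finset ℕ) (μ a : ℕ → ℝ) (κ : ℝ) (hκ : 0 < κ) (w : ℂ) (hw : 0 < w.re) :
    ‖GD D μ a κ w‖ ^ 2 ≤ ∑ d ∈ D, 2 * D.card * μ d ^ 2 * ‖ThC a κ (d * w)‖ ^ 2 + 2 := by
  unfold GD
  have h1 : ‖Complex.exp (-(Real.pi * κ * w))‖ ≤ 1 := by
    rw [Complex.norm_exp]
    refine Real.exp_le_one_iff.2 ?_
    rw [← Complex.ofReal_mul, Complex.neg_re, Complex.re_ofReal_mul]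
    have := mul_pos (mul_pos Real.pi_pos hκ) hw
    linarith
  have h2 : ‖∑ d ∈ D, (μ d : ℂ) * ThC a κ (d * w)‖ ^ 2 ≤
      D.card * ∑ d ∈ D, μ d ^ 2 * ‖ThC a κ (d * w)‖ ^ 2 := by
    calc ‖∑ d ∈ D, (μ d : ℂ) * ThC a κ (d * w)‖ ^ 2
        ≤ (∑ d ∈ D, ‖(μ d : ℂ) * ThC a κ (d * w)‖) ^ 2 :=
          pow_le_pow_left₀ (norm_nonneg _) (norm_sum_le _ _) 2
      _ ≤ D.card * ∑ d ∈ D, ‖(μ d : ℂ) * ThC a κ (d * w)‖ ^ 2 := sq_sum_le_card_mul_sum_sq
      _ = D.card * ∑ d ∈ D, μ d ^ 2 * ‖ThC a κ (d * w)‖ ^ 2 := by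
          congr 1
          refine Finset.sum_congr rfl fun d _ => ?_
          rw [norm_mul, mul_pow, Complex.norm_real, Real.norm_eq_abs, sq_abs]
  have h3 := norm_sub_le (∑ d ∈ D, (μ d : ℂ) * ThC a κ (d * w)) (Complex.exp (-(Real.pi * κ * w)))
  have h4 : ∑ d ∈ D, 2 * D.card * μ d ^ 2 * ‖ThC a κ (d * w)‖ ^ 2 =
      2 * (D.card * ∑ d ∈ D, μ d ^ 2 * ‖ThC a κ (d * w)‖ ^ 2) := by
    rw [Finset.mul_sum, Finset.mul_sum]
    refine Finset.sum_congr rfl fun d _ => ?_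
    ring
  rw [h4]
  have h5 := norm_nonneg (∑ d ∈ D, (μ d : ℂ) * ThC a κ (d * w) - Complex.exp (-(Real.pi * κ * w)))
  have h6 := norm_nonneg (∑ d ∈ D, (μ d : ℂ) * ThC a κ (d * w))
  have h7 := norm_nonneg (Complex.exp (-(Real.pi * κ * w)))
  nlinarith [sq_nonneg (‖∑ d ∈ D, (μ d : ℂ) * ThC a κ (d * w)‖ -
    ‖Complex.exp (-(Real.pi * κ * w))‖)]

theorem ZSml_re (φ : ℝ) (hφ : |φ| < Real.pi / 2) (y : ℝ) (hy : 0 < y) :
    0 < ((y : ℂ) * ei φ).re := by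
  have hC : 0 < Real.cos φ := Real.cos_pos_of_mem_Ioo (abs_lt.1 hφ)
  rw [ZSml_ei, Complex.re_ofReal_mul]
  simp only [Complex.mul_re, Complex.add_re, Complex.ofReal_re, Complex.I_re, Complex.ofReal_im,
    Complex.I_im]
  have := mul_pos hy hC
  linarith

/-- The near part for `GD`. -/
theorem ZSml_gdnear (a : ℕ → ℝ) (κ ε : ℝ) (h : ThData a κ ε) (hM : Mol a) (τ : ℝ) (hτ : 1 < τ)
    (hτ3 : τ ≤ 3) (D : Finset ℕ) (μ : ℕ → ℝ) (hD : ∀ d ∈ D, 0 < d) :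
    ∃ K : ℝ, 0 < K ∧ ∀ (φ σ : ℝ), |φ| < Real.pi / 2 → 1 / 2 ≤ |Real.sin φ| → τ ≤ σ → σ ≤ 3 →
      ∫⁻ y in Set.Ioc (0 : ℝ) (1 / 4), ‖GD D μ a κ (y * ei φ)‖ₑ ^ 2 *
          ENNReal.ofReal (y ^ (2 * σ - 1)) ≤
        ENNReal.ofReal (K * (Real.cos φ) ^ (-(2 * τ))) := by
  have hex : ∀ d : ℕ, ∃ K : ℝ, 0 < K ∧ (0 < d → ∀ (φ σ : ℝ), |φ| < Real.pi / 2 →
      1 / 2 ≤ |Real.sin φ| → τ ≤ σ → σ ≤ 3 →
      ∫⁻ y in Set.Ioc (0 : ℝ) (1 / 4), ‖ThC a κ (d * (y * ei φ))‖ₑ ^ 2 *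
          ENNReal.ofReal (y ^ (2 * σ - 1)) ≤
        ENNReal.ofReal (K * (Real.cos φ) ^ (-(2 * τ)))) := by
    intro d
    by_cases hd : 0 < d
    · obtain ⟨K, h1, h2⟩ := small_y a κ ε h hM τ hτ hτ3 d hd
      exact ⟨K, h1, fun _ => h2⟩
    · exact ⟨1, one_pos, fun hd' => absurd hd' hd⟩
  choose Kf hK1 hK2 using hex
  have hS : 0 ≤ ∑ d ∈ D, 2 * D.card * μ d ^ 2 * Kf d :=
    Finset.sum_nonneg fun d _ => mul_nonneg (by positivity) (hK1 d).le
  refine ⟨∑ d ∈ D, 2 * D.card * μ d ^ 2 * Kf d + 2, by linarith, fun φ σ hφ hs h1 h2 => ?_⟩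
  have hC : 0 < Real.cos φ := Real.cos_pos_of_mem_Ioo (abs_lt.1 hφ)
  have hX1 : 1 ≤ (Real.cos φ) ^ (-(2 * τ)) :=
    Real.one_le_rpow_of_pos_of_le_one_of_nonpos hC (Real.cos_le_one φ) (by linarith)
  set X : ℝ := (Real.cos φ) ^ (-(2 * τ)) with hX
  have hmeas : ∀ d ∈ D, AEMeasurable (fun y : ℝ => ‖ThC a κ (d * (y * ei φ))‖ₑ ^ 2 *
      ENNReal.ofReal (y ^ (2 * σ - 1))) (volume.restrict (Set.Ioc (0 : ℝ) (1 / 4))) := by
    intro d hd
    have hd0 : (0 : ℝ) < d := by exact_mod_cast hD d hd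
    have hc : ContinuousOn (fun y : ℝ => ThC a κ (d * (y * ei φ))) (Set.Ioc (0 : ℝ) (1 / 4)) := by
      refine (thc_diff a κ ε h).continuousOn.comp (s := Set.Ioc (0 : ℝ) (1 / 4)) ?_ ?_
      · exact (by fun_prop : Continuous fun y : ℝ => (d : ℂ) * ((y : ℂ) * ei φ)).continuousOn
      · intro y hy
        show 0 < ((d : ℂ) * ((y : ℂ) * ei φ)).re
        rw [← Complex.ofReal_natCast, Complex.re_ofReal_mul]
        exact mul_pos hd0 (ZSml_re φ hφ y hy.1)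
    refine ((hc.aemeasurable measurableSet_Ioc).enorm.pow_const 2).mul ?_
    exact ((measurable_id.pow_const (2 * σ - 1)).ennreal_ofReal).aemeasurable
  calc ∫⁻ y in Set.Ioc (0 : ℝ) (1 / 4), ‖GD D μ a κ (y * ei φ)‖ₑ ^ 2 *
          ENNReal.ofReal (y ^ (2 * σ - 1))
      ≤ ∫⁻ y in Set.Ioc (0 : ℝ) (1 / 4), ((∑ d ∈ D, ENNReal.ofReal (2 * D.card * μ d ^ 2) *
          (‖ThC a κ (d * (y * ei φ))‖ₑ ^ 2 * ENNReal.ofReal (y ^ (2 * σ - 1)))) +
            ENNReal.ofReal 2) := by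
        refine setLIntegral_mono' measurableSet_Ioc fun y hy => ?_
        have hy1 : y ^ (2 * σ - 1) ≤ 1 :=
          Real.rpow_le_one hy.1.le (hy.2.trans (by norm_num)) (by linarith)
        have hy0 : 0 ≤ y ^ (2 * σ - 1) := Real.rpow_nonneg hy.1.le _
        have h3 := ZSml_pt D μ a κ h.κpos _ (ZSml_re φ hφ y hy.1)
        have h4 : ‖GD D μ a κ (y * ei φ)‖ₑ ^ 2 * ENNReal.ofReal (y ^ (2 * σ - 1)) =
            ENNReal.ofReal (‖GD D μ a κ (y * ei φ)‖ ^ 2 * y ^ (2 * σ - 1)) := by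
          rw [← ofReal_norm, ← ENNReal.ofReal_pow (norm_nonneg _),
            ← ENNReal.ofReal_mul (by positivity)]
        have h5 : ∀ d ∈ D, ENNReal.ofReal (2 * D.card * μ d ^ 2) *
            (‖ThC a κ (d * (y * ei φ))‖ₑ ^ 2 * ENNReal.ofReal (y ^ (2 * σ - 1))) =
            ENNReal.ofReal (2 * D.card * μ d ^ 2 * (‖ThC a κ (d * (y * ei φ))‖ ^ 2 *
              y ^ (2 * σ - 1))) := by
          intro d _
          rw [← ofReal_norm, ← ENNReal.ofReal_pow (norm_nonneg _),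
            ← ENNReal.ofReal_mul (by positivity), ← ENNReal.ofReal_mul (by positivity)]
        rw [h4, Finset.sum_congr rfl h5, ← ENNReal.ofReal_sum_of_nonneg (fun d _ => by positivity),
          ← ENNReal.ofReal_add (Finset.sum_nonneg fun d _ => by positivity) (by norm_num)]
        refine ENNReal.ofReal_le_ofReal ?_
        calc ‖GD D μ a κ (y * ei φ)‖ ^ 2 * y ^ (2 * σ - 1)
            ≤ (∑ d ∈ D, 2 * D.card * μ d ^ 2 * ‖ThC a κ (d * (y * ei φ))‖ ^ 2 + 2) *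
                y ^ (2 * σ - 1) := mul_le_mul_of_nonneg_right h3 hy0
          _ = ∑ d ∈ D, 2 * D.card * μ d ^ 2 * (‖ThC a κ (d * (y * ei φ))‖ ^ 2 *
                y ^ (2 * σ - 1)) + 2 * y ^ (2 * σ - 1) := by
              rw [add_mul, Finset.sum_mul]
              congr 1
              refine Finset.sum_congr rfl fun d _ => ?_
              ring
          _ ≤ _ := by
              have : 2 * y ^ (2 * σ - 1) ≤ 2 := by linarith
              linarith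
    _ = (∑ d ∈ D, ENNReal.ofReal (2 * D.card * μ d ^ 2) *
          ∫⁻ y in Set.Ioc (0 : ℝ) (1 / 4), (‖ThC a κ (d * (y * ei φ))‖ₑ ^ 2 *
            ENNReal.ofReal (y ^ (2 * σ - 1)))) + ENNReal.ofReal 2 * ENNReal.ofReal (1 / 4 - 0) := by
        rw [lintegral_add_right' _ aemeasurable_const, lintegral_finsetSum' _
          (fun d hd => (hmeas d hd).const_mul _), setLIntegral_const, Real.volume_Ioc]
        congr 1
        refine Finset.sum_congr rfl fun d hd => ?_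
        rw [lintegral_const_mul'' _ (hmeas d hd)]
    _ ≤ (∑ d ∈ D, ENNReal.ofReal (2 * D.card * μ d ^ 2) * ENNReal.ofReal (Kf d * X)) +
          ENNReal.ofReal (2 * X) := by
        refine add_le_add (Finset.sum_le_sum fun d hd => ?_) ?_
        · gcongr
          exact hK2 d (hD d hd) φ σ hφ hs h1 h2
        · rw [← ENNReal.ofReal_mul (by norm_num)]
          refine ENNReal.ofReal_le_ofReal ?_
          linarith
    _ = ENNReal.ofReal ((∑ d ∈ D, 2 * D.card * μ d ^ 2 * Kf d + 2) * X) := by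
        have hXp : 0 ≤ X := by linarith
        rw [add_mul, ENNReal.ofReal_add (mul_nonneg hS hXp) (by positivity), Finset.sum_mul,
          ENNReal.ofReal_sum_of_nonneg (fun d _ => mul_nonneg (mul_nonneg (by positivity)
            (hK1 d).le) hXp)]
        congr 1
        refine Finset.sum_congr rfl fun d _ => ?_
        rw [← ENNReal.ofReal_mul (by positivity)]
        congr 1
        ring

/-- The mean square of `GD` on a ray: for every `η > 0` and `1 < τ` there are a mollifier and a constant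
`K` with `∫_0^∞ |GD(y e^{iφ})|² y^{2σ-1} dy ≤ η (cos φ)^{-2σ} + K (cos φ)^{-2τ}` for `τ ≤ σ ≤ 3`
(`ray_sq` on `y > 1/4` with `Σ_{n > z} a_n² n^{-2σ} ≤ Σ_{n > z} a_n² n^{-2τ}` small; on `y ≤ 1/4`
`|GD|² ≤ (#D + 1)(Σ μ_d² |Θ(dw)|² + 1)`, `small_y`).  Also `Σ_{n>z} |a_n| n^{-2} ≤ η`. -/
theorem gd_sq (a : ℕ → ℝ) (κ ε : ℝ) (h : ThData a κ ε) (hM : Mol a) (τ : ℝ) (hτ : 1 < τ)
    (hτ3 : τ ≤ 3) (η : ℝ) (hη : 0 < η) :
    ∃ (D : Finset ℕ) (μ : ℕ → ℝ) (K : ℝ), (∀ d ∈ D, 0 < d) ∧ 0 < K ∧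
      (∀ t : ℝ, ‖LG a κ (2 + t * I) * MD D μ (2 + t * I) - 1‖ ≤ η) ∧
      ∀ (φ σ : ℝ), |φ| < Real.pi / 2 → 1 / 2 ≤ |Real.sin φ| → τ ≤ σ → σ ≤ 3 →
      ∫⁻ y in Set.Ioi (0 : ℝ), ‖GD D μ a κ (y * ei φ)‖ₑ ^ 2 * ENNReal.ofReal (y ^ (2 * σ - 1)) ≤
        ENNReal.ofReal (η * (Real.cos φ) ^ (-(2 * σ)) + K * (Real.cos φ) ^ (-(2 * τ))) := by
  obtain ⟨B, hB, hB2⟩ := ray_sq κ h.κpos
  have hs1 := hM.sq τ hτ
  have hs2 := h.sum 2 (by norm_num)
  obtain ⟨z, hz1, hz2⟩ := ZSml_tail _ (hs1.add hs2) (min (η / B) η)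
    (lt_min (div_pos hη hB) hη)
  obtain ⟨D, μ, hD, hc1, hc2, hc3⟩ := hM.mol z
  obtain ⟨K, hK, hK2⟩ := ZSml_gdnear a κ ε h hM τ hτ hτ3 D μ hD
  obtain ⟨b, hb⟩ : ∃ b : ℕ → ℝ, b = fun n => cv D μ a n - if n = 1 then 1 else 0 := ⟨_, rfl⟩
  have hb1 : ∀ n, n ≤ z → b n = 0 := by
    intro n hn
    rw [hb]
    simp only
    by_cases h1 : n = 1
    · rw [if_pos h1, h1, hc1, sub_self]
    · rw [if_neg h1, sub_zero]
      by_cases h0 : n = 0
      · have h2 := hc3 0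
        rw [h.a0, abs_zero] at h2
        rw [h0]
        exact abs_eq_zero.1 (le_antisymm h2 (abs_nonneg _))
      · exact hc2 n (by omega) hn
  have hb2 : ∀ n, |b n| ≤ |a n| := by
    intro n
    rw [hb]
    simp only
    by_cases h1 : n = 1
    · rw [if_pos h1, h1, hc1, sub_self, abs_zero]
      exact abs_nonneg _
    · rw [if_neg h1, sub_zero]
      exact hc3 n
  have hb0 : b 0 = 0 := hb1 0 (Nat.zero_le _)
  set f : ℕ → ℝ := fun n => if n ≤ z then 0 else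
    ((a n) ^ 2 * (n : ℝ) ^ (-(2 * τ)) + |a n| * (n : ℝ) ^ (-(2 : ℝ))) with hf
  have hf0 : ∀ n, 0 ≤ f n := by
    intro n
    simp only [hf]
    split_ifs
    · exact le_rfl
    · positivity
  refine ⟨D, μ, K, hD, hK, ?_, ?_⟩
  · intro t
    have hre : ((2 : ℂ) + t * I).re = 2 := by simp
    obtain ⟨h1, h2⟩ := ZSml_dir a κ ε h D μ hD (2 + t * I) (by rw [hre]; norm_num)
    rw [h2]
    have h3 : ∀ n : ℕ, ‖((cv D μ a n - if n = 1 then 1 else 0 : ℝ) : ℂ) *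
        (n : ℂ) ^ (-((2 : ℂ) + t * I))‖ ≤ f n := by
      intro n
      have h4 : (cv D μ a n - if n = 1 then 1 else 0 : ℝ) = b n := by rw [hb]
      rw [h4]
      by_cases hn : n ≤ z
      · rw [hb1 n hn]
        simpa using hf0 n
      · simp only [hf]
        rw [if_neg hn]
        have hn0 : 0 < n := by omega
        rw [norm_mul, Complex.norm_real, Real.norm_eq_abs, Complex.norm_natCast_cpow_of_pos hn0,
          Complex.neg_re, hre]
        have h5 : |b n| * (n : ℝ) ^ (-(2 : ℝ)) ≤ |a n| * (n : ℝ) ^ (-(2 : ℝ)) :=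
          mul_le_mul_of_nonneg_right (hb2 n) (by positivity)
        have h6 : 0 ≤ (a n) ^ 2 * (n : ℝ) ^ (-(2 * τ)) := by positivity
        linarith
    exact (tsum_of_norm_bounded hz1.hasSum h3).trans (hz2.trans (min_le_right _ _))
  · intro φ σ hφ hs h1 h2
    have hC : 0 < Real.cos φ := Real.cos_pos_of_mem_Ioo (abs_lt.1 hφ)
    have hsum : ∀ x : ℝ, 0 < x → Summable (fun m : ℕ => |b m| * Real.exp (-(x * m))) := by
      intro x hx
      refine Summable.of_nonneg_of_le (fun m => by positivity) (fun m => ?_)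
        (ZSml_abs a κ ε h x hx)
      exact mul_le_mul_of_nonneg_right (hb2 m) (Real.exp_pos _).le
    have h3 := hB2 b hb0 hsum (Real.cos φ) (Real.sin φ) hC hs σ (by linarith) h2
    have h4 : ∑' m : ℕ, ENNReal.ofReal ((b m) ^ 2 * (m : ℝ) ^ (-(2 * σ))) ≤
        ENNReal.ofReal (η / B) := by
      calc ∑' m : ℕ, ENNReal.ofReal ((b m) ^ 2 * (m : ℝ) ^ (-(2 * σ)))
          ≤ ∑' m : ℕ, ENNReal.ofReal (f m) := by
            refine ENNReal.tsum_le_tsum fun m => ENNReal.ofReal_le_ofReal ?_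
            by_cases hm : m ≤ z
            · rw [hb1 m hm]
              simpa using hf0 m
            · simp only [hf]
              rw [if_neg hm]
              have hm1 : (1 : ℝ) ≤ m := by exact_mod_cast (by omega : 1 ≤ m)
              have h5 : (b m) ^ 2 ≤ (a m) ^ 2 := sq_le_sq.2 (hb2 m)
              have h6 : (m : ℝ) ^ (-(2 * σ)) ≤ (m : ℝ) ^ (-(2 * τ)) :=
                Real.rpow_le_rpow_of_exponent_le hm1 (by linarith)
              have h7 : (b m) ^ 2 * (m : ℝ) ^ (-(2 * σ)) ≤ (a m) ^ 2 * (m : ℝ) ^ (-(2 * τ)) :=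
                mul_le_mul h5 h6 (by positivity) (by positivity)
              have h8 : 0 ≤ |a m| * (m : ℝ) ^ (-(2 : ℝ)) := by positivity
              linarith
        _ = ENNReal.ofReal (∑' m : ℕ, f m) := (ENNReal.ofReal_tsum_of_nonneg hf0 hz1).symm
        _ ≤ ENNReal.ofReal (η / B) := ENNReal.ofReal_le_ofReal (hz2.trans (min_le_left _ _))
    have hXs : 0 < (Real.cos φ) ^ (-(2 * σ)) := Real.rpow_pos_of_pos hC _
    have hXt : 0 < (Real.cos φ) ^ (-(2 * τ)) := Real.rpow_pos_of_pos hC _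
    have h5 : ∫⁻ y in Set.Ioi (1 / 4 : ℝ), ‖GD D μ a κ (y * ei φ)‖ₑ ^ 2 *
        ENNReal.ofReal (y ^ (2 * σ - 1)) ≤ ENNReal.ofReal (η * (Real.cos φ) ^ (-(2 * σ))) := by
      calc ∫⁻ y in Set.Ioi (1 / 4 : ℝ), ‖GD D μ a κ (y * ei φ)‖ₑ ^ 2 *
            ENNReal.ofReal (y ^ (2 * σ - 1))
          = ∫⁻ y in Set.Ioi (1 / 4 : ℝ), ‖∑' m : ℕ, (b m : ℂ) *
              Complex.exp (-(Real.pi * κ * m * ((y : ℂ) * ((Real.cos φ : ℂ) +
                Real.sin φ * I))))‖ₑ ^ 2 * ENNReal.ofReal (y ^ (2 * σ - 1)) := by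
            refine setLIntegral_congr_fun measurableSet_Ioi fun y hy => ?_
            have hy0 : (0 : ℝ) < y := lt_trans (by norm_num) hy
            rw [gd_series a κ ε h D μ hD _ (ZSml_re φ hφ y hy0), hb, ZSml_ei]
        _ ≤ ENNReal.ofReal (B * (Real.cos φ) ^ (-(2 * σ))) *
              ∑' m : ℕ, ENNReal.ofReal ((b m) ^ 2 * (m : ℝ) ^ (-(2 * σ))) := h3
        _ ≤ ENNReal.ofReal (B * (Real.cos φ) ^ (-(2 * σ))) * ENNReal.ofReal (η / B) := by
            gcongr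
        _ = ENNReal.ofReal (η * (Real.cos φ) ^ (-(2 * σ))) := by
            rw [← ENNReal.ofReal_mul (by positivity)]
            congr 1
            field_simp
    calc ∫⁻ y in Set.Ioi (0 : ℝ), ‖GD D μ a κ (y * ei φ)‖ₑ ^ 2 * ENNReal.ofReal (y ^ (2 * σ - 1))
        = ∫⁻ y in Set.Ioc (0 : ℝ) (1 / 4) ∪ Set.Ioi (1 / 4), ‖GD D μ a κ (y * ei φ)‖ₑ ^ 2 *
            ENNReal.ofReal (y ^ (2 * σ - 1)) := by
          rw [Set.Ioc_union_Ioi_eq_Ioi (by norm_num)]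
      _ ≤ (∫⁻ y in Set.Ioc (0 : ℝ) (1 / 4), ‖GD D μ a κ (y * ei φ)‖ₑ ^ 2 *
            ENNReal.ofReal (y ^ (2 * σ - 1))) +
          ∫⁻ y in Set.Ioi (1 / 4 : ℝ), ‖GD D μ a κ (y * ei φ)‖ₑ ^ 2 *
            ENNReal.ofReal (y ^ (2 * σ - 1)) := lintegral_union_le _ _ _
      _ ≤ ENNReal.ofReal (K * (Real.cos φ) ^ (-(2 * τ))) +
            ENNReal.ofReal (η * (Real.cos φ) ^ (-(2 * σ))) :=
          add_le_add (hK2 φ σ hφ hs h1 h2) h5
      _ = _ := by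
          rw [add_comm, ← ENNReal.ofReal_add (by positivity) (by positivity)]

end W3283z
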