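import Mathlib

set_option autoImplicit false

namespace W3283z

open Complex MeasureTheory Filter Topology

/-- The tent on `[0, 2]`. -/
noncomputable def tent (v : ℝ) : ℝ := max 0 (1 - |v - 1|)

theorem ZTent_cont : Continuous tent := by
  unfold tent
  fun_prop

theorem ZTent_nonneg (v : ℝ) : 0 ≤ tent v := le_max_left _ _

theorem ZTent_left {v : ℝ} (h0 : 0 ≤ v) (h1 : v ≤ 1) : tent v = v := by
  unfold tent
  rw [abs_of_nonpos (by linarith), max_eq_right (by linarith)]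
  ring

theorem ZTent_right {v : ℝ} (h0 : 1 ≤ v) (h1 : v ≤ 2) : tent v = 2 - v := by
  unfold tent
  rw [abs_of_nonneg (by linarith), max_eq_right (by linarith)]
  ring

theorem ZTent_contE (z : ℂ) : Continuous fun v : ℝ => (tent v : ℂ) * Complex.exp (-(z * v)) := by
  have := ZTent_cont
  fun_prop

theorem ZTent_formula (z : ℂ) (hz : z ≠ 0) :
    ∫ v in Set.Ioc (0 : ℝ) 2, (tent v : ℂ) * Complex.exp (-(z * v)) =
      ((1 - Complex.exp (-z)) / z) ^ 2 := by
  rw [← intervalIntegral.integral_of_le (by norm_num : (0 : ℝ) ≤ 2)]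
  have hc := ZTent_contE z
  rw [← intervalIntegral.integral_add_adjacent_intervals (b := 1) (hc.intervalIntegrable _ _)
    (hc.intervalIntegrable _ _)]
  have h1 : ∫ v in (0 : ℝ)..1, (tent v : ℂ) * Complex.exp (-(z * v)) =
      ∫ v in (0 : ℝ)..1, (v : ℂ) * Complex.exp (-(z * v)) := by
    refine intervalIntegral.integral_congr fun v hv => ?_
    rw [Set.uIcc_of_le (by norm_num)] at hv
    beta_reduce
    rw [ZTent_left hv.1 hv.2]
  have h2 : ∫ v in (1 : ℝ)..2, (tent v : ℂ) * Complex.exp (-(z * v)) =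
      ∫ v in (1 : ℝ)..2, (2 - (v : ℂ)) * Complex.exp (-(z * v)) := by
    refine intervalIntegral.integral_congr fun v hv => ?_
    rw [Set.uIcc_of_le (by norm_num)] at hv
    beta_reduce
    rw [ZTent_right hv.1 hv.2]
    push_cast
    rfl
  have e1 : ∀ v : ℝ, HasDerivAt (fun v : ℝ => (v : ℂ)) 1 v := fun v =>
    Complex.ofRealCLM.hasDerivAt
  have e2 : ∀ v : ℝ, HasDerivAt (fun v : ℝ => Complex.exp (-(z * v)))
      (Complex.exp (-(z * v)) * (-(z * 1))) v := fun v => (((e1 v).const_mul z).neg).cexp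
  have d1 : ∀ v : ℝ, HasDerivAt
      (fun v : ℝ => -((v : ℂ) / z + 1 / z ^ 2) * Complex.exp (-(z * v)))
      ((v : ℂ) * Complex.exp (-(z * v))) v := by
    intro v
    have e3 := ((((e1 v).div_const z).add_const (1 / z ^ 2)).neg).mul (e2 v)
    refine HasDerivAt.congr_deriv e3 ?_
    simp only [Pi.neg_apply]
    field_simp
    ring
  have d2 : ∀ v : ℝ, HasDerivAt
      (fun v : ℝ => (((v : ℂ) - 2) / z + 1 / z ^ 2) * Complex.exp (-(z * v)))
      ((2 - (v : ℂ)) * Complex.exp (-(z * v))) v := by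
    intro v
    have e3 := ((((e1 v).sub_const 2).div_const z).add_const (1 / z ^ 2)).mul (e2 v)
    refine HasDerivAt.congr_deriv e3 ?_
    field_simp
    ring
  have c1 : Continuous fun v : ℝ => (v : ℂ) * Complex.exp (-(z * v)) := by fun_prop
  have c2 : Continuous fun v : ℝ => (2 - (v : ℂ)) * Complex.exp (-(z * v)) := by fun_prop
  rw [h1, h2, intervalIntegral.integral_eq_sub_of_hasDerivAt (fun v _ => d1 v)
    (c1.intervalIntegrable _ _), intervalIntegral.integral_eq_sub_of_hasDerivAt (fun v _ => d2 v)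
    (c2.intervalIntegrable _ _)]
  have h3 : Complex.exp (-(z * ((2 : ℝ) : ℂ))) = Complex.exp (-z) ^ 2 := by
    rw [← Complex.exp_nat_mul]
    congr 1
    push_cast
    ring
  have h4 : Complex.exp (-(z * ((1 : ℝ) : ℂ))) = Complex.exp (-z) := by
    congr 1
    push_cast
    ring
  have h5 : Complex.exp (-(z * ((0 : ℝ) : ℂ))) = 1 := by
    rw [Complex.ofReal_zero, mul_zero, neg_zero, Complex.exp_zero]
  rw [h3, h4, h5]
  push_cast
  field_simp
  ring

theorem ZTent_one : ∫ v in Set.Ioc (0 : ℝ) 2, tent v = 1 := by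
  rw [← intervalIntegral.integral_of_le (by norm_num : (0 : ℝ) ≤ 2)]
  have hc := ZTent_cont
  rw [← intervalIntegral.integral_add_adjacent_intervals (b := 1) (hc.intervalIntegrable _ _)
    (hc.intervalIntegrable _ _)]
  have h1 : ∫ v in (0 : ℝ)..1, tent v = ∫ v in (0 : ℝ)..1, v := by
    refine intervalIntegral.integral_congr fun v hv => ?_
    rw [Set.uIcc_of_le (by norm_num)] at hv
    exact ZTent_left hv.1 hv.2
  have h2 : ∫ v in (1 : ℝ)..2, tent v = ∫ v in (1 : ℝ)..2, (2 - v) := by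
    refine intervalIntegral.integral_congr fun v hv => ?_
    rw [Set.uIcc_of_le (by norm_num)] at hv
    exact ZTent_right hv.1 hv.2
  rw [h1, h2, intervalIntegral.integral_sub (by simp) (by simp)]
  simp only [integral_id, intervalIntegral.integral_const, smul_eq_mul]
  norm_num

/-- `∫_0^2 tent(v) e^{-zv} dv = ((1 - e^{-z})/z)²`, so its absolute value is at most `4/‖z‖²` and at most `1` if
`Re z ≥ 0`. -/
theorem tent_tr (z : ℂ) (hz : 0 ≤ z.re) :
    ‖∫ v in Set.Ioc (0 : ℝ) 2, (tent v : ℂ) * Complex.exp (-(z * v))‖ ≤ 1 ∧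
    ‖∫ v in Set.Ioc (0 : ℝ) 2, (tent v : ℂ) * Complex.exp (-(z * v))‖ * ‖z‖ ^ 2 ≤ 4 := by
  have hnn : 0 ≤ ‖∫ v in Set.Ioc (0 : ℝ) 2, (tent v : ℂ) * Complex.exp (-(z * v))‖ := norm_nonneg _
  constructor
  · refine (norm_integral_le_integral_norm _).trans ?_
    rw [← ZTent_one]
    refine setIntegral_mono_on (ZTent_contE z).norm.integrableOn_Ioc
      ZTent_cont.integrableOn_Ioc measurableSet_Ioc fun v hv => ?_
    rw [norm_mul, Complex.norm_real, Real.norm_eq_abs, abs_of_nonneg (ZTent_nonneg v),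
      Complex.norm_exp]
    have h1 : Real.exp (-(z * (v : ℂ))).re ≤ 1 := by
      rw [Real.exp_le_one_iff, Complex.neg_re, Complex.mul_re, Complex.ofReal_re,
        Complex.ofReal_im, mul_zero, sub_zero]
      have := mul_nonneg hz hv.1.le
      linarith
    calc tent v * Real.exp (-(z * (v : ℂ))).re ≤ tent v * 1 :=
          mul_le_mul_of_nonneg_left h1 (ZTent_nonneg v)
      _ = tent v := mul_one _
  · by_cases h0 : z = 0
    · rw [h0, norm_zero]
      norm_num
    · rw [ZTent_formula z h0, norm_pow, norm_div, div_pow,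
        div_mul_cancel₀ _ (pow_ne_zero 2 (norm_ne_zero_iff.2 h0))]
      have h1 : ‖1 - Complex.exp (-z)‖ ≤ 2 := by
        refine (norm_sub_le _ _).trans ?_
        rw [norm_one, Complex.norm_exp]
        have : Real.exp (-z).re ≤ 1 := by
          rw [Real.exp_le_one_iff, Complex.neg_re]
          linarith
        linarith
      have h2 := norm_nonneg (1 - Complex.exp (-z))
      nlinarith

/-- the bound of the kernel -/
noncomputable def ZTent_k (κ : ℝ) (m n : ℕ) : ℝ :=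
  if m = n then 1 else 16 / (Real.pi * κ * ((m : ℝ) - n)) ^ 2

theorem ZTent_k_nonneg (κ : ℝ) (m n : ℕ) : 0 ≤ ZTent_k κ m n := by
  unfold ZTent_k
  split_ifs
  · exact zero_le_one
  · positivity

theorem ZTent_k_symm (κ : ℝ) (m n : ℕ) : ZTent_k κ m n = ZTent_k κ n m := by
  unfold ZTent_k
  by_cases h : m = n
  · rw [if_pos h, if_pos h.symm]
  · rw [if_neg h, if_neg (Ne.symm h)]
    congr 1
    ring

theorem ZTent_zeta (N : ℕ) : ∑ j ∈ Finset.range N, 1 / (j : ℝ) ^ 2 ≤ Real.pi ^ 2 / 6 :=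
  sum_le_hasSum _ (fun i _ => by positivity) hasSum_zeta_two

theorem ZTent_sumR (m N : ℕ) :
    ∑ n ∈ Finset.range N, 1 / ((n - m : ℕ) : ℝ) ^ 2 ≤ Real.pi ^ 2 / 6 := by
  have h1 : ∑ n ∈ Finset.range N, 1 / ((n - m : ℕ) : ℝ) ^ 2 ≤
      ∑ n ∈ Finset.range (m + N), 1 / ((n - m : ℕ) : ℝ) ^ 2 :=
    Finset.sum_le_sum_of_subset_of_nonneg
      (fun x hx => Finset.mem_range.2 (lt_of_lt_of_le (Finset.mem_range.1 hx) (by omega)))
      (fun _ _ _ => by positivity)
  refine h1.trans ?_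
  rw [Finset.sum_range_add, Finset.sum_eq_zero (s := Finset.range m), zero_add]
  · refine le_trans (le_of_eq ?_) (ZTent_zeta N)
    refine Finset.sum_congr rfl fun x _ => ?_
    rw [Nat.add_sub_cancel_left]
  · intro n hn
    rw [Nat.sub_eq_zero_of_le (Finset.mem_range.1 hn).le]
    simp

theorem ZTent_sumL (m N : ℕ) :
    ∑ n ∈ Finset.range N, 1 / ((m - n : ℕ) : ℝ) ^ 2 ≤ Real.pi ^ 2 / 6 := by
  have h1 : ∑ n ∈ Finset.range N, 1 / ((m - n : ℕ) : ℝ) ^ 2 ≤
      ∑ n ∈ Finset.range (m + 1 + N), 1 / ((m - n : ℕ) : ℝ) ^ 2 :=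
    Finset.sum_le_sum_of_subset_of_nonneg
      (fun x hx => Finset.mem_range.2 (lt_of_lt_of_le (Finset.mem_range.1 hx) (by omega)))
      (fun _ _ _ => by positivity)
  refine h1.trans ?_
  rw [Finset.sum_range_add, Finset.sum_eq_zero (s := Finset.range N), add_zero]
  · refine le_trans (le_of_eq ?_) (ZTent_zeta (m + 1))
    rw [← Finset.sum_range_reflect]
    refine Finset.sum_congr rfl fun x hx => ?_
    have hx' := Finset.mem_range.1 hx
    have h2 : m - (m + 1 - 1 - x) = x := by omega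
    rw [h2]
  · intro n _
    rw [Nat.sub_eq_zero_of_le (by omega)]
    simp

theorem ZTent_ksum (κ : ℝ) (hκ : 0 < κ) (m N : ℕ) :
    ∑ n ∈ Finset.range N, ZTent_k κ m n ≤ 1 + 16 / (3 * κ ^ 2) := by
  have hpi := Real.pi_pos
  have h1 : ∀ n ∈ Finset.range N, ZTent_k κ m n = (if m = n then 1 else 0) +
      16 / (Real.pi * κ) ^ 2 *
        (1 / ((m - n : ℕ) : ℝ) ^ 2 + 1 / ((n - m : ℕ) : ℝ) ^ 2) := by
    intro n _
    unfold ZTent_k
    rcases lt_trichotomy m n with h | h | h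
    · rw [if_neg h.ne, if_neg h.ne, Nat.sub_eq_zero_of_le h.le, Nat.cast_sub h.le]
      have h3 : (m : ℝ) < n := by exact_mod_cast h
      have h4 : (m : ℝ) - n ≠ 0 := by linarith
      have h5 : (n : ℝ) - m ≠ 0 := by linarith
      have h6 : (n : ℝ) - m = -((m : ℝ) - n) := by ring
      rw [h6]
      simp only [Nat.cast_zero, ne_eq, OfNat.ofNat_ne_zero, not_false_eq_true, zero_pow, div_zero,
        zero_add, neg_sq]
      field_simp
    · rw [if_pos h, if_pos h, h]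
      simp
    · rw [if_neg h.ne', if_neg h.ne', Nat.sub_eq_zero_of_le h.le, Nat.cast_sub h.le]
      have h3 : (n : ℝ) < m := by exact_mod_cast h
      have h4 : (m : ℝ) - n ≠ 0 := by linarith
      simp only [Nat.cast_zero, ne_eq, OfNat.ofNat_ne_zero, not_false_eq_true, zero_pow, div_zero,
        zero_add, add_zero]
      field_simp
  rw [Finset.sum_congr rfl h1, Finset.sum_add_distrib, ← Finset.mul_sum, Finset.sum_add_distrib]
  have h2 : ∑ n ∈ Finset.range N, (if m = n then (1 : ℝ) else 0) ≤ 1 := by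
    rw [Finset.sum_ite_eq]
    split_ifs
    · exact le_rfl
    · exact zero_le_one
  have h3 := ZTent_sumL m N
  have h4 := ZTent_sumR m N
  have h5 : 16 / (Real.pi * κ) ^ 2 * (∑ n ∈ Finset.range N, 1 / ((m - n : ℕ) : ℝ) ^ 2 +
      ∑ n ∈ Finset.range N, 1 / ((n - m : ℕ) : ℝ) ^ 2) ≤
      16 / (Real.pi * κ) ^ 2 * (Real.pi ^ 2 / 3) := by
    refine mul_le_mul_of_nonneg_left ?_ (by positivity)
    linarith
  have h6 : 16 / (Real.pi * κ) ^ 2 * (Real.pi ^ 2 / 3) = 16 / (3 * κ ^ 2) := by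
    field_simp
  linarith

theorem ZTent_schur (κ : ℝ) (hκ : 0 < κ) (β : ℕ → ℝ) (N : ℕ) :
    ∑ m ∈ Finset.range N, ∑ n ∈ Finset.range N, |β m| * |β n| * ZTent_k κ m n ≤
      (1 + 16 / (3 * κ ^ 2)) * ∑ m ∈ Finset.range N, (β m) ^ 2 := by
  have h1 : ∀ m n, |β m| * |β n| * ZTent_k κ m n ≤
      (β m) ^ 2 / 2 * ZTent_k κ m n + (β n) ^ 2 / 2 * ZTent_k κ m n := by
    intro m n
    rw [← add_mul]
    refine mul_le_mul_of_nonneg_right ?_ (ZTent_k_nonneg κ m n)
    have h2 := sq_nonneg (|β m| - |β n|)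
    have h3 := sq_abs (β m)
    have h4 := sq_abs (β n)
    nlinarith
  have h2 : ∑ m ∈ Finset.range N, ∑ n ∈ Finset.range N, (β n) ^ 2 / 2 * ZTent_k κ m n =
      ∑ m ∈ Finset.range N, ∑ n ∈ Finset.range N, (β m) ^ 2 / 2 * ZTent_k κ m n := by
    rw [Finset.sum_comm]
    refine Finset.sum_congr rfl fun m _ => Finset.sum_congr rfl fun n _ => ?_
    rw [ZTent_k_symm]
  calc ∑ m ∈ Finset.range N, ∑ n ∈ Finset.range N, |β m| * |β n| * ZTent_k κ m n
      ≤ ∑ m ∈ Finset.range N, ∑ n ∈ Finset.range N, ((β m) ^ 2 / 2 * ZTent_k κ m n +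
          (β n) ^ 2 / 2 * ZTent_k κ m n) :=
        Finset.sum_le_sum fun m _ => Finset.sum_le_sum fun n _ => h1 m n
    _ = ∑ m ∈ Finset.range N, ∑ n ∈ Finset.range N, (β m) ^ 2 * ZTent_k κ m n := by
        simp only [Finset.sum_add_distrib]
        rw [h2, ← Finset.sum_add_distrib]
        refine Finset.sum_congr rfl fun m _ => ?_
        rw [← Finset.sum_add_distrib]
        refine Finset.sum_congr rfl fun n _ => ?_
        ring
    _ = ∑ m ∈ Finset.range N, (β m) ^ 2 * ∑ n ∈ Finset.range N, ZTent_k κ m n := by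
        simp only [Finset.mul_sum]
    _ ≤ ∑ m ∈ Finset.range N, (β m) ^ 2 * (1 + 16 / (3 * κ ^ 2)) :=
        Finset.sum_le_sum fun m _ =>
          mul_le_mul_of_nonneg_left (ZTent_ksum κ hκ m N) (sq_nonneg _)
    _ = (1 + 16 / (3 * κ ^ 2)) * ∑ m ∈ Finset.range N, (β m) ^ 2 := by
        rw [← Finset.sum_mul, mul_comm]

/-- the exponents -/
noncomputable def ZTent_w (κ C S : ℝ) (m : ℕ) : ℂ :=
  (Real.pi : ℂ) * κ * m * ((C : ℂ) + S * I)

theorem ZTent_w_re (κ C S : ℝ) (m : ℕ) : (ZTent_w κ C S m).re = Real.pi * κ * m * C := by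
  unfold ZTent_w
  have : (Real.pi : ℂ) * κ * m * ((C : ℂ) + S * I) =
      ((Real.pi * κ * m * C : ℝ) : ℂ) + ((Real.pi * κ * m * S : ℝ) : ℂ) * I := by
    push_cast
    ring
  rw [this]
  simp

theorem ZTent_w_im (κ C S : ℝ) (m : ℕ) : (ZTent_w κ C S m).im = Real.pi * κ * m * S := by
  unfold ZTent_w
  have : (Real.pi : ℂ) * κ * m * ((C : ℂ) + S * I) =
      ((Real.pi * κ * m * C : ℝ) : ℂ) + ((Real.pi * κ * m * S : ℝ) : ℂ) * I := by
    push_cast
    ring
  rw [this]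
  simp

theorem ZTent_I (κ : ℝ) (hκ : 0 < κ) (C S : ℝ) (hC : 0 < C) (hS : 1 / 2 ≤ |S|) (m n : ℕ) :
    ‖∫ v in Set.Ioc (0 : ℝ) 2, (tent v : ℂ) * Complex.exp
      (-((ZTent_w κ C S m + (starRingEnd ℂ) (ZTent_w κ C S n)) * v))‖ ≤ ZTent_k κ m n := by
  have hpi := Real.pi_pos
  set z : ℂ := ZTent_w κ C S m + (starRingEnd ℂ) (ZTent_w κ C S n) with hz
  have hre : 0 ≤ z.re := by
    rw [hz, Complex.add_re, Complex.conj_re, ZTent_w_re, ZTent_w_re]
    positivity
  obtain ⟨h1, h2⟩ := tent_tr z hre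
  unfold ZTent_k
  split_ifs with h
  · exact h1
  · have him : z.im = Real.pi * κ * S * ((m : ℝ) - n) := by
      rw [hz, Complex.add_im, Complex.conj_im, ZTent_w_im, ZTent_w_im]
      ring
    have h3 : (m : ℝ) - n ≠ 0 := by
      intro h4
      apply h
      have : (m : ℝ) = n := by linarith
      exact_mod_cast this
    have h5 : z.im ^ 2 ≤ ‖z‖ ^ 2 := by
      rw [← sq_abs]
      exact pow_le_pow_left₀ (abs_nonneg _) (Complex.abs_im_le_norm z) 2
    have h6 : (Real.pi * κ * ((m : ℝ) - n)) ^ 2 / 4 ≤ z.im ^ 2 := by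
      have h7 : (1 / 2) ^ 2 ≤ S ^ 2 := by
        rw [← sq_abs S]
        exact pow_le_pow_left₀ (by norm_num) hS 2
      have h8 : z.im ^ 2 = S ^ 2 * (Real.pi * κ * ((m : ℝ) - n)) ^ 2 := by
        rw [him]
        ring
      rw [h8]
      have h9 := mul_le_mul_of_nonneg_right h7 (sq_nonneg (Real.pi * κ * ((m : ℝ) - n)))
      linarith
    have h7 : 0 < (Real.pi * κ * ((m : ℝ) - n)) ^ 2 := by positivity
    rw [le_div_iff₀ h7]
    have h8 := norm_nonneg (∫ v in Set.Ioc (0 : ℝ) 2, (tent v : ℂ) * Complex.exp (-(z * v)))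
    have h9 := mul_le_mul_of_nonneg_left (h6.trans h5) h8
    linarith

theorem ZTent_fin (κ : ℝ) (hκ : 0 < κ) (b : ℕ → ℝ) (C S : ℝ) (hC : 0 < C) (hS : 1 / 2 ≤ |S|)
    (y0 : ℝ) (N : ℕ) :
    ∫⁻ v in Set.Ioc (0 : ℝ) 2, ‖∑ m ∈ Finset.range N, (b m : ℂ) *
        Complex.exp (-(Real.pi * κ * m * (((y0 + v : ℝ) : ℂ) * ((C : ℂ) + S * I))))‖ₑ ^ 2 *
          ENNReal.ofReal (tent v) ≤
      ENNReal.ofReal ((1 + 16 / (3 * κ ^ 2)) *
        ∑ m ∈ Finset.range N, ((b m) ^ 2 * Real.exp (-(2 * Real.pi * κ * C * m * y0)))) := by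
  have hpi := Real.pi_pos
  set G : ℝ → ℂ := fun v => ∑ m ∈ Finset.range N, (b m : ℂ) *
        Complex.exp (-(Real.pi * κ * m * (((y0 + v : ℝ) : ℂ) * ((C : ℂ) + S * I)))) with hG
  have hGc : Continuous G := by
    rw [hG]
    fun_prop
  have hc : Continuous fun v => ‖G v‖ ^ 2 * tent v := (hGc.norm.pow 2).mul ZTent_cont
  have h1 : ∫⁻ v in Set.Ioc (0 : ℝ) 2, ‖G v‖ₑ ^ 2 * ENNReal.ofReal (tent v) =
      ENNReal.ofReal (∫ v in Set.Ioc (0 : ℝ) 2, ‖G v‖ ^ 2 * tent v) := by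
    rw [ofReal_integral_eq_lintegral_ofReal hc.integrableOn_Ioc
      (Filter.Eventually.of_forall fun v => mul_nonneg (sq_nonneg _) (ZTent_nonneg v))]
    refine lintegral_congr fun v => ?_
    rw [ENNReal.ofReal_mul (sq_nonneg _), ENNReal.ofReal_pow (norm_nonneg _), ofReal_norm]
  rw [h1]
  refine ENNReal.ofReal_le_ofReal ?_
  -- the expansion
  set w : ℕ → ℂ := ZTent_w κ C S with hw
  set β : ℕ → ℝ := fun m => b m * Real.exp (-(Real.pi * κ * C * m * y0)) with hβ
  have hE : ∀ (m : ℕ) (v : ℝ),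
      Complex.exp (-(Real.pi * κ * m * (((y0 + v : ℝ) : ℂ) * ((C : ℂ) + S * I)))) =
      Complex.exp (-(w m * y0)) * Complex.exp (-(w m * v)) := by
    intro m v
    rw [← Complex.exp_add]
    congr 1
    rw [hw]
    unfold ZTent_w
    push_cast
    ring
  have hexp : ∀ v : ℝ, ((‖G v‖ ^ 2 * tent v : ℝ) : ℂ) =
      ∑ m ∈ Finset.range N, ∑ n ∈ Finset.range N,
        ((b m : ℂ) * b n * Complex.exp (-((w m + (starRingEnd ℂ) (w n)) * y0))) *
          ((tent v : ℂ) * Complex.exp (-((w m + (starRingEnd ℂ) (w n)) * v))) := by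
    intro v
    have h2 : ((‖G v‖ ^ 2 : ℝ) : ℂ) = G v * (starRingEnd ℂ) (G v) := by
      rw [Complex.mul_conj, Complex.normSq_eq_norm_sq]
    rw [Complex.ofReal_mul, h2, hG]
    beta_reduce
    rw [map_sum, Finset.sum_mul_sum, Finset.sum_mul]
    refine Finset.sum_congr rfl fun m _ => ?_
    rw [Finset.sum_mul]
    refine Finset.sum_congr rfl fun n _ => ?_
    rw [hE m v, hE n v, map_mul, map_mul, Complex.conj_ofReal, ← Complex.exp_conj,
      ← Complex.exp_conj]
    have h3 : Complex.exp (-((w m + (starRingEnd ℂ) (w n)) * (y0 : ℂ))) =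
        Complex.exp (-(w m * y0)) * Complex.exp ((starRingEnd ℂ) (-(w n * y0))) := by
      rw [← Complex.exp_add]
      congr 1
      rw [map_neg, map_mul, Complex.conj_ofReal]
      ring
    have h4 : Complex.exp (-((w m + (starRingEnd ℂ) (w n)) * (v : ℂ))) =
        Complex.exp (-(w m * v)) * Complex.exp ((starRingEnd ℂ) (-(w n * v))) := by
      rw [← Complex.exp_add]
      congr 1
      rw [map_neg, map_mul, Complex.conj_ofReal]
      ring
    rw [h3, h4]
    ring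
  have hint : ((∫ v in Set.Ioc (0 : ℝ) 2, ‖G v‖ ^ 2 * tent v : ℝ) : ℂ) =
      ∑ m ∈ Finset.range N, ∑ n ∈ Finset.range N,
        ((b m : ℂ) * b n * Complex.exp (-((w m + (starRingEnd ℂ) (w n)) * y0))) *
          ∫ v in Set.Ioc (0 : ℝ) 2,
            ((tent v : ℂ) * Complex.exp (-((w m + (starRingEnd ℂ) (w n)) * v))) := by
    rw [← integral_complex_ofReal]
    simp only [hexp]
    rw [integral_finsetSum _ fun m _ => ?_]
    · refine Finset.sum_congr rfl fun m _ => ?_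
      rw [integral_finsetSum _ fun n _ => ?_]
      · refine Finset.sum_congr rfl fun n _ => ?_
        rw [integral_const_mul]
      · exact ((ZTent_contE _).integrableOn_Ioc).const_mul _
    · exact integrable_finsetSum _ fun n _ => ((ZTent_contE _).integrableOn_Ioc).const_mul _
  have habs : ∫ v in Set.Ioc (0 : ℝ) 2, ‖G v‖ ^ 2 * tent v ≤
      ‖((∫ v in Set.Ioc (0 : ℝ) 2, ‖G v‖ ^ 2 * tent v : ℝ) : ℂ)‖ := by
    rw [Complex.norm_real]
    exact le_abs_self _
  refine habs.trans ?_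
  rw [hint]
  have hterm : ∀ m n : ℕ, ‖((b m : ℂ) * b n *
      Complex.exp (-((w m + (starRingEnd ℂ) (w n)) * y0))) *
          ∫ v in Set.Ioc (0 : ℝ) 2,
            ((tent v : ℂ) * Complex.exp (-((w m + (starRingEnd ℂ) (w n)) * v)))‖ ≤
      |β m| * |β n| * ZTent_k κ m n := by
    intro m n
    rw [norm_mul]
    have h2 : ‖(b m : ℂ) * b n * Complex.exp (-((w m + (starRingEnd ℂ) (w n)) * y0))‖ =
        |β m| * |β n| := by
      rw [norm_mul, norm_mul, Complex.norm_real, Complex.norm_real, Complex.norm_exp, hβ]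
      beta_reduce
      rw [abs_mul, abs_mul, abs_of_pos (Real.exp_pos _), abs_of_pos (Real.exp_pos _)]
      have h3 : (-((w m + (starRingEnd ℂ) (w n)) * (y0 : ℂ))).re =
          -(Real.pi * κ * C * m * y0) + -(Real.pi * κ * C * n * y0) := by
        rw [Complex.neg_re, Complex.mul_re, Complex.ofReal_re, Complex.ofReal_im, mul_zero,
          sub_zero, Complex.add_re, Complex.conj_re, hw, ZTent_w_re, ZTent_w_re]
        ring
      rw [h3, Real.exp_add, Real.norm_eq_abs, Real.norm_eq_abs]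
      ring
    rw [h2]
    exact mul_le_mul_of_nonneg_left (ZTent_I κ hκ C S hC hS m n)
      (mul_nonneg (abs_nonneg _) (abs_nonneg _))
  calc _ ≤ ∑ m ∈ Finset.range N, ‖∑ n ∈ Finset.range N,
        ((b m : ℂ) * b n * Complex.exp (-((w m + (starRingEnd ℂ) (w n)) * y0))) *
          ∫ v in Set.Ioc (0 : ℝ) 2,
            ((tent v : ℂ) * Complex.exp (-((w m + (starRingEnd ℂ) (w n)) * v)))‖ :=
        norm_sum_le _ _
    _ ≤ ∑ m ∈ Finset.range N, ∑ n ∈ Finset.range N, |β m| * |β n| * ZTent_k κ m n :=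
        Finset.sum_le_sum fun m _ => (norm_sum_le _ _).trans
          (Finset.sum_le_sum fun n _ => hterm m n)
    _ ≤ (1 + 16 / (3 * κ ^ 2)) * ∑ m ∈ Finset.range N, (β m) ^ 2 := ZTent_schur κ hκ β N
    _ = _ := by
        congr 1
        refine Finset.sum_congr rfl fun m _ => ?_
        rw [hβ]
        beta_reduce
        rw [mul_pow, ← Real.exp_nat_mul]
        congr 2
        push_cast
        ring

/-- The local mean square on a ray.  Expand `|G|²` into the double series (absolutely convergent),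
`∫ tent(v) e^{-(z_m + conj z_n)(y0 + v)} dv` with `z_m = πκm(C + iS)`; by `tent_tr` it is at most
`e^{-πκC(m+n)y0} K(m - n)`, `K(0) = 1`, `K(j) = min 1 (4/(πκSj)²) ≤ 16/(πκj)²`; then
`|b_m b_n| e^{-πκC(m+n)y0} ≤ (b_m² e^{-2πκCm y0} + b_n² e^{-2πκCn y0})/2` and `Σ_j K(j) ≤ 1 + 16/(3κ²)`. -/
theorem loc_sq (κ : ℝ) (hκ : 0 < κ) (b : ℕ → ℝ)
    (hb : ∀ x : ℝ, 0 < x → Summable (fun m : ℕ => |b m| * Real.exp (-(x * m))))
    (C S : ℝ) (hC : 0 < C) (hS : 1 / 2 ≤ |S|) (y0 : ℝ) (hy0 : 0 < y0) :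
    ∫⁻ v in Set.Ioc (0 : ℝ) 2, ‖∑' m : ℕ, (b m : ℂ) *
        Complex.exp (-(Real.pi * κ * m * (((y0 + v : ℝ) : ℂ) * ((C : ℂ) + S * I))))‖ₑ ^ 2 *
          ENNReal.ofReal (tent v) ≤
      ENNReal.ofReal (1 + 16 / (3 * κ ^ 2)) *
        ∑' m : ℕ, ENNReal.ofReal ((b m) ^ 2 * Real.exp (-(2 * Real.pi * κ * C * m * y0))) := by
  have hpi := Real.pi_pos
  set F : ℕ → ℝ → ENNReal := fun N v => ‖∑ m ∈ Finset.range N, (b m : ℂ) *
        Complex.exp (-(Real.pi * κ * m * (((y0 + v : ℝ) : ℂ) * ((C : ℂ) + S * I))))‖ₑ ^ 2 *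
          ENNReal.ofReal (tent v) with hF
  have hFm : ∀ N, Measurable (F N) := by
    intro N
    rw [hF]
    beta_reduce
    refine Measurable.mul (Measurable.pow_const (Continuous.measurable ?_).enorm 2)
      (ENNReal.measurable_ofReal.comp ZTent_cont.measurable)
    fun_prop
  have hlim : ∀ v ∈ Set.Ioc (0 : ℝ) 2, Filter.liminf (fun N => F N v) Filter.atTop =
      ‖∑' m : ℕ, (b m : ℂ) *
        Complex.exp (-(Real.pi * κ * m * (((y0 + v : ℝ) : ℂ) * ((C : ℂ) + S * I))))‖ₑ ^ 2 *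
          ENNReal.ofReal (tent v) := by
    intro v hv
    have hs : Summable fun m : ℕ => (b m : ℂ) *
        Complex.exp (-(Real.pi * κ * m * (((y0 + v : ℝ) : ℂ) * ((C : ℂ) + S * I)))) := by
      have h1 := hb (Real.pi * κ * C * (y0 + v)) (by have := hv.1; positivity)
      refine Summable.of_norm_bounded h1 fun m => le_of_eq ?_
      rw [norm_mul, Complex.norm_real, Complex.norm_exp, Real.norm_eq_abs]
      congr 2
      have : -((Real.pi : ℂ) * κ * m * (((y0 + v : ℝ) : ℂ) * ((C : ℂ) + S * I))) =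
          ((-(Real.pi * κ * C * (y0 + v) * m) : ℝ) : ℂ) +
            ((-(Real.pi * κ * S * (y0 + v) * m) : ℝ) : ℂ) * I := by
        push_cast
        ring
      rw [this]
      simp
    have h2 := hs.hasSum.tendsto_sum_nat
    refine Filter.Tendsto.liminf_eq ?_
    rw [hF]
    beta_reduce
    refine ENNReal.Tendsto.mul_const ?_ (Or.inr ENNReal.ofReal_ne_top)
    exact ((ENNReal.continuous_pow 2).tendsto _).comp (h2.enorm)
  have h1 : ∫⁻ v in Set.Ioc (0 : ℝ) 2, ‖∑' m : ℕ, (b m : ℂ) *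
        Complex.exp (-(Real.pi * κ * m * (((y0 + v : ℝ) : ℂ) * ((C : ℂ) + S * I))))‖ₑ ^ 2 *
          ENNReal.ofReal (tent v) =
      ∫⁻ v in Set.Ioc (0 : ℝ) 2, Filter.liminf (fun N => F N v) Filter.atTop :=
    setLIntegral_congr_fun measurableSet_Ioc fun v hv => (hlim v hv).symm
  rw [h1]
  refine (lintegral_liminf_le hFm).trans ?_
  have h2 : ∀ N, ∫⁻ v in Set.Ioc (0 : ℝ) 2, F N v ≤ ENNReal.ofReal (1 + 16 / (3 * κ ^ 2)) *
        ∑' m : ℕ, ENNReal.ofReal ((b m) ^ 2 * Real.exp (-(2 * Real.pi * κ * C * m * y0))) := by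
    intro N
    refine (ZTent_fin κ hκ b C S hC hS y0 N).trans ?_
    rw [ENNReal.ofReal_mul (by positivity), ENNReal.ofReal_sum_of_nonneg
      (fun m _ => by positivity)]
    exact mul_le_mul_right (ENNReal.sum_le_tsum _) _
  refine (Filter.liminf_le_liminf (Filter.Eventually.of_forall h2)).trans ?_
  rw [Filter.liminf_const]

end W3283z
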